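import Pool.Agent.K7.H84.GG.Stm

set_option autoImplicit false

namespace Pool.Agent.K7.H98.GGS4

open Finset DC813 Pool.Agent.K7.H84.GG

variable {α : Type} [DecidableEq α]

theorem rk_union_of {r : Finset α → ℕ} (hr : IsRk r) (A S : Finset α)
    (h : ∀ e ∈ S, r (insert e A) = r A) : r (A ∪ S) = r A := by
  induction S using Finset.induction_on with
  | empty => simp
  | insert x S hx ih =>
    have h1 := ih (fun e he => h e (Finset.mem_insert_of_mem he))
    have h2 := h x (Finset.mem_insert_self x S)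
    have h3 := hr.submod (A ∪ S) (insert x A)
    have h4 : (A ∪ S) ∪ insert x A = A ∪ insert x S := by
      ext y; simp only [Finset.mem_union, Finset.mem_insert]; tauto
    have h5 : A ⊆ (A ∪ S) ∩ insert x A := by
      intro y hy; simp [hy]
    have h6 := hr.mono _ _ h5
    have h7 := hr.mono A (A ∪ insert x S) Finset.subset_union_left
    rw [h4] at h3
    omega

theorem subset_cl {r : Finset α → ℕ} {E A : Finset α} (hA : A ⊆ E) : A ⊆ cl r E A := by
  intro x hx
  unfold cl
  rw [Finset.mem_filter, Finset.insert_eq_of_mem hx]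
  exact ⟨hA hx, rfl⟩

theorem rk_cl {r : Finset α → ℕ} (hr : IsRk r) {E A : Finset α} (hA : A ⊆ E) :
    r (cl r E A) = r A := by
  have h := rk_union_of hr A (cl r E A) (fun e he => by
    unfold cl at he
    exact (Finset.mem_filter.1 he).2)
  rwa [Finset.union_eq_right.2 (subset_cl hA)] at h

theorem cl_flat {r : Finset α → ℕ} (hr : IsRk r) {E A : Finset α} (hA : A ⊆ E) :
    cl r E A ∈ fl r E := by
  unfold fl
  rw [Finset.mem_filter, Finset.mem_powerset]
  refine ⟨Finset.filter_subset _ _, ?_⟩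
  intro e he hne
  rw [rk_cl hr hA]
  have h1 : r (insert e A) ≠ r A := by
    intro h
    exact hne (by unfold cl; rw [Finset.mem_filter]; exact ⟨he, h⟩)
  have h2 := hr.mono A (insert e A) (Finset.subset_insert e A)
  have h3 := hr.mono (insert e A) (insert e (cl r E A))
    (Finset.insert_subset_insert e (subset_cl hA))
  omega

/-- the set-up of a type I flat -/
theorem disj {r : Finset α → ℕ} {E L G : Finset α} {p : α} (h : Ctx r E L p)
    (hG : G ∈ T1 r E L) : ∀ y ∈ L, y ∉ G := by
  intro y hy hyG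
  unfold T1 at hG
  rw [Finset.mem_filter] at hG
  obtain ⟨-, h1, h2⟩ := hG
  have hLE : L ⊆ E := by
    have := h.hL
    unfold fl at this
    exact Finset.mem_powerset.1 (Finset.mem_filter.1 this).1
  have h3 := h.hr.submod G L
  have h4 : 0 < r {y} := h.lp y (hLE hy)
  have h5 := h.hr.mono {y} (G ∩ L) (by
    intro z hz; rw [Finset.mem_singleton] at hz; subst hz; simp [hyG, hy])
  have h6 := h.hL2
  omega

/-- two-element rank argument -/
theorem big {r : Finset α → ℕ} {E L G H : Finset α} {p : α} (h : Ctx r E L p)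
    (hG : G ∈ T1 r E L) (hGH : G ⊆ H) (hH : r H + 1 = r E) : r (H ∩ L) ≤ 1 := by
  unfold T1 at hG
  rw [Finset.mem_filter] at hG
  obtain ⟨-, h1, h2⟩ := hG
  have h3 := h.hr.submod H L
  have h4 := h.hr.mono (G ∪ L) (H ∪ L) (Finset.union_subset_union_left hGH)
  have h6 := h.hL2
  omega

theorem maps {r : Finset α → ℕ} {E L G : Finset α} {p : α} (h : Ctx r E L p)
    (hG : G ∈ T1 r E L) (H : Finset α) (hH : H ∈ hy r E p) (hGH : G ⊆ H)
    (hd : ¬ Disjoint H L) : H ∩ L ∈ hy r L p := by
  have hLE : L ⊆ E := by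
    have := h.hL
    unfold fl at this
    exact Finset.mem_powerset.1 (Finset.mem_filter.1 this).1
  unfold hy at hH ⊢
  rw [Finset.mem_filter] at hH ⊢
  obtain ⟨hF, hr1, hp⟩ := hH
  unfold fl at hF ⊢
  rw [Finset.mem_filter] at hF ⊢
  obtain ⟨hHE, hfl⟩ := hF
  refine ⟨⟨Finset.mem_powerset.2 Finset.inter_subset_right, ?_⟩, ?_, ?_⟩
  · intro e he hne
    have heH : e ∉ H := fun hh => hne (Finset.mem_inter.2 ⟨hh, he⟩)
    have h1 := hfl e (hLE he) heH
    have h2 := h.hr.submod H (insert e (H ∩ L))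
    have h3 : H ∪ insert e (H ∩ L) = insert e H := by
      ext y; simp only [Finset.mem_union, Finset.mem_insert, Finset.mem_inter]; tauto
    have h4 : H ∩ insert e (H ∩ L) = H ∩ L := by
      ext y
      simp only [Finset.mem_inter, Finset.mem_insert]
      constructor
      · rintro ⟨a, rfl | b⟩
        · exact absurd a heH
        · exact b
      · rintro ⟨a, b⟩; exact ⟨a, Or.inr ⟨a, b⟩⟩
    rw [h3, h4] at h2
    omega
  · rw [h.hL2]
    have h1 := big h hG hGH hr1
    rw [Finset.not_disjoint_iff] at hd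
    obtain ⟨y, hy1, hy2⟩ := hd
    have h2 := h.lp y (hLE hy2)
    have h3 := h.hr.mono {y} (H ∩ L) (by
      intro z hz; rw [Finset.mem_singleton] at hz; subst hz; simp [hy1, hy2])
    omega
  · intro hh
    exact hp (Finset.mem_inter.1 hh).1

theorem inj {r : Finset α → ℕ} {E L G : Finset α} {p : α} (h : Ctx r E L p)
    (hG : G ∈ T1 r E L) (H H' : Finset α) (hH : H ∈ hy r E p) (hGH : G ⊆ H)
    (hH' : H' ∈ hy r E p) (hGH' : G ⊆ H') (hd : ¬ Disjoint H L)
    (he : H ∩ L = H' ∩ L) : H' ⊆ H := by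
  have hLE : L ⊆ E := by
    have := h.hL
    unfold fl at this
    exact Finset.mem_powerset.1 (Finset.mem_filter.1 this).1
  rw [Finset.not_disjoint_iff] at hd
  obtain ⟨y, hy1, hy2⟩ := hd
  have hyG := disj h hG y hy2
  have hyH' : y ∈ H' := by
    have : y ∈ H' ∩ L := by rw [← he]; exact Finset.mem_inter.2 ⟨hy1, hy2⟩
    exact (Finset.mem_inter.1 this).1
  unfold T1 at hG
  rw [Finset.mem_filter] at hG
  obtain ⟨hGf, h1, h2⟩ := hG
  unfold fl at hGf
  rw [Finset.mem_filter] at hGf
  have h3 := hGf.2 y (hLE hy2) hyG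
  unfold hy at hH hH'
  rw [Finset.mem_filter] at hH hH'
  obtain ⟨hF, hr1, -⟩ := hH
  obtain ⟨hF', hr1', -⟩ := hH'
  unfold fl at hF hF'
  rw [Finset.mem_filter, Finset.mem_powerset] at hF hF'
  intro x hx
  by_contra hxH
  have h4 := hF.2 x (hF'.1 hx) hxH
  have h5 := h.hr.submod H (insert x (insert y G))
  have h6 : H ∪ insert x (insert y G) = insert x H := by
    ext z
    simp only [Finset.mem_union, Finset.mem_insert]
    constructor
    · rintro (a | rfl | rfl | a)
      · exact Or.inr a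
      · exact Or.inl rfl
      · exact Or.inr hy1
      · exact Or.inr (hGH a)
    · rintro (rfl | a)
      · exact Or.inr (Or.inl rfl)
      · exact Or.inl a
  have h7 : insert y G ⊆ H ∩ insert x (insert y G) := by
    intro z hz
    rw [Finset.mem_inter]
    refine ⟨?_, Finset.mem_insert_of_mem hz⟩
    rcases Finset.mem_insert.1 hz with rfl | a
    · exact hy1
    · exact hGH a
  have h8 := h.hr.mono _ _ h7
  have h9 : insert x (insert y G) ⊆ H' := by
    intro z hz
    rcases Finset.mem_insert.1 hz with rfl | a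
    · exact hx
    · rcases Finset.mem_insert.1 a with rfl | b
      · exact hyH'
      · exact hGH' b
  have h10 := h.hr.mono _ _ h9
  rw [h6] at h5
  omega

theorem surj {r : Finset α → ℕ} {E L G : Finset α} {p : α} (h : Ctx r E L p)
    (hG : G ∈ T1 r E L) (Y : Finset α) (hY : Y ∈ hy r L p) :
    ∃ H, H ∈ hy r E p ∧ G ⊆ H ∧ ¬ Disjoint H L ∧ H ∩ L = Y := by
  have hLE : L ⊆ E := by
    have := h.hL
    unfold fl at this
    exact Finset.mem_powerset.1 (Finset.mem_filter.1 this).1
  have hG0 := hG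
  unfold T1 at hG
  rw [Finset.mem_filter] at hG
  obtain ⟨hGf, h1, h2⟩ := hG
  unfold fl at hGf
  rw [Finset.mem_filter, Finset.mem_powerset] at hGf
  unfold hy at hY
  rw [Finset.mem_filter] at hY
  obtain ⟨hYf, hrY, hpY⟩ := hY
  unfold fl at hYf
  rw [Finset.mem_filter, Finset.mem_powerset] at hYf
  rw [h.hL2] at hrY
  have hrY1 : r Y = 1 := by omega
  obtain ⟨y, hyY⟩ : Y.Nonempty := by
    rw [Finset.nonempty_iff_ne_empty]
    rintro rfl
    rw [h.hr.empty] at hrY1
    omega
  have hyL := hYf.1 hyY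
  have hyG := disj h hG0 y hyL
  have h3 := hGf.2 y (hLE hyL) hyG
  have hA : G ∪ Y ⊆ E := Finset.union_subset hGf.1 (hYf.1.trans hLE)
  have h4 := h.hr.mono (insert y G) (G ∪ Y) (by
    intro z hz
    rcases Finset.mem_insert.1 hz with rfl | a
    · exact Finset.mem_union_right _ hyY
    · exact Finset.mem_union_left _ a)
  have h5 := h.hr.submod G Y
  have h6 : r (G ∪ Y) = r G + 1 := by omega
  have hsub := subset_cl (r := r) hA
  have hrc : r (cl r E (G ∪ Y)) = r G + 1 := by rw [rk_cl h.hr hA, h6]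
  have hGc : G ⊆ cl r E (G ∪ Y) := Finset.subset_union_left.trans hsub
  have hYc : Y ⊆ cl r E (G ∪ Y) := Finset.subset_union_right.trans hsub
  have hb := big h hG0 hGc (by omega)
  have hkey : ∀ x ∈ L, x ∉ Y → x ∉ cl r E (G ∪ Y) := by
    intro x hx hxY hxc
    have h7 := hYf.2 x hx hxY
    have h8 := h.hr.mono (insert x Y) (cl r E (G ∪ Y) ∩ L) (by
      intro z hz
      rcases Finset.mem_insert.1 hz with rfl | a
      · exact Finset.mem_inter.2 ⟨hxc, hx⟩
      · exact Finset.mem_inter.2 ⟨hYc a, hYf.1 a⟩)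
    omega
  refine ⟨cl r E (G ∪ Y), ?_, hGc, ?_, ?_⟩
  · unfold hy
    rw [Finset.mem_filter]
    exact ⟨cl_flat h.hr hA, by omega, hkey p h.hpL hpY⟩
  · rw [Finset.not_disjoint_iff]
    exact ⟨y, hYc hyY, hyL⟩
  · ext x
    rw [Finset.mem_inter]
    constructor
    · rintro ⟨a, b⟩
      by_contra hx
      exact hkey x b hx a
    · intro hx
      exact ⟨hYc hx, hYf.1 hx⟩

theorem t : StS4 := by
  intro α _ r E L p G h hG
  have h1 := Finset.card_filter_add_card_filter_not (s := (hy r E p).filter (fun H => G ⊆ H))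
    (fun H => Disjoint H L)
  rw [Finset.filter_filter, Finset.filter_filter] at h1
  have h2 : ((hy r E p).filter (fun H => G ⊆ H ∧ ¬ Disjoint H L)).card = (hy r L p).card := by
    refine Finset.card_bij (fun H _ => H ∩ L) ?_ ?_ ?_
    · intro H hH
      rw [Finset.mem_filter] at hH
      exact maps h hG H hH.1 hH.2.1 hH.2.2
    · intro H hH H' hH' he
      rw [Finset.mem_filter] at hH hH'
      exact Finset.Subset.antisymm
        (inj h hG H' H hH'.1 hH'.2.1 hH.1 hH.2.1 hH'.2.2 he.symm)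
        (inj h hG H H' hH.1 hH.2.1 hH'.1 hH'.2.1 hH.2.2 he)
    · intro Y hY
      obtain ⟨H, a, b, c, d⟩ := surj h hG Y hY
      exact ⟨H, Finset.mem_filter.2 ⟨a, b, c⟩, d⟩
  rw [← h1, h2]
  omega

end Pool.Agent.K7.H98.GGS4
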