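import Mathlib

/-!
Multicolour threshold-2 bootstrap dynamics (MP_3d955a_pr): definitions and the deterministic part.
-/

open Filter Topology

namespace Pool.Agent.K7.H98.MC

/-- The four nearest neighbours of a site of `ℤ × ℤ`. -/
def nbrs (x : ℤ × ℤ) : Finset (ℤ × ℤ) :=
  {(x.1 + 1, x.2), (x.1 - 1, x.2), (x.1, x.2 + 1), (x.1, x.2 - 1)}

/-- The number of nearest neighbours of `x` in state `j` in the configuration `ξ`. -/
def N (ξ : ℤ × ℤ → ℕ) (x : ℤ × ℤ) (j : ℕ) : ℕ := ((nbrs x).filter (fun y => ξ y = j)).card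

/-- One (parallel, deterministic) step of the dynamics with the states `0, …, κ`. -/
def step (κ : ℕ) (ξ : ℤ × ℤ → ℕ) : ℤ × ℤ → ℕ :=
  fun x => if ξ x < κ ∧ 2 ≤ N ξ x (ξ x + 1) then ξ x + 1 else ξ x

/-- The configuration at time `t` started from `ξ`. -/
def conf (κ : ℕ) (ξ : ℤ × ℤ → ℕ) (t : ℕ) : ℤ × ℤ → ℕ := (step κ)^[t] ξ

theorem conf_zero (κ : ℕ) (ξ : ℤ × ℤ → ℕ) : conf κ ξ 0 = ξ := rfl

theorem conf_succ (κ : ℕ) (ξ : ℤ × ℤ → ℕ) (t : ℕ) : conf κ ξ (t + 1) = step κ (conf κ ξ t) := by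
  unfold conf
  rw [Function.iterate_succ_apply']

theorem le_step (κ : ℕ) (ξ : ℤ × ℤ → ℕ) (x : ℤ × ℤ) : ξ x ≤ step κ ξ x := by
  unfold step
  split_ifs <;> omega

theorem le_conf (κ : ℕ) (ξ : ℤ × ℤ → ℕ) (t : ℕ) (x : ℤ × ℤ) : ξ x ≤ conf κ ξ t x := by
  induction t with
  | zero => exact le_rfl
  | succ t ih =>
    rw [conf_succ]
    exact ih.trans (le_step κ _ x)

/-- If three different neighbours satisfy `¬ (ξ y = j)` then `N ξ x j ≤ 1`. -/
theorem N_le_one (ξ : ℤ × ℤ → ℕ) (x : ℤ × ℤ) (j : ℕ) (T : Finset (ℤ × ℤ)) (hT : T ⊆ nbrs x)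
    (hc : 3 ≤ T.card) (h : ∀ y ∈ T, ξ y ≠ j) : N ξ x j ≤ 1 := by
  unfold N
  have h1 : (nbrs x).card ≤ 4 := by
    unfold nbrs
    exact Finset.card_le_four
  have h2 : ((nbrs x).filter (fun y => ξ y = j)) ⊆ nbrs x \ T := by
    intro y hy
    rw [Finset.mem_filter] at hy
    rw [Finset.mem_sdiff]
    exact ⟨hy.1, fun hyT => h y hyT hy.2⟩
  have h3 := Finset.card_le_card h2
  rw [Finset.card_sdiff_of_subset hT] at h3
  omega

/-- A site in state `0` with three neighbours in states at least `2` is frozen. -/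
theorem frozen (κ : ℕ) (ξ : ℤ × ℤ → ℕ) (x : ℤ × ℤ) (h0 : ξ x = 0) (T : Finset (ℤ × ℤ))
    (hT : T ⊆ nbrs x) (hc : 3 ≤ T.card) (h : ∀ y ∈ T, 2 ≤ ξ y) (t : ℕ) : conf κ ξ t x = 0 := by
  induction t with
  | zero => exact h0
  | succ t ih =>
    rw [conf_succ]
    unfold step
    have h1 : N (conf κ ξ t) x (conf κ ξ t x + 1) ≤ 1 := by
      apply N_le_one _ _ _ T hT hc
      intro y hy
      have h2 := h y hy
      have h3 := le_conf κ ξ t y
      rw [ih]
      omega
    rw [if_neg (by omega), ih]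

/-- A finite set `Q` in which every site, except for sites frozen in state `0`, has three neighbours
inside and which has no initial `κ`, never contains a `κ`. -/
theorem protected_set (κ : ℕ) (hκ : 0 < κ) (ξ : ℤ × ℤ → ℕ) (Q : Set (ℤ × ℤ))
    (h0 : ∀ x ∈ Q, ξ x ≠ κ)
    (hQ : ∀ x ∈ Q, (∀ t, conf κ ξ t x = 0) ∨ ∃ T ⊆ nbrs x, 3 ≤ T.card ∧ ∀ y ∈ T, y ∈ Q)
    (t : ℕ) : ∀ x ∈ Q, conf κ ξ t x ≠ κ := by
  induction t with
  | zero => exact h0
  | succ t ih =>
    intro x hx
    rcases hQ x hx with h | ⟨T, hT, hc, hTQ⟩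
    · rw [h]
      omega
    · rw [conf_succ]
      unfold step
      split_ifs with hh
      · intro he
        rw [he] at hh
        have h1 : N (conf κ ξ t) x κ ≤ 1 := by
          apply N_le_one _ _ _ T hT hc
          intro y hy
          exact ih y (hTQ y hy)
        omega
      · exact ih x hx

/-- The square `[-3k, 3k]²`. -/
noncomputable def box (k : ℕ) : Finset (ℤ × ℤ) :=
  Finset.Icc (-(3 * k : ℤ)) (3 * k) ×ˢ Finset.Icc (-(3 * k : ℤ)) (3 * k)

theorem mem_box {k : ℕ} {x : ℤ × ℤ} :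
    x ∈ box k ↔ (-(3 * k : ℤ) ≤ x.1 ∧ x.1 ≤ 3 * k) ∧ (-(3 * k : ℤ) ≤ x.2 ∧ x.2 ≤ 3 * k) := by
  unfold box
  rw [Finset.mem_product, Finset.mem_Icc, Finset.mem_Icc]

/-- The four corners of the square `[-3k, 3k]²`. -/
def corners (k : ℕ) : Finset (ℤ × ℤ) :=
  {((3 * k : ℤ), (3 * k : ℤ)), ((3 * k : ℤ), -(3 * k : ℤ)), (-(3 * k : ℤ), (3 * k : ℤ)),
    (-(3 * k : ℤ), -(3 * k : ℤ))}

/-- Three of the neighbours of a site. -/
def three (x : ℤ × ℤ) : Finset (ℤ × ℤ) := {(x.1 + 1, x.2), (x.1 - 1, x.2), (x.1, x.2 + 1)}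

/-- The sites neighbouring the corners used by the event. -/
def guards (k : ℕ) : Finset (ℤ × ℤ) := (corners k).biUnion three

theorem card_three (x : ℤ × ℤ) : (three x).card = 3 := by
  unfold three
  rw [Finset.card_eq_three]
  refine ⟨_, _, _, ?_, ?_, ?_, rfl⟩
  · intro h; rw [Prod.mk.injEq] at h; omega
  · intro h; rw [Prod.mk.injEq] at h; omega
  · intro h; rw [Prod.mk.injEq] at h; omega

theorem three_subset (x : ℤ × ℤ) : three x ⊆ nbrs x := by
  unfold three nbrs
  intro y hy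
  simp only [Finset.mem_insert, Finset.mem_singleton] at hy ⊢
  tauto

theorem card3 {a b c : ℤ × ℤ} (h1 : a ≠ b) (h2 : a ≠ c) (h3 : b ≠ c) :
    3 ≤ ({a, b, c} : Finset (ℤ × ℤ)).card := by
  rw [Finset.card_eq_three.2 ⟨a, b, c, h1, h2, h3, rfl⟩]

/-- A site of the square which is not a corner has three neighbours in the square. -/
theorem box_nbrs {k : ℕ} (hk : 1 ≤ k) {x : ℤ × ℤ} (hx : x ∈ box k) (hc : x ∉ corners k) :
    ∃ T ⊆ nbrs x, 3 ≤ T.card ∧ ∀ y ∈ T, y ∈ (box k : Set (ℤ × ℤ)) := by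
  rw [mem_box] at hx
  obtain ⟨a, b⟩ := x
  simp only at hx
  unfold corners at hc
  simp only [Finset.mem_insert, Finset.mem_singleton, Prod.mk.injEq, not_or, not_and] at hc
  have key : (a + 1 ≤ 3 * k ∧ -(3 * k : ℤ) ≤ a - 1) ∨ (b + 1 ≤ 3 * k ∧ -(3 * k : ℤ) ≤ b - 1) := by
    by_contra hcon
    rw [not_or, not_and_or, not_and_or] at hcon
    omega
  rcases key with h | h
  · by_cases hb : b + 1 ≤ 3 * k
    · refine ⟨{(a + 1, b), (a - 1, b), (a, b + 1)}, ?_, ?_, ?_⟩
      · unfold nbrs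
        intro y hy
        simp only [Finset.mem_insert, Finset.mem_singleton] at hy ⊢
        tauto
      · apply card3 <;> intro h <;> rw [Prod.mk.injEq] at h <;> omega
      · intro y hy
        simp only [Finset.mem_insert, Finset.mem_singleton] at hy
        rw [Finset.mem_coe, mem_box]
        rcases hy with rfl | rfl | rfl <;> simp only <;> omega
    · refine ⟨{(a + 1, b), (a - 1, b), (a, b - 1)}, ?_, ?_, ?_⟩
      · unfold nbrs
        intro y hy
        simp only [Finset.mem_insert, Finset.mem_singleton] at hy ⊢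
        tauto
      · apply card3 <;> intro h <;> rw [Prod.mk.injEq] at h <;> omega
      · intro y hy
        simp only [Finset.mem_insert, Finset.mem_singleton] at hy
        rw [Finset.mem_coe, mem_box]
        rcases hy with rfl | rfl | rfl <;> simp only <;> omega
  · by_cases ha : a + 1 ≤ 3 * k
    · refine ⟨{(a + 1, b), (a, b + 1), (a, b - 1)}, ?_, ?_, ?_⟩
      · unfold nbrs
        intro y hy
        simp only [Finset.mem_insert, Finset.mem_singleton] at hy ⊢
        tauto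
      · apply card3 <;> intro h <;> rw [Prod.mk.injEq] at h <;> omega
      · intro y hy
        simp only [Finset.mem_insert, Finset.mem_singleton] at hy
        rw [Finset.mem_coe, mem_box]
        rcases hy with rfl | rfl | rfl <;> simp only <;> omega
    · refine ⟨{(a - 1, b), (a, b + 1), (a, b - 1)}, ?_, ?_, ?_⟩
      · unfold nbrs
        intro y hy
        simp only [Finset.mem_insert, Finset.mem_singleton] at hy ⊢
        tauto
      · apply card3 <;> intro h <;> rw [Prod.mk.injEq] at h <;> omega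
      · intro y hy
        simp only [Finset.mem_insert, Finset.mem_singleton] at hy
        rw [Finset.mem_coe, mem_box]
        rcases hy with rfl | rfl | rfl <;> simp only <;> omega

/-- The deterministic statement. -/
theorem protected_box (κ : ℕ) (hκ : 0 < κ) (ξ : ℤ × ℤ → ℕ) (k : ℕ) (hk : 1 ≤ k)
    (h0 : ∀ x ∈ corners k, ξ x = 0) (h2 : ∀ x ∈ guards k, ξ x = 2) (hno : ∀ x ∈ box k, ξ x ≠ κ)
    (t : ℕ) : conf κ ξ t (0, 0) ≠ κ := by
  apply protected_set κ hκ ξ (box k : Set (ℤ × ℤ)) (fun x hx => hno x (Finset.mem_coe.1 hx))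
  · intro x hx
    by_cases hc : x ∈ corners k
    · left
      intro t
      apply frozen κ ξ x (h0 x hc) (three x) (three_subset x) (card_three x).ge
      intro y hy
      rw [h2 y]
      unfold guards
      rw [Finset.mem_biUnion]
      exact ⟨x, hc, hy⟩
    · right
      exact box_nbrs hk (Finset.mem_coe.1 hx) hc
  · rw [Finset.mem_coe, mem_box]
    simp

/-- The sites used by the event. -/
def sites (k : ℕ) : Finset (ℤ × ℤ) := corners k ∪ guards k

/-- The prescribed state is `0` at the corners and `2` at the guards. -/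
def isCorner (x : ℤ × ℤ) : Prop := (3 : ℤ) ∣ x.1 ∧ (3 : ℤ) ∣ x.2

instance (x : ℤ × ℤ) : Decidable (isCorner x) := by unfold isCorner; infer_instance

theorem isCorner_corners {k : ℕ} {x : ℤ × ℤ} (hx : x ∈ corners k) : isCorner x := by
  unfold corners at hx
  unfold isCorner
  simp only [Finset.mem_insert, Finset.mem_singleton] at hx
  rcases hx with rfl | rfl | rfl | rfl <;> simp only <;> omega

theorem mem_three {x y : ℤ × ℤ} : y ∈ three x ↔ y = (x.1 + 1, x.2) ∨ y = (x.1 - 1, x.2) ∨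
    y = (x.1, x.2 + 1) := by
  unfold three
  simp only [Finset.mem_insert, Finset.mem_singleton]

theorem not_isCorner_guards {k : ℕ} {x : ℤ × ℤ} (hx : x ∈ guards k) : ¬ isCorner x := by
  unfold guards at hx
  rw [Finset.mem_biUnion] at hx
  obtain ⟨c, hc, hx⟩ := hx
  have := isCorner_corners hc
  unfold isCorner at this ⊢
  rw [mem_three] at hx
  rcases hx with rfl | rfl | rfl <;> simp only <;> omega

theorem sites_snd {k : ℕ} {x : ℤ × ℤ} (hx : x ∈ sites k) :
    x.2 = 3 * k ∨ x.2 = 3 * k + 1 ∨ x.2 = -(3 * k : ℤ) ∨ x.2 = -(3 * k : ℤ) + 1 := by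
  have hcor : ∀ c ∈ corners k, c.2 = 3 * k ∨ c.2 = -(3 * k : ℤ) := by
    intro c hc
    unfold corners at hc
    simp only [Finset.mem_insert, Finset.mem_singleton] at hc
    rcases hc with rfl | rfl | rfl | rfl <;> simp
  unfold sites at hx
  rw [Finset.mem_union] at hx
  rcases hx with hx | hx
  · have := hcor x hx
    omega
  · unfold guards at hx
    rw [Finset.mem_biUnion] at hx
    obtain ⟨c, hc, hx⟩ := hx
    have := hcor c hc
    rw [mem_three] at hx
    rcases hx with rfl | rfl | rfl <;> simp only <;> omega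

theorem sites_disjoint {k l : ℕ} (hk : 1 ≤ k) (hl : 1 ≤ l) (hkl : k ≠ l) :
    Disjoint (sites k) (sites l) := by
  rw [Finset.disjoint_left]
  intro x h1 h2
  have := sites_snd h1
  have := sites_snd h2
  omega

theorem card_corners_le (k : ℕ) : (corners k).card ≤ 4 := Finset.card_le_four

theorem card_guards_le (k : ℕ) : (guards k).card ≤ 12 := by
  unfold guards
  refine Finset.card_biUnion_le.trans ?_
  simp only [card_three]
  rw [Finset.sum_const, smul_eq_mul]
  have := card_corners_le k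
  omega

theorem card_box (k : ℕ) : (box k).card = (6 * k + 1) ^ 2 := by
  unfold box
  rw [Finset.card_product, Int.card_Icc]
  have : (3 * (k : ℤ) + 1 - -(3 * k)).toNat = 6 * k + 1 := by omega
  rw [this, sq]

theorem box_mono {k l : ℕ} (h : k ≤ l) : box k ⊆ box l := by
  intro x hx
  rw [mem_box] at hx ⊢
  omega

end Pool.Agent.K7.H98.MC
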