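import Pool.Agent.K7.H98.MC1

/-!
Multicolour threshold-2 bootstrap dynamics (MP_3d955a_pr): the probabilistic part.
-/

open Filter Topology MeasureTheory ProbabilityTheory
open scoped ENNReal

namespace Pool.Agent.K7.H98.MC

variable {κ : ℕ}

/-- The law of the initial configuration: independent states with law `p`. -/
noncomputable def initialLaw (p : PMF (Fin (κ + 1))) : Measure (ℤ × ℤ → Fin (κ + 1)) :=
  Measure.infinitePi (fun _ => p.toMeasure)

instance (p : PMF (Fin (κ + 1))) : IsProbabilityMeasure (initialLaw p) := by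
  unfold initialLaw
  infer_instance

/-- The event that the origin is eventually in state `κ`. -/
def reach (κ : ℕ) : Set (ℤ × ℤ → Fin (κ + 1)) :=
  {ω | ∃ t : ℕ, conf κ (fun x => (ω x : ℕ)) t (0, 0) = κ}

theorem measurable_conf (κ : ℕ) (t : ℕ) (x : ℤ × ℤ) :
    Measurable (fun ω : ℤ × ℤ → Fin (κ + 1) => conf κ (fun x => (ω x : ℕ)) t x) := by
  induction t generalizing x with
  | zero =>
    simp only [conf_zero]
    exact (measurable_of_countable (fun i : Fin (κ + 1) => (i : ℕ))).comp (measurable_pi_apply x)
  | succ t ih =>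
    have hN : Measurable (fun ω : ℤ × ℤ → Fin (κ + 1) =>
        N (conf κ (fun x => (ω x : ℕ)) t) x (conf κ (fun x => (ω x : ℕ)) t x + 1)) := by
      unfold N
      simp only [Finset.card_filter]
      apply Finset.measurable_sum
      intro y _
      apply Measurable.ite _ measurable_const measurable_const
      exact measurableSet_eq_fun (ih y) ((ih x).add_const 1)
    simp only [conf_succ]
    unfold step
    apply Measurable.ite _ ((ih x).add_const 1) (ih x)
    exact (measurableSet_lt (ih x) measurable_const).inter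
      (measurableSet_le measurable_const hN)

theorem measurableSet_reach (κ : ℕ) : MeasurableSet (reach κ) := by
  unfold reach
  rw [Set.ofPred_exists]
  apply MeasurableSet.iUnion
  intro t
  exact measurableSet_eq_fun (measurable_conf κ t (0, 0)) measurable_const

/-- The prescribed states. -/
def target (z w : Fin (κ + 1)) (x : ℤ × ℤ) : Fin (κ + 1) := if isCorner x then z else w

/-- The event that the `16` sites of level `k` have the prescribed states. -/
def good (z w : Fin (κ + 1)) (k : ℕ) : Set (ℤ × ℤ → Fin (κ + 1)) :=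
  {ω | ∀ x ∈ sites k, ω x = target z w x}

theorem good_eq_pi (z w : Fin (κ + 1)) (k : ℕ) :
    good z w k = Set.pi (sites k : Set (ℤ × ℤ)) (fun x => {target z w x}) := by
  ext ω
  simp [good, Set.mem_pi]

theorem measurableSet_good (z w : Fin (κ + 1)) (k : ℕ) : MeasurableSet (good z w k) := by
  rw [good_eq_pi]
  exact MeasurableSet.pi (Set.to_countable _) (fun _ _ => measurableSet_singleton _)

theorem measure_pi (p : PMF (Fin (κ + 1))) (s : Finset (ℤ × ℤ)) (v : ℤ × ℤ → Fin (κ + 1)) :
    initialLaw p (Set.pi (s : Set (ℤ × ℤ)) (fun x => {v x})) = ∏ x ∈ s, p (v x) := by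
  unfold initialLaw
  rw [Measure.infinitePi_pi]
  · apply Finset.prod_congr rfl
    intro x _
    rw [PMF.toMeasure_apply_singleton _ _ (measurableSet_singleton _)]
  · intro i _
    exact measurableSet_singleton _

theorem measure_good (p : PMF (Fin (κ + 1))) (z w : Fin (κ + 1)) (k : ℕ) :
    initialLaw p (good z w k) = ∏ x ∈ sites k, p (target z w x) := by
  rw [good_eq_pi, measure_pi]

theorem iIndepSet_good (p : PMF (Fin (κ + 1))) (z w : Fin (κ + 1)) :
    iIndepSet (fun k : ℕ => good z w (k + 1)) (initialLaw p) := by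
  rw [iIndepSet_iff_meas_biInter (fun k => measurableSet_good z w (k + 1))]
  intro s
  have h1 : (⋂ k ∈ s, good z w (k + 1)) =
      Set.pi ((s.biUnion (fun k => sites (k + 1)) : Finset (ℤ × ℤ)) : Set (ℤ × ℤ))
        (fun x => {target z w x}) := by
    ext ω
    simp only [good, Set.mem_iInter, Set.mem_ofPred_eq, Set.mem_pi, Finset.coe_biUnion,
      Set.mem_iUnion, Finset.mem_coe, Set.mem_singleton_iff]
    constructor
    · rintro h x ⟨k, hk, hx⟩
      exact h k hk x hx
    · intro h k hk x hx
      exact h x ⟨k, hk, hx⟩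
  rw [h1, measure_pi, Finset.prod_biUnion]
  · apply Finset.prod_congr rfl
    intro k _
    rw [measure_good]
  · intro k _ l _ hkl
    exact sites_disjoint (by omega) (by omega) (by omega)

theorem prod_target_ge (p : PMF (Fin (κ + 1))) (z w : Fin (κ + 1)) (k : ℕ) :
    (p z) ^ 4 * (p w) ^ 12 ≤ ∏ x ∈ sites k, p (target z w x) := by
  have h1 : ∏ x ∈ sites k, p (target z w x)
      = (p z) ^ ((sites k).filter isCorner).card * (p w) ^ ((sites k).filter (fun x => ¬ isCorner x)).card := by
    unfold target
    simp only [apply_ite (p : Fin (κ + 1) → ℝ≥0∞)]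
    rw [Finset.prod_ite, Finset.prod_const, Finset.prod_const]
  have h2 : ((sites k).filter isCorner).card ≤ 4 := by
    refine (Finset.card_le_card ?_).trans (card_corners_le k)
    intro x hx
    rw [Finset.mem_filter] at hx
    unfold sites at hx
    rw [Finset.mem_union] at hx
    rcases hx.1 with h | h
    · exact h
    · exact absurd hx.2 (not_isCorner_guards h)
  have h3 : ((sites k).filter (fun x => ¬ isCorner x)).card ≤ 12 := by
    refine (Finset.card_le_card ?_).trans (card_guards_le k)
    intro x hx
    rw [Finset.mem_filter] at hx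
    unfold sites at hx
    rw [Finset.mem_union] at hx
    rcases hx.1 with h | h
    · exact absurd (isCorner_corners h) hx.2
    · exact h
  rw [h1]
  exact mul_le_mul' (pow_le_pow_right_of_le_one' (PMF.coe_le_one p z) h2)
    (pow_le_pow_right_of_le_one' (PMF.coe_le_one p w) h3)

/-- The probability that no level up to `K` is good. -/
theorem measure_no_good (p : PMF (Fin (κ + 1))) (z w : Fin (κ + 1)) (K : ℕ) :
    initialLaw p (⋂ k ∈ Finset.range K, (good z w (k + 1))ᶜ) ≤
      (1 - (p z) ^ 4 * (p w) ^ 12) ^ K := by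
  have h := (iIndepSet_iff_iIndep _ _).1 (iIndepSet_good p z w)
  have h1 : initialLaw p (⋂ k ∈ Finset.range K, (good z w (k + 1))ᶜ) =
      ∏ k ∈ Finset.range K, initialLaw p ((good z w (k + 1))ᶜ) := by
    apply iIndep.meas_biInter h
    intro k _
    exact (MeasurableSpace.measurableSet_generateFrom (Set.mem_singleton _)).compl
  rw [h1]
  calc ∏ k ∈ Finset.range K, initialLaw p ((good z w (k + 1))ᶜ)
      ≤ ∏ _k ∈ Finset.range K, (1 - (p z) ^ 4 * (p w) ^ 12) := by
        apply Finset.prod_le_prod'
        intro k _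
        rw [prob_compl_eq_one_sub (measurableSet_good z w (k + 1)), measure_good]
        exact tsub_le_tsub_left (prod_target_ge p z w (k + 1)) 1
    _ = (1 - (p z) ^ 4 * (p w) ^ 12) ^ K := by
        rw [Finset.prod_const, Finset.card_range]

theorem measure_site (p : PMF (Fin (κ + 1))) (x : ℤ × ℤ) (j : Fin (κ + 1)) :
    initialLaw p {ω | ω x = j} = p j := by
  have h := measure_pi p {x} (fun _ => j)
  rw [Finset.prod_singleton] at h
  rw [← h]
  congr 1
  ext ω
  simp [Set.mem_pi]

/-- **The main estimate.** -/
theorem measure_reach_le (hκ : 3 ≤ κ) (p : PMF (Fin (κ + 1))) (z w m : Fin (κ + 1))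
    (hz : (z : ℕ) = 0) (hw : (w : ℕ) = 2) (hm : (m : ℕ) = κ) (K : ℕ) :
    initialLaw p (reach κ) ≤
      (1 - (p z) ^ 4 * (p w) ^ 12) ^ K + ((6 * K + 1) ^ 2 : ℕ) * p m := by
  have hsub : reach κ ⊆ (⋂ k ∈ Finset.range K, (good z w (k + 1))ᶜ) ∪
      ⋃ x ∈ box K, {ω | ω x = m} := by
    intro ω hω
    by_contra hcon
    rw [Set.mem_union, not_or] at hcon
    obtain ⟨h1, h2⟩ := hcon
    simp only [Set.mem_iInter, Set.mem_compl_iff, not_forall, not_not, exists_prop] at h1
    simp only [Set.mem_iUnion, Set.mem_ofPred_eq, exists_prop, not_exists, not_and] at h2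
    obtain ⟨k, hk, hg⟩ := h1
    rw [Finset.mem_range] at hk
    obtain ⟨t, ht⟩ := hω
    refine protected_box κ (by omega) (fun x => (ω x : ℕ)) (k + 1) (by omega) ?_ ?_ ?_ t ht
    · intro x hx
      have := hg x (by unfold sites; exact Finset.mem_union_left _ hx)
      change ((ω x : Fin (κ + 1)) : ℕ) = 0
      rw [this, target, if_pos (isCorner_corners hx), hz]
    · intro x hx
      have := hg x (by unfold sites; exact Finset.mem_union_right _ hx)
      change ((ω x : Fin (κ + 1)) : ℕ) = 2
      rw [this, target, if_neg (not_isCorner_guards hx), hw]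
    · intro x hx he
      change ((ω x : Fin (κ + 1)) : ℕ) = κ at he
      apply h2 x (box_mono (by omega) hx)
      apply Fin.ext
      rw [he, hm]
  refine (measure_mono hsub).trans ((measure_union_le _ _).trans ?_)
  apply add_le_add (measure_no_good p z w K)
  refine (measure_biUnion_finset_le _ _).trans ?_
  simp only [measure_site]
  rw [Finset.sum_const, card_box, nsmul_eq_mul]

end Pool.Agent.K7.H98.MC
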