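import Pool.Agent.K7.H98.MC2

/-!
Multicolour threshold-2 bootstrap dynamics (MP_3d955a_pr): limits and explicit sequences.
-/

open Filter Topology MeasureTheory ProbabilityTheory
open scoped ENNReal

namespace Pool.Agent.K7.H98.MC

variable {κ : ℕ}

/-- The probability `p_i` of the state `i` (and `0` for `i > κ`). -/
noncomputable def wt (p : PMF (Fin (κ + 1))) (i : ℕ) : ℝ :=
  if h : i < κ + 1 then (p ⟨i, h⟩).toReal else 0

/-- The probability that the origin is eventually in state `κ`. -/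
noncomputable def prob (p : PMF (Fin (κ + 1))) : ℝ := (initialLaw p).real (reach κ)

theorem wt_nonneg (p : PMF (Fin (κ + 1))) (i : ℕ) : 0 ≤ wt p i := by
  unfold wt
  split_ifs
  · exact ENNReal.toReal_nonneg
  · exact le_rfl

theorem wt_le_one (p : PMF (Fin (κ + 1))) (i : ℕ) : wt p i ≤ 1 := by
  unfold wt
  split_ifs
  · exact ENNReal.toReal_le_of_le_ofReal zero_le_one (by simpa using PMF.coe_le_one p _)
  · exact zero_le_one

theorem ofReal_wt (p : PMF (Fin (κ + 1))) (i : ℕ) (h : i < κ + 1) :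
    p ⟨i, h⟩ = ENNReal.ofReal (wt p i) := by
  unfold wt
  rw [dif_pos h, ENNReal.ofReal_toReal (PMF.apply_ne_top p _)]

theorem prob_nonneg (p : PMF (Fin (κ + 1))) : 0 ≤ prob p := measureReal_nonneg

/-- The quantitative estimate for every `K`. -/
theorem prob_le (hκ : 3 ≤ κ) (p : PMF (Fin (κ + 1))) (K : ℕ) :
    prob p ≤ (1 - (wt p 0) ^ 4 * (wt p 2) ^ 12) ^ K + (6 * (K : ℝ) + 1) ^ 2 * wt p κ := by
  have h := measure_reach_le hκ p ⟨0, by omega⟩ ⟨2, by omega⟩ ⟨κ, by omega⟩ rfl rfl rfl K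
  rw [ofReal_wt, ofReal_wt, ofReal_wt] at h
  have h0 := wt_nonneg p 0
  have h2 := wt_nonneg p 2
  have hk := wt_nonneg p κ
  have hq : (wt p 0) ^ 4 * (wt p 2) ^ 12 ≤ 1 :=
    mul_le_one₀ (pow_le_one₀ h0 (wt_le_one p 0)) (by positivity) (pow_le_one₀ h2 (wt_le_one p 2))
  have he : (1 - ENNReal.ofReal (wt p 0) ^ 4 * ENNReal.ofReal (wt p 2) ^ 12) ^ K +
      ((6 * K + 1) ^ 2 : ℕ) * ENNReal.ofReal (wt p κ) = ENNReal.ofReal
      ((1 - (wt p 0) ^ 4 * (wt p 2) ^ 12) ^ K + (6 * (K : ℝ) + 1) ^ 2 * wt p κ) := by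
    rw [ENNReal.ofReal_add (pow_nonneg (by linarith) _) (by positivity),
      ENNReal.ofReal_pow (by linarith), ENNReal.ofReal_sub _ (by positivity), ENNReal.ofReal_one,
      ENNReal.ofReal_mul (by positivity), ENNReal.ofReal_pow h0, ENNReal.ofReal_pow h2,
      ENNReal.ofReal_mul (by positivity)]
    congr 2
    rw [← ENNReal.ofReal_natCast]
    push_cast
    rfl
  rw [he] at h
  unfold prob Measure.real
  exact ENNReal.toReal_le_of_le_ofReal
    (add_nonneg (pow_nonneg (by linarith) _) (by positivity)) h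

/-- The estimate after the choice of `K`. -/
theorem prob_le' (hκ : 3 ≤ κ) (p : PMF (Fin (κ + 1))) (h2 : 0 < wt p 2) :
    prob p ≤ Real.exp (-((wt p 0) ^ 4 / Real.sqrt (wt p 2))) +
      196 * (wt p κ / (wt p 2) ^ 25) := by
  set a := wt p 0 with ha
  set b := wt p 2 with hb
  set c := wt p κ with hc
  have ha0 : 0 ≤ a := wt_nonneg p 0
  have ha1 : a ≤ 1 := wt_le_one p 0
  have hb1 : b ≤ 1 := wt_le_one p 2
  have hc0 : 0 ≤ c := wt_nonneg p κ
  have hs : 0 < Real.sqrt b := Real.sqrt_pos.2 h2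
  have hs1 : Real.sqrt b ≤ 1 := Real.sqrt_le_one.2 hb1
  have hss : Real.sqrt b ^ 2 = b := Real.sq_sqrt h2.le
  set R : ℝ := 1 / (b ^ 12 * Real.sqrt b) with hR
  have hbb : 0 < b ^ 12 * Real.sqrt b := by positivity
  have hR1 : 1 ≤ R := by
    rw [hR, le_div_iff₀ hbb, one_mul]
    exact mul_le_one₀ (pow_le_one₀ h2.le hb1) hs.le hs1
  obtain ⟨K, hK1, hK2⟩ : ∃ K : ℕ, R ≤ K ∧ (K : ℝ) ≤ 2 * R := by
    refine ⟨⌈R⌉₊, Nat.le_ceil R, ?_⟩
    have := Nat.ceil_lt_add_one (by linarith : (0 : ℝ) ≤ R)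
    linarith
  refine (prob_le hκ p K).trans (add_le_add ?_ ?_)
  · have hq0 : 0 ≤ a ^ 4 * b ^ 12 := by positivity
    have hq1 : a ^ 4 * b ^ 12 ≤ 1 :=
      mul_le_one₀ (pow_le_one₀ ha0 ha1) (by positivity) (pow_le_one₀ h2.le hb1)
    have h1 : 1 - a ^ 4 * b ^ 12 ≤ Real.exp (-(a ^ 4 * b ^ 12)) := by
      have := Real.add_one_le_exp (-(a ^ 4 * b ^ 12))
      linarith
    calc (1 - a ^ 4 * b ^ 12) ^ K ≤ (Real.exp (-(a ^ 4 * b ^ 12))) ^ K :=
          pow_le_pow_left₀ (by linarith) h1 K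
      _ = Real.exp (-(K * (a ^ 4 * b ^ 12))) := by
          rw [← Real.exp_nat_mul]
          congr 1
          ring
      _ ≤ Real.exp (-(a ^ 4 / Real.sqrt b)) := by
          apply Real.exp_le_exp.2
          apply neg_le_neg
          calc a ^ 4 / Real.sqrt b = R * (a ^ 4 * b ^ 12) := by
                rw [hR]
                field_simp
            _ ≤ K * (a ^ 4 * b ^ 12) := mul_le_mul_of_nonneg_right hK1 hq0
  · have h3 : 6 * (K : ℝ) + 1 ≤ 14 * R := by linarith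
    calc (6 * (K : ℝ) + 1) ^ 2 * c ≤ (14 * R) ^ 2 * c :=
          mul_le_mul_of_nonneg_right (pow_le_pow_left₀ (by positivity) h3 2) hc0
      _ = 196 * (c / b ^ 25) := by
          rw [hR]
          have : (b ^ 12 * Real.sqrt b) ^ 2 = b ^ 25 := by
            rw [mul_pow, hss]
            ring
          rw [mul_pow, div_pow, this]
          ring

/-- **Convergence to zero.** -/
theorem tendsto_prob (hκ : 3 ≤ κ) (p : ℕ → PMF (Fin (κ + 1))) (c : ℝ) (hc : 0 < c)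
    (h0 : ∀ᶠ n in atTop, c ≤ wt (p n) 0) (hpos : ∀ᶠ n in atTop, 0 < wt (p n) 2)
    (h2 : Tendsto (fun n => wt (p n) 2) atTop (𝓝 0))
    (hk : Tendsto (fun n => wt (p n) κ / (wt (p n) 2) ^ 25) atTop (𝓝 0)) :
    Tendsto (fun n => prob (p n)) atTop (𝓝 0) := by
  have hs : Tendsto (fun n => Real.sqrt (wt (p n) 2)) atTop (𝓝[>] 0) := by
    rw [tendsto_nhdsWithin_iff]
    refine ⟨?_, ?_⟩
    · have := (Real.continuous_sqrt.tendsto 0).comp h2
      rw [Real.sqrt_zero] at this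
      exact this
    · filter_upwards [hpos] with n hn
      exact Real.sqrt_pos.2 hn
  have h1 : Tendsto (fun n => Real.exp (-(c ^ 4 * (Real.sqrt (wt (p n) 2))⁻¹))) atTop (𝓝 0) := by
    apply Real.tendsto_exp_neg_atTop_nhds_zero.comp
    apply Tendsto.const_mul_atTop (by positivity)
    exact tendsto_inv_nhdsGT_zero.comp hs
  have hlim : Tendsto (fun n => Real.exp (-(c ^ 4 * (Real.sqrt (wt (p n) 2))⁻¹)) +
      196 * (wt (p n) κ / (wt (p n) 2) ^ 25)) atTop (𝓝 0) := by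
    have := h1.add (hk.const_mul 196)
    rw [mul_zero, add_zero] at this
    exact this
  refine squeeze_zero' (Eventually.of_forall fun n => prob_nonneg _) ?_ hlim
  filter_upwards [h0, hpos] with n hn0 hn2
  refine (prob_le' hκ (p n) hn2).trans (add_le_add ?_ le_rfl)
  apply Real.exp_le_exp.2
  apply neg_le_neg
  rw [div_eq_mul_inv]
  apply mul_le_mul_of_nonneg_right (pow_le_pow_left₀ hc.le hn0 4)
  positivity

/-- Real weights of the explicit example. -/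
noncomputable def exw (κ G : ℕ) (ε : ℝ) : Fin (κ + 1) → ℝ :=
  Fin.cons (1 - ∑ i : Fin κ, ε ^ (G ^ (i : ℕ))) (fun i : Fin κ => ε ^ (G ^ (i : ℕ)))

theorem exw_sum (κ G : ℕ) (ε : ℝ) : ∑ i, exw κ G ε i = 1 := by
  unfold exw
  rw [Fin.sum_univ_succ]
  simp

theorem exw_sum_le (κ G : ℕ) (hG : 1 ≤ G) (ε : ℝ) (h0 : 0 < ε) (h1 : κ * ε ≤ 1 / 2) (h2 : ε ≤ 1) :
    ∑ i : Fin κ, ε ^ (G ^ (i : ℕ)) ≤ 1 / 2 := by
  refine le_trans ?_ h1
  calc ∑ i : Fin κ, ε ^ (G ^ (i : ℕ)) ≤ ∑ _i : Fin κ, ε := by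
        apply Finset.sum_le_sum
        intro i _
        exact pow_le_of_le_one h0.le h2 (Nat.pow_pos (by omega)).ne'
    _ = κ * ε := by simp

theorem exw_nonneg (κ G : ℕ) (hG : 1 ≤ G) (ε : ℝ) (h0 : 0 < ε) (h1 : κ * ε ≤ 1 / 2) (h2 : ε ≤ 1)
    (i : Fin (κ + 1)) : 0 ≤ exw κ G ε i := by
  have h := exw_sum_le κ G hG ε h0 h1 h2
  unfold exw
  refine Fin.cases ?_ (fun i => ?_) i
  · rw [Fin.cons_zero]
    linarith
  · rw [Fin.cons_succ]
    positivity

/-- The explicit example. -/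
noncomputable def expmf (κ G : ℕ) (hG : 1 ≤ G) (ε : ℝ) (h0 : 0 < ε) (h1 : κ * ε ≤ 1 / 2)
    (h2 : ε ≤ 1) : PMF (Fin (κ + 1)) :=
  PMF.ofFintype (fun i => ENNReal.ofReal (exw κ G ε i)) (by
    rw [← ENNReal.ofReal_sum_of_nonneg (fun i _ => exw_nonneg κ G hG ε h0 h1 h2 i), exw_sum,
      ENNReal.ofReal_one])

theorem wt_expmf_zero (κ G : ℕ) (hG : 1 ≤ G) (ε : ℝ) (h0 : 0 < ε) (h1 : κ * ε ≤ 1 / 2)
    (h2 : ε ≤ 1) : 1 / 2 ≤ wt (expmf κ G hG ε h0 h1 h2) 0 := by
  have h := exw_sum_le κ G hG ε h0 h1 h2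
  unfold wt expmf
  rw [dif_pos (by omega), PMF.ofFintype_apply,
    ENNReal.toReal_ofReal (exw_nonneg κ G hG ε h0 h1 h2 _)]
  change 1 / 2 ≤ exw κ G ε 0
  unfold exw
  rw [Fin.cons_zero]
  linarith

theorem wt_expmf_succ (κ G : ℕ) (hG : 1 ≤ G) (ε : ℝ) (h0 : 0 < ε) (h1 : κ * ε ≤ 1 / 2)
    (h2 : ε ≤ 1) (i : ℕ) (hi : i < κ) :
    wt (expmf κ G hG ε h0 h1 h2) (i + 1) = ε ^ (G ^ i) := by
  unfold wt expmf
  rw [dif_pos (by omega), PMF.ofFintype_apply,
    ENNReal.toReal_ofReal (exw_nonneg κ G hG ε h0 h1 h2 _)]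
  change exw κ G ε (Fin.succ ⟨i, hi⟩) = _
  unfold exw
  rw [Fin.cons_succ]

/-- For all exponents there is a sequence of parameters satisfying the smallness conditions of the
question, for which the probability tends to `0`. -/
theorem exists_seq (hκ : 3 ≤ κ) (γ : ℕ → ℝ) :
    ∃ p : ℕ → PMF (Fin (κ + 1)), (∀ n, ∀ i ≤ κ, 0 < wt (p n) i) ∧
      Tendsto (fun n => wt (p n) 1) atTop (𝓝 0) ∧
      (∀ i, 2 ≤ i → i ≤ κ → Tendsto (fun n => wt (p n) i / wt (p n) (i - 1) ^ γ i) atTop (𝓝 0)) ∧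
      Tendsto (fun n => prob (p n)) atTop (𝓝 0) := by
  obtain ⟨G, hG26, hGγ⟩ : ∃ G : ℕ, 26 ≤ G ∧ ∀ i ≤ κ, γ i + 1 ≤ G := by
    refine ⟨26 + ⌈∑ i ∈ Finset.range (κ + 1), |γ i|⌉₊, by omega, fun i hi => ?_⟩
    have h1 : |γ i| ≤ ∑ i ∈ Finset.range (κ + 1), |γ i| :=
      Finset.single_le_sum (f := fun i => |γ i|) (fun i _ => abs_nonneg (γ i))
        (Finset.mem_range.2 (by omega))
    have h2 := Nat.le_ceil (∑ i ∈ Finset.range (κ + 1), |γ i|)
    have h3 := le_abs_self (γ i)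
    push_cast
    linarith
  have hG1 : 1 ≤ G := by omega
  have hκ0 : (3 : ℝ) ≤ κ := by exact_mod_cast hκ
  set ε : ℕ → ℝ := fun n => 1 / (2 * κ * ((n : ℝ) + 1)) with hε
  have e0 : ∀ n, 0 < ε n := fun n => by rw [hε]; positivity
  have e1 : ∀ n, κ * ε n ≤ 1 / 2 := fun n => by
    rw [hε]
    simp only
    rw [mul_one_div, div_le_div_iff₀ (by positivity) (by norm_num)]
    nlinarith [Nat.cast_nonneg (α := ℝ) n]
  have e2 : ∀ n, ε n ≤ 1 := fun n => by
    have := e1 n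
    have := e0 n
    nlinarith
  have elim : Tendsto ε atTop (𝓝 0) := by
    have h1 : Tendsto (fun n : ℕ => 1 / ((n : ℝ) + 1)) atTop (𝓝 0) :=
      tendsto_one_div_add_atTop_nhds_zero_nat
    have h2 := h1.const_mul (1 / (2 * κ : ℝ))
    rw [mul_zero] at h2
    refine h2.congr fun n => ?_
    rw [hε]
    simp only
    rw [div_mul_div_comm, one_mul]
  refine ⟨fun n => expmf κ G hG1 (ε n) (e0 n) (e1 n) (e2 n), ?_, ?_, ?_, ?_⟩
  · intro n i hi
    rcases Nat.eq_zero_or_pos i with rfl | hi0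
    · have := wt_expmf_zero κ G hG1 (ε n) (e0 n) (e1 n) (e2 n)
      linarith
    · obtain ⟨j, rfl⟩ : ∃ j, i = j + 1 := ⟨i - 1, by omega⟩
      rw [wt_expmf_succ _ _ _ _ _ _ _ _ (by omega)]
      have := e0 n
      positivity
  · have : (fun n => wt (expmf κ G hG1 (ε n) (e0 n) (e1 n) (e2 n)) 1) = ε := by
      funext n
      have := wt_expmf_succ κ G hG1 (ε n) (e0 n) (e1 n) (e2 n) 0 (by omega)
      rw [zero_add] at this
      rw [this, pow_zero, pow_one]
    rw [this]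
    exact elim
  · intro i hi2 hi
    obtain ⟨j, rfl⟩ : ∃ j, i = j + 1 + 1 := ⟨i - 2, by omega⟩
    refine squeeze_zero (fun n => ?_) (fun n => ?_) elim
    · exact div_nonneg (wt_nonneg _ _) (Real.rpow_nonneg (wt_nonneg _ _) _)
    · rw [Nat.add_sub_cancel, wt_expmf_succ _ _ _ _ _ _ _ _ (by omega),
        wt_expmf_succ _ _ _ _ _ _ _ _ (by omega)]
      have h0 := e0 n
      have h1 := e2 n
      have hp : 0 < ε n ^ G ^ j := by positivity
      have hp1 : ε n ^ G ^ j ≤ 1 := pow_le_one₀ h0.le h1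
      have hpe : ε n ^ G ^ j ≤ ε n := pow_le_of_le_one h0.le h1 (Nat.pow_pos (by omega)).ne'
      have h3 : ε n ^ G ^ (j + 1) = (ε n ^ G ^ j) ^ (G : ℝ) := by
        rw [Real.rpow_natCast, ← pow_mul, pow_succ]
      rw [h3, ← Real.rpow_sub hp]
      have h4 : (ε n ^ G ^ j) ^ ((G : ℝ) - γ (j + 1 + 1)) ≤ (ε n ^ G ^ j) ^ (1 : ℝ) := by
        apply Real.rpow_le_rpow_of_exponent_ge hp hp1
        have := hGγ (j + 1 + 1) hi
        linarith
      rw [Real.rpow_one] at h4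
      exact h4.trans hpe
  · apply tendsto_prob hκ _ (1 / 2) (by norm_num)
    · exact Eventually.of_forall fun n => wt_expmf_zero κ G hG1 (ε n) (e0 n) (e1 n) (e2 n)
    · apply Eventually.of_forall
      intro n
      have := wt_expmf_succ κ G hG1 (ε n) (e0 n) (e1 n) (e2 n) 1 (by omega)
      rw [this]
      have := e0 n
      positivity
    · refine squeeze_zero (fun n => wt_nonneg _ _) (fun n => ?_) elim
      have := wt_expmf_succ κ G hG1 (ε n) (e0 n) (e1 n) (e2 n) 1 (by omega)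
      rw [this]
      exact pow_le_of_le_one (e0 n).le (e2 n) (Nat.pow_pos (by omega)).ne'
    · refine squeeze_zero (fun n => ?_) (fun n => ?_) elim
      · exact div_nonneg (wt_nonneg _ _) (pow_nonneg (wt_nonneg _ _) _)
      · have h2 := wt_expmf_succ κ G hG1 (ε n) (e0 n) (e1 n) (e2 n) 1 (by omega)
        have hk := wt_expmf_succ κ G hG1 (ε n) (e0 n) (e1 n) (e2 n) (κ - 1) (by omega)
        rw [Nat.sub_add_cancel (by omega)] at hk
        rw [h2, hk, pow_one, ← pow_mul]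
        have h0 := e0 n
        rw [div_le_iff₀ (by positivity), ← pow_succ']
        apply pow_le_pow_of_le_one h0.le (e2 n)
        calc G * 25 + 1 ≤ G * G := by nlinarith
          _ = G ^ 2 := by ring
          _ ≤ G ^ (κ - 1) := Nat.pow_le_pow_right (by omega) (by omega)

end Pool.Agent.K7.H98.MC
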