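import Mathlib

namespace Pool.Agent.K7.H98.MD

/-- permutation of two -/
theorem perm2 {a b a' b' : ℕ} (h : (a ::ₘ {b} : Multiset ℕ) = a' ::ₘ {b'}) :
    (a = a' ∧ b = b') ∨ (a = b' ∧ b = a') := by
  have ha : a ∈ (a' ::ₘ {b'} : Multiset ℕ) := by rw [← h]; simp
  rw [Multiset.mem_cons, Multiset.mem_singleton] at ha
  rcases ha with rfl | rfl
  · left
    exact ⟨rfl, Multiset.singleton_inj.1 ((Multiset.cons_inj_right a).1 h)⟩
  · right
    rw [show (a' ::ₘ {a} : Multiset ℕ) = a ::ₘ {a'} from Multiset.cons_swap a' a 0] at h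
    exact ⟨rfl, Multiset.singleton_inj.1 ((Multiset.cons_inj_right a).1 h)⟩

theorem perm3 {a b c a' b' c' : ℕ} (h : (a ::ₘ b ::ₘ {c} : Multiset ℕ) = a' ::ₘ b' ::ₘ {c'}) :
    (a = a' ∧ b = b' ∧ c = c') ∨ (a = a' ∧ b = c' ∧ c = b') ∨
    (a = b' ∧ b = a' ∧ c = c') ∨ (a = b' ∧ b = c' ∧ c = a') ∨
    (a = c' ∧ b = a' ∧ c = b') ∨ (a = c' ∧ b = b' ∧ c = a') := by
  have ha : a ∈ (a' ::ₘ b' ::ₘ {c'} : Multiset ℕ) := by rw [← h]; simp
  rw [Multiset.mem_cons, Multiset.mem_cons, Multiset.mem_singleton] at ha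
  rcases ha with rfl | rfl | rfl
  · have := perm2 ((Multiset.cons_inj_right a).1 h)
    omega
  · rw [Multiset.cons_swap a' a] at h
    have := perm2 ((Multiset.cons_inj_right a).1 h)
    omega
  · rw [show (a' ::ₘ b' ::ₘ {a} : Multiset ℕ) = a ::ₘ a' ::ₘ {b'} from by
      rw [show (b' ::ₘ {a} : Multiset ℕ) = a ::ₘ {b'} from Multiset.cons_swap b' a 0,
        Multiset.cons_swap a' a]] at h
    have := perm2 ((Multiset.cons_inj_right a).1 h)
    omega

theorem perm4 {a b c d a' b' c' d' : ℕ}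
    (h : (a ::ₘ b ::ₘ c ::ₘ {d} : Multiset ℕ) = a' ::ₘ b' ::ₘ c' ::ₘ {d'}) :
    (a = a' ∧ (b ::ₘ c ::ₘ {d} : Multiset ℕ) = b' ::ₘ c' ::ₘ {d'}) ∨
    (a = b' ∧ (b ::ₘ c ::ₘ {d} : Multiset ℕ) = a' ::ₘ c' ::ₘ {d'}) ∨
    (a = c' ∧ (b ::ₘ c ::ₘ {d} : Multiset ℕ) = a' ::ₘ b' ::ₘ {d'}) ∨
    (a = d' ∧ (b ::ₘ c ::ₘ {d} : Multiset ℕ) = a' ::ₘ b' ::ₘ {c'}) := by
  have ha : a ∈ (a' ::ₘ b' ::ₘ c' ::ₘ {d'} : Multiset ℕ) := by rw [← h]; simp
  rw [Multiset.mem_cons, Multiset.mem_cons, Multiset.mem_cons, Multiset.mem_singleton] at ha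
  rcases ha with rfl | rfl | rfl | rfl
  · left; exact ⟨rfl, (Multiset.cons_inj_right a).1 h⟩
  · right; left
    rw [Multiset.cons_swap a' a] at h
    exact ⟨rfl, (Multiset.cons_inj_right a).1 h⟩
  · right; right; left
    rw [Multiset.cons_swap b' a, Multiset.cons_swap a' a] at h
    exact ⟨rfl, (Multiset.cons_inj_right a).1 h⟩
  · right; right; right
    rw [show (c' ::ₘ {a} : Multiset ℕ) = a ::ₘ {c'} from Multiset.cons_swap c' a 0,
      Multiset.cons_swap b' a, Multiset.cons_swap a' a] at h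
    exact ⟨rfl, (Multiset.cons_inj_right a).1 h⟩

/-- the possible values of the four distances, odd pattern -/
def RegA (n i j : ℤ) (d1 d2 d3 d4 : ℤ) : Prop :=
  (j ≤ n - 1 ∧ j ≤ i ∧ i + j ≤ n ∧ d1 = i - 1 ∧ d4 = n - j ∧ d2 = n - 1 - j ∧ d3 = n - j) ∨
  (j ≤ n - 1 ∧ j ≤ i ∧ n < i + j ∧ d1 = i - 1 ∧ d4 = n - j ∧ d2 = i - 1 ∧ d3 = i - 1) ∨
  (j ≤ n - 1 ∧ i < j ∧ i + j ≤ n ∧ d1 = j - 1 ∧ d4 = n - i ∧ d2 = n - 1 - j ∧ d3 = n - j) ∨
  (j ≤ n - 1 ∧ i < j ∧ n < i + j ∧ d1 = j - 1 ∧ d4 = n - i ∧ d2 = i - 1 ∧ d3 = i - 1) ∨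
  (n ≤ j ∧ i - 1 ≤ j - n ∧ j - n ≤ n - i ∧ d1 = j - 1 ∧ d2 = j - n + 1 ∧ d3 = j - n ∧ d4 = n - i) ∨
  (n ≤ j ∧ i - 1 ≤ j - n ∧ n - i < j - n ∧ d1 = j - 1 ∧ d2 = j - n + 1 ∧ d3 = j - n ∧ d4 = j - n) ∨
  (n ≤ j ∧ j - n < i - 1 ∧ j - n ≤ n - i ∧ d1 = j - 1 ∧ d2 = i - 1 ∧ d3 = i - 1 ∧ d4 = n - i) ∨
  (n ≤ j ∧ j - n < i - 1 ∧ n - i < j - n ∧ d1 = j - 1 ∧ d2 = i - 1 ∧ d3 = i - 1 ∧ d4 = j - n)

theorem regA {n i j : ℤ} (hn : 5 ≤ n) (hi : 1 ≤ i) (hin : i ≤ n) (hj : 1 ≤ j)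
    (hjm : 2 * j + 3 ≤ 3 * n) :
    RegA n i j (max (i - 1).natAbs (j - 1).natAbs : ℕ) (max (i - 1).natAbs (j - (n - 1)).natAbs : ℕ)
      (max (i - 1).natAbs (j - n).natAbs : ℕ) (max (i - n).natAbs (j - n).natAbs : ℕ) := by
  unfold RegA
  rcases le_or_gt j (n - 1) with h1 | h1
  · rcases le_or_gt j i with h2 | h2
    · rcases le_or_gt (i + j) n with h3 | h3
      · left; refine ⟨by omega, by omega, by omega, by omega, by omega, by omega, by omega⟩
      · right; left; refine ⟨by omega, by omega, by omega, by omega, by omega, by omega, by omega⟩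
    · rcases le_or_gt (i + j) n with h3 | h3
      · right; right; left; refine ⟨by omega, by omega, by omega, by omega, by omega, by omega, by omega⟩
      · right; right; right; left; refine ⟨by omega, by omega, by omega, by omega, by omega, by omega, by omega⟩
  · rcases le_or_gt (i - 1) (j - n) with h3 | h3
    · rcases le_or_gt (j - n) (n - i) with h2 | h2
      · right; right; right; right; left; refine ⟨by omega, by omega, by omega, by omega, by omega, by omega, by omega⟩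
      · right; right; right; right; right; left; refine ⟨by omega, by omega, by omega, by omega, by omega, by omega, by omega⟩
    · rcases le_or_gt (j - n) (n - i) with h2 | h2
      · right; right; right; right; right; right; left; refine ⟨by omega, by omega, by omega, by omega, by omega, by omega, by omega⟩
      · right; right; right; right; right; right; right; refine ⟨by omega, by omega, by omega, by omega, by omega, by omega, by omega⟩

/-- the possible values of the four distances, even pattern -/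
def RegB (n i j : ℤ) (d1 d2 d3 d4 : ℤ) : Prop :=
  (i = 1 ∧ j ≤ n - 2 ∧ d1 = j - 1 ∧ d2 = n - 1 - j ∧ d3 = n - j ∧ d4 = n - 1) ∨
  (i = 1 ∧ j = n - 1 ∧ d1 = j - 1 ∧ d2 = 1 ∧ d3 = 1 ∧ d4 = n - 1) ∨
  (i = 1 ∧ j = n ∧ d1 = j - 1 ∧ d2 = 1 ∧ d3 = 1 ∧ d4 = n - 1) ∨
  (i = 1 ∧ n + 1 ≤ j ∧ d1 = j - 1 ∧ d2 = j - n + 1 ∧ d3 = j - n ∧ d4 = n - 1) ∨
  (2 ≤ i ∧ j ≤ n - 1 ∧ j ≤ i ∧ i + j ≤ n + 1 ∧ d1 = i - 1 ∧ d4 = n - j ∧ d2 = n - 1 - j ∧ d3 = n - j) ∨
  (2 ≤ i ∧ j ≤ n - 1 ∧ j ≤ i ∧ n + 1 < i + j ∧ d1 = i - 1 ∧ d4 = n - j ∧ d2 = i - 2 ∧ d3 = i - 2) ∨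
  (2 ≤ i ∧ j ≤ n - 1 ∧ i < j ∧ i + j ≤ n + 1 ∧ d1 = j - 1 ∧ d4 = n - i ∧ d2 = n - 1 - j ∧ d3 = n - j) ∨
  (2 ≤ i ∧ j ≤ n - 1 ∧ i < j ∧ n + 1 < i + j ∧ d1 = j - 1 ∧ d4 = n - i ∧ d2 = i - 2 ∧ d3 = i - 2) ∨
  (2 ≤ i ∧ n ≤ j ∧ i - 2 ≤ j - n ∧ j - n ≤ n - i ∧ d1 = j - 1 ∧ d2 = j - n + 1 ∧ d3 = j - n ∧ d4 = n - i) ∨
  (2 ≤ i ∧ n ≤ j ∧ i - 2 ≤ j - n ∧ n - i < j - n ∧ d1 = j - 1 ∧ d2 = j - n + 1 ∧ d3 = j - n ∧ d4 = j - n) ∨
  (2 ≤ i ∧ n ≤ j ∧ j - n < i - 2 ∧ j - n ≤ n - i ∧ d1 = j - 1 ∧ d2 = i - 2 ∧ d3 = i - 2 ∧ d4 = n - i) ∨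
  (2 ≤ i ∧ n ≤ j ∧ j - n < i - 2 ∧ n - i < j - n ∧ d1 = j - 1 ∧ d2 = i - 2 ∧ d3 = i - 2 ∧ d4 = j - n)

theorem regB {n i j : ℤ} (hn : 5 ≤ n) (hi : 1 ≤ i) (hin : i ≤ n) (hj : 1 ≤ j)
    (hjm : 2 * j + 3 ≤ 3 * n) :
    RegB n i j (max (i - 1).natAbs (j - 1).natAbs : ℕ) (max (i - 2).natAbs (j - (n - 1)).natAbs : ℕ)
      (max (i - 2).natAbs (j - n).natAbs : ℕ) (max (i - n).natAbs (j - n).natAbs : ℕ) := by
  unfold RegB
  rcases eq_or_lt_of_le hi with h0 | h0
  · rcases le_or_gt j (n - 2) with h1 | h1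
    · left; refine ⟨by omega, by omega, by omega, by omega, by omega, by omega⟩
    · rcases lt_trichotomy j n with h2 | h2 | h2
      · right; left; refine ⟨by omega, by omega, by omega, by omega, by omega, by omega⟩
      · right; right; left; refine ⟨by omega, by omega, by omega, by omega, by omega, by omega⟩
      · right; right; right; left; refine ⟨by omega, by omega, by omega, by omega, by omega, by omega⟩
  · rcases le_or_gt j (n - 1) with h1 | h1
    · rcases le_or_gt j i with h2 | h2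
      · rcases le_or_gt (i + j) (n + 1) with h3 | h3
        · right; right; right; right; left; refine ⟨by omega, by omega, by omega, by omega, by omega, by omega, by omega, by omega⟩
        · right; right; right; right; right; left; refine ⟨by omega, by omega, by omega, by omega, by omega, by omega, by omega, by omega⟩
      · rcases le_or_gt (i + j) (n + 1) with h3 | h3
        · right; right; right; right; right; right; left; refine ⟨by omega, by omega, by omega, by omega, by omega, by omega, by omega, by omega⟩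
        · right; right; right; right; right; right; right; left; refine ⟨by omega, by omega, by omega, by omega, by omega, by omega, by omega, by omega⟩
    · rcases le_or_gt (i - 2) (j - n) with h3 | h3
      · rcases le_or_gt (j - n) (n - i) with h2 | h2
        · right; right; right; right; right; right; right; right; left; refine ⟨by omega, by omega, by omega, by omega, by omega, by omega, by omega, by omega⟩
        · right; right; right; right; right; right; right; right; right; left; refine ⟨by omega, by omega, by omega, by omega, by omega, by omega, by omega, by omega⟩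
      · rcases le_or_gt (j - n) (n - i) with h2 | h2
        · right; right; right; right; right; right; right; right; right; right; left; refine ⟨by omega, by omega, by omega, by omega, by omega, by omega, by omega, by omega⟩
        · right; right; right; right; right; right; right; right; right; right; right; refine ⟨by omega, by omega, by omega, by omega, by omega, by omega, by omega, by omega⟩

end Pool.Agent.K7.H98.MD
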