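import Pool.Agent.K7.H98.MDA

namespace Pool.Agent.K7.H98.MD

theorem coreA {n i j i' j' : ℤ} {d1 d2 d3 d4 e1 e2 e3 e4 : ℕ} (hn : 5 ≤ n) (hodd : n % 2 = 1)
    (hi : 1 ≤ i) (hin : i ≤ n) (hj : 1 ≤ j) (hjm : 2 * j + 3 ≤ 3 * n)
    (hi' : 1 ≤ i') (hin' : i' ≤ n) (hj' : 1 ≤ j') (hjm' : 2 * j' + 3 ≤ 3 * n)
    (A : RegA n i j d1 d2 d3 d4) (A' : RegA n i' j' e1 e2 e3 e4)
    (h : (d1 ::ₘ d2 ::ₘ d3 ::ₘ {d4} : Multiset ℕ) = e1 ::ₘ e2 ::ₘ e3 ::ₘ {e4}) :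
    i = i' ∧ j = j' := by
  unfold RegA at A A'
  rcases perm4 h with ⟨p, q⟩ | ⟨p, q⟩ | ⟨p, q⟩ | ⟨p, q⟩ <;> clear h <;>
  rcases perm3 q with ⟨r, s, t⟩ | ⟨r, s, t⟩ | ⟨r, s, t⟩ | ⟨r, s, t⟩ | ⟨r, s, t⟩ | ⟨r, s, t⟩ <;>
  clear q <;>
  rcases A with A | A | A | A | A | A | A | A <;>
  rcases A' with A' | A' | A' | A' | A' | A' | A' | A' <;> omega

end Pool.Agent.K7.H98.MD
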