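import Pool.Agent.K7.H98.MDA

namespace Pool.Agent.K7.H98.MD

/-- Chebyshev distance -/
def D (x y a b : ℤ) : ℕ := max (x - a).natAbs (y - b).natAbs

theorem D_eq {x y a b : ℤ} (r : ℤ) (h : x - a ≤ r ∧ a - x ≤ r ∧ y - b ≤ r ∧ b - y ≤ r)
    (h' : x - a = r ∨ a - x = r ∨ y - b = r ∨ b - y = r) : (D x y a b : ℤ) = r := by
  unfold D
  omega

theorem Dq {x y a b x' y' a' b' : ℤ} (r : ℤ) (h : x - a ≤ r ∧ a - x ≤ r ∧ y - b ≤ r ∧ b - y ≤ r)
    (h' : x - a = r ∨ a - x = r ∨ y - b = r ∨ b - y = r)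
    (h2 : x' - a' ≤ r ∧ a' - x' ≤ r ∧ y' - b' ≤ r ∧ b' - y' ≤ r)
    (h2' : x' - a' = r ∨ a' - x' = r ∨ y' - b' = r ∨ b' - y' = r) : D x y a b = D x' y' a' b' := by
  have e1 := D_eq r h h'
  have e2 := D_eq r h2 h2'
  omega

def P3 (a b c a' b' c' : ℕ) : Prop :=
  (a = a' ∧ b = b' ∧ c = c') ∨ (a = a' ∧ b = c' ∧ c = b') ∨
  (a = b' ∧ b = a' ∧ c = c') ∨ (a = b' ∧ b = c' ∧ c = a') ∨
  (a = c' ∧ b = a' ∧ c = b') ∨ (a = c' ∧ b = b' ∧ c = a')

/-- two different points of the grid with the same three distances up to order -/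
def Coll (n m ax ay bx b2 cx cy : ℤ) : Prop :=
  ∃ x y x' y' : ℤ, (1 ≤ x ∧ x ≤ n ∧ 1 ≤ y ∧ y ≤ m) ∧ (1 ≤ x' ∧ x' ≤ n ∧ 1 ≤ y' ∧ y' ≤ m) ∧
    (x ≠ x' ∨ y ≠ y') ∧
    P3 (D x y ax ay) (D x y bx b2) (D x y cx cy) (D x' y' ax ay) (D x' y' bx b2) (D x' y' cx cy)

theorem Coll.swapBC {n m ax ay bx b2 cx cy : ℤ} (h : Coll n m ax ay cx cy bx b2) :
    Coll n m ax ay bx b2 cx cy := by
  obtain ⟨x, y, x', y', h1, h2, h3, h4⟩ := h
  refine ⟨x, y, x', y', h1, h2, h3, ?_⟩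
  unfold P3 at h4 ⊢
  generalize D x y ax ay = d1 at *
  generalize D x y bx b2 = d2 at *
  generalize D x y cx cy = d3 at *
  generalize D x' y' ax ay = e1 at *
  generalize D x' y' bx b2 = e2 at *
  generalize D x' y' cx cy = e3 at *
  clear h1 h2 h3
  tauto

theorem Coll.swapAB {n m ax ay bx b2 cx cy : ℤ} (h : Coll n m bx b2 ax ay cx cy) :
    Coll n m ax ay bx b2 cx cy := by
  obtain ⟨x, y, x', y', h1, h2, h3, h4⟩ := h
  refine ⟨x, y, x', y', h1, h2, h3, ?_⟩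
  unfold P3 at h4 ⊢
  generalize D x y ax ay = d1 at *
  generalize D x y bx b2 = d2 at *
  generalize D x y cx cy = d3 at *
  generalize D x' y' ax ay = e1 at *
  generalize D x' y' bx b2 = e2 at *
  generalize D x' y' cx cy = e3 at *
  clear h1 h2 h3
  tauto

theorem Coll.reflX {n m ax ay bx b2 cx cy : ℤ}
    (h : Coll n m (n + 1 - ax) ay (n + 1 - bx) b2 (n + 1 - cx) cy) :
    Coll n m ax ay bx b2 cx cy := by
  obtain ⟨x, y, x', y', h1, h2, h3, h4⟩ := h
  refine ⟨n + 1 - x, y, n + 1 - x', y', by omega, by omega, by omega, ?_⟩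
  have e : ∀ x y a b : ℤ, D (n + 1 - x) y a b = D x y (n + 1 - a) b := by
    intro x y a b
    unfold D
    have : (n + 1 - x - a).natAbs = (x - (n + 1 - a)).natAbs := by omega
    rw [this]
  rw [e, e, e, e, e, e]
  exact h4

theorem Coll.transp {n m ax ay bx b2 cx cy : ℤ}
    (h : Coll m n ay ax b2 bx cy cx) : Coll n m ax ay bx b2 cx cy := by
  obtain ⟨x, y, x', y', h1, h2, h3, h4⟩ := h
  refine ⟨y, x, y', x', by omega, by omega, by omega, ?_⟩
  have e : ∀ x y a b : ℤ, D y x b a = D x y a b := by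
    intro x y a b
    unfold D
    rw [max_comm]
  rw [e x y ay ax, e x y b2 bx, e x y cy cx, e x' y' ay ax, e x' y' b2 bx, e x' y' cy cx]
  exact h4

theorem ivPos {n m wx wy px py qx qy k : ℤ} (hk : 1 ≤ k)
    (w1 : 1 ≤ wx) (w2 : wx ≤ n) (w3 : 1 ≤ wy) (w4 : wy ≤ m) (p1 : 1 ≤ px) (p2 : px ≤ n) (p3 : 1 ≤ py)
    (p4 : py ≤ m) (q1 : 1 ≤ qx) (q2 : qx ≤ n) (q3 : 1 ≤ qy) (q4 : qy ≤ m)
    (hx : wx < px) (e1 : qx = px + (2 * k - 1)) (e2 : qy = py + (2 * k))
    (c1 : py - wy ≤ px - wx) (c2 : wy - py ≤ px - wx) (c3 : qy - wy ≤ qx - wx) (c4 : wy - qy ≤ qx - wx) :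
    Coll n m wx wy px py qx qy := by
  by_cases hX : px = wx + 1
  · exact ⟨wx, wy, px, py, by omega, by omega, by omega, Or.inr (Or.inr (Or.inl ⟨Dq (0) (by omega) (by omega) (by omega) (by omega), Dq (1) (by omega) (by omega) (by omega) (by omega), Dq (2 * k) (by omega) (by omega) (by omega) (by omega)⟩))⟩
  by_cases h2 : wy - py = px - wx
  · rcases Int.even_or_odd (px - wx) with ⟨t, ht⟩ | ⟨t, ht⟩
    · exact ⟨wx + (t + k - 1), py + (t + k), wx + (t + k), py + (t + k), by omega, by omega, by omega, Or.inr (Or.inr (Or.inr (Or.inr (Or.inr (⟨Dq (t + k - 1) (by omega) (by omega) (by omega) (by omega), Dq (t + k) (by omega) (by omega) (by omega) (by omega), Dq (t + k) (by omega) (by omega) (by omega) (by omega)⟩)))))⟩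
    · exact ⟨wx + (t + k - 1), py + (t + k), wx + (t + k + 1), py + (t + k), by omega, by omega, by omega, Or.inr (Or.inr (Or.inr (Or.inr (Or.inr (⟨Dq (t + k - 1) (by omega) (by omega) (by omega) (by omega), Dq (t + k) (by omega) (by omega) (by omega) (by omega), Dq (t + k + 1) (by omega) (by omega) (by omega) (by omega)⟩)))))⟩
  by_cases h3 : wy - py = -(px - wx - 1)
  · exact ⟨px + (k - 1), py + (k + 1), px + k, py + (k - 1), by omega, by omega, by omega, Or.inr (Or.inl ⟨Dq (px - wx + k) (by omega) (by omega) (by omega) (by omega), Dq (k + 1) (by omega) (by omega) (by omega) (by omega), Dq (k) (by omega) (by omega) (by omega) (by omega)⟩)⟩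
  · exact ⟨px - 1, py, px - 1, py + (1), by omega, by omega, by omega, Or.inl ⟨Dq (px - wx - 1) (by omega) (by omega) (by omega) (by omega), Dq (1) (by omega) (by omega) (by omega) (by omega), Dq (2 * k) (by omega) (by omega) (by omega) (by omega)⟩⟩

theorem ivNeg {n m wx wy px py qx qy k : ℤ} (hk : 1 ≤ k)
    (w1 : 1 ≤ wx) (w2 : wx ≤ n) (w3 : 1 ≤ wy) (w4 : wy ≤ m) (p1 : 1 ≤ px) (p2 : px ≤ n) (p3 : 1 ≤ py)
    (p4 : py ≤ m) (q1 : 1 ≤ qx) (q2 : qx ≤ n) (q3 : 1 ≤ qy) (q4 : qy ≤ m)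
    (hx : wx < px) (e1 : qx = px + (2 * k - 1)) (e2 : qy = py - (2 * k))
    (c1 : py - wy ≤ px - wx) (c2 : wy - py ≤ px - wx) (c3 : qy - wy ≤ qx - wx) (c4 : wy - qy ≤ qx - wx) :
    Coll n m wx wy px py qx qy := by
  by_cases hX : px = wx + 1
  · exact ⟨wx, wy, px, py, by omega, by omega, by omega, Or.inr (Or.inr (Or.inl ⟨Dq (0) (by omega) (by omega) (by omega) (by omega), Dq (1) (by omega) (by omega) (by omega) (by omega), Dq (2 * k) (by omega) (by omega) (by omega) (by omega)⟩))⟩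
  by_cases h2 : py - wy = px - wx
  · rcases Int.even_or_odd (px - wx) with ⟨t, ht⟩ | ⟨t, ht⟩
    · exact ⟨wx + (t + k - 1), py - (t + k), wx + (t + k), py - (t + k), by omega, by omega, by omega, Or.inr (Or.inr (Or.inr (Or.inr (Or.inr (⟨Dq (t + k - 1) (by omega) (by omega) (by omega) (by omega), Dq (t + k) (by omega) (by omega) (by omega) (by omega), Dq (t + k) (by omega) (by omega) (by omega) (by omega)⟩)))))⟩
    · exact ⟨wx + (t + k - 1), py - (t + k), wx + (t + k + 1), py - (t + k), by omega, by omega, by omega, Or.inr (Or.inr (Or.inr (Or.inr (Or.inr (⟨Dq (t + k - 1) (by omega) (by omega) (by omega) (by omega), Dq (t + k) (by omega) (by omega) (by omega) (by omega), Dq (t + k + 1) (by omega) (by omega) (by omega) (by omega)⟩)))))⟩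
  by_cases h3 : py - wy = -(px - wx - 1)
  · exact ⟨px + (k - 1), py - (k + 1), px + k, py - (k - 1), by omega, by omega, by omega, Or.inr (Or.inl ⟨Dq (px - wx + k) (by omega) (by omega) (by omega) (by omega), Dq (k + 1) (by omega) (by omega) (by omega) (by omega), Dq (k) (by omega) (by omega) (by omega) (by omega)⟩)⟩
  · exact ⟨px - 1, py, px - 1, py - (1), by omega, by omega, by omega, Or.inl ⟨Dq (px - wx - 1) (by omega) (by omega) (by omega) (by omega), Dq (1) (by omega) (by omega) (by omega) (by omega), Dq (2 * k) (by omega) (by omega) (by omega) (by omega)⟩⟩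

theorem configB {n m wx wy px py qx qy : ℤ}
    (w1 : 1 ≤ wx) (w2 : wx ≤ n) (w3 : 1 ≤ wy) (w4 : wy ≤ m) (p1 : 1 ≤ px) (p2 : px ≤ n) (p3 : 1 ≤ py)
    (p4 : py ≤ m) (q1 : 1 ≤ qx) (q2 : qx ≤ n) (q3 : 1 ≤ qy) (q4 : qy ≤ m)
    (hx : wx < px) (hx' : wx < qx)
    (c1 : py - wy ≤ px - wx) (c2 : wy - py ≤ px - wx) (c3 : qy - wy ≤ qx - wx) (c4 : wy - qy ≤ qx - wx)
    (v1 : qx - px < qy - py) (v2 : px - qx < qy - py) :
    Coll n m wx wy px py qx qy := by
  rcases Int.even_or_odd (qy - py) with ⟨k, hk⟩ | ⟨k, hk⟩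
  · rcases Int.even_or_odd (px + qx) with ⟨x, hx2⟩ | ⟨x, hx2⟩
    · exact ⟨x, py + (k - 1), x, py + (k + 1), by omega, by omega, by omega, Or.inr (Or.inl ⟨Dq (x - wx) (by omega) (by omega) (by omega) (by omega), Dq (k - 1) (by omega) (by omega) (by omega) (by omega), Dq (k + 1) (by omega) (by omega) (by omega) (by omega)⟩)⟩
    · by_cases f1 : qx = px + (2 * k - 1)
      · exact ivPos (k := k) (by omega) w1 w2 w3 w4 p1 p2 p3 p4 q1 q2 q3 q4 hx f1 (by omega) c1 c2 c3 c4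
      by_cases f2 : px = qx + (2 * k - 1)
      · apply Coll.swapBC
        exact ivNeg (k := k) (by omega) w1 w2 w3 w4 q1 q2 q3 q4 p1 p2 p3 p4 hx' f2 (by omega) c3 c4 c1 c2
      exact ⟨x + 1, py + (k - 1), x + 1, py + (k + 1), by omega, by omega, by omega, Or.inr (Or.inl ⟨Dq (x + 1 - wx) (by omega) (by omega) (by omega) (by omega), Dq (k - 1) (by omega) (by omega) (by omega) (by omega), Dq (k + 1) (by omega) (by omega) (by omega) (by omega)⟩)⟩
  · rcases Int.even_or_odd (px + qx) with ⟨x, hx2⟩ | ⟨x, hx2⟩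
    · exact ⟨x, py + k, x, py + (k + 1), by omega, by omega, by omega, Or.inr (Or.inl ⟨Dq (x - wx) (by omega) (by omega) (by omega) (by omega), Dq (k) (by omega) (by omega) (by omega) (by omega), Dq (k + 1) (by omega) (by omega) (by omega) (by omega)⟩)⟩
    · exact ⟨x + 1, py + k, x + 1, py + (k + 1), by omega, by omega, by omega, Or.inr (Or.inl ⟨Dq (x + 1 - wx) (by omega) (by omega) (by omega) (by omega), Dq (k) (by omega) (by omega) (by omega) (by omega), Dq (k + 1) (by omega) (by omega) (by omega) (by omega)⟩)⟩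

end Pool.Agent.K7.H98.MD
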