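import Pool.Agent.K7.H98.MDD

namespace Pool.Agent.K7.H98.MD

theorem aPos {n m wx wy px py qx qy : ℤ}
    (w1 : 1 ≤ wx) (w2 : wx ≤ n) (w3 : 1 ≤ wy) (w4 : wy ≤ m) (p1 : 1 ≤ px) (p2 : px ≤ n) (p3 : 1 ≤ py)
    (p4 : py ≤ m) (q1 : 1 ≤ qx) (q2 : qx ≤ n) (q3 : 1 ≤ qy) (q4 : qy ≤ m)
    (hx : px < wx) (hx2 : wx - px < qx - wx) (c1 : wy - py ≤ wx - px) (c2 : py - wy ≤ wx - px)
    (e : qy = wy + (qx - wx)) : Coll n m wx wy px py qx qy := by
  by_cases h1 : wy = py + (wx - px)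
  · exact ⟨px, py + (1), px + 1, py, by omega, by omega, by omega, Or.inl ⟨Dq (wx - px) (by omega) (by omega) (by omega) (by omega), Dq (1) (by omega) (by omega) (by omega) (by omega), Dq (qx - px) (by omega) (by omega) (by omega) (by omega)⟩⟩
  by_cases h2 : py = wy + (wx - px)
  · rcases Int.even_or_odd (qx - px) with ⟨k, hk⟩ | ⟨k, hk⟩
    · exact ⟨px + (k - 1), wy + (k + 1 - (wx - px)), px + (k + 1), wy + (k + 1 - (wx - px)), by omega, by omega, by omega, Or.inr (Or.inl ⟨Dq (k + 1 - (wx - px)) (by omega) (by omega) (by omega) (by omega), Dq (k - 1) (by omega) (by omega) (by omega) (by omega), Dq (k + 1) (by omega) (by omega) (by omega) (by omega)⟩)⟩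
    · exact ⟨px + k, wy + (k + 1 - (wx - px)), px + (k + 1), wy + (k + 1 - (wx - px)), by omega, by omega, by omega, Or.inr (Or.inl ⟨Dq (k + 1 - (wx - px)) (by omega) (by omega) (by omega) (by omega), Dq (k) (by omega) (by omega) (by omega) (by omega), Dq (k + 1) (by omega) (by omega) (by omega) (by omega)⟩)⟩
  by_cases h3 : wx = px + 1
  · have h4 : wy = py := by omega
    rcases Int.even_or_odd (qx - wx) with ⟨k, hk⟩ | ⟨k, hk⟩
    · exact ⟨px + k, py + (k), px + (k + 1), py + (k), by omega, by omega, by omega, Or.inr (Or.inl ⟨Dq (k) (by omega) (by omega) (by omega) (by omega), Dq (k) (by omega) (by omega) (by omega) (by omega), Dq (k + 1) (by omega) (by omega) (by omega) (by omega)⟩)⟩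
    · exact ⟨px + (k + 1), py + (k + 1 - 2), px + (k + 2), py + (k + 1), by omega, by omega, by omega, Or.inr (Or.inr (Or.inr (Or.inr (Or.inl ⟨Dq (k) (by omega) (by omega) (by omega) (by omega), Dq (k + 1) (by omega) (by omega) (by omega) (by omega), Dq (k + 2) (by omega) (by omega) (by omega) (by omega)⟩))))⟩
  rcases lt_trichotomy py wy with h5 | h5 | h5
  · exact ⟨wx - 1, wy, wx - 1, wy - 1, by omega, by omega, by omega, Or.inl ⟨Dq (1) (by omega) (by omega) (by omega) (by omega), Dq (wx - px - 1) (by omega) (by omega) (by omega) (by omega), Dq (qx - wx + 1) (by omega) (by omega) (by omega) (by omega)⟩⟩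
  · exact ⟨wx - 1, wy, wx - 1, wy + (1), by omega, by omega, by omega, Or.inl ⟨Dq (1) (by omega) (by omega) (by omega) (by omega), Dq (wx - px - 1) (by omega) (by omega) (by omega) (by omega), Dq (qx - wx + 1) (by omega) (by omega) (by omega) (by omega)⟩⟩
  · exact ⟨wx - 1, wy, wx - 1, wy + 1, by omega, by omega, by omega, Or.inl ⟨Dq (1) (by omega) (by omega) (by omega) (by omega), Dq (wx - px - 1) (by omega) (by omega) (by omega) (by omega), Dq (qx - wx + 1) (by omega) (by omega) (by omega) (by omega)⟩⟩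

theorem aNeg {n m wx wy px py qx qy : ℤ}
    (w1 : 1 ≤ wx) (w2 : wx ≤ n) (w3 : 1 ≤ wy) (w4 : wy ≤ m) (p1 : 1 ≤ px) (p2 : px ≤ n) (p3 : 1 ≤ py)
    (p4 : py ≤ m) (q1 : 1 ≤ qx) (q2 : qx ≤ n) (q3 : 1 ≤ qy) (q4 : qy ≤ m)
    (hx : px < wx) (hx2 : wx - px < qx - wx) (c1 : wy - py ≤ wx - px) (c2 : py - wy ≤ wx - px)
    (e : qy = wy - (qx - wx)) : Coll n m wx wy px py qx qy := by
  by_cases h1 : wy = py - (wx - px)
  · exact ⟨px, py - (1), px + 1, py, by omega, by omega, by omega, Or.inl ⟨Dq (wx - px) (by omega) (by omega) (by omega) (by omega), Dq (1) (by omega) (by omega) (by omega) (by omega), Dq (qx - px) (by omega) (by omega) (by omega) (by omega)⟩⟩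
  by_cases h2 : py = wy - (wx - px)
  · rcases Int.even_or_odd (qx - px) with ⟨k, hk⟩ | ⟨k, hk⟩
    · exact ⟨px + (k - 1), wy - (k + 1 - (wx - px)), px + (k + 1), wy - (k + 1 - (wx - px)), by omega, by omega, by omega, Or.inr (Or.inl ⟨Dq (k + 1 - (wx - px)) (by omega) (by omega) (by omega) (by omega), Dq (k - 1) (by omega) (by omega) (by omega) (by omega), Dq (k + 1) (by omega) (by omega) (by omega) (by omega)⟩)⟩
    · exact ⟨px + k, wy - (k + 1 - (wx - px)), px + (k + 1), wy - (k + 1 - (wx - px)), by omega, by omega, by omega, Or.inr (Or.inl ⟨Dq (k + 1 - (wx - px)) (by omega) (by omega) (by omega) (by omega), Dq (k) (by omega) (by omega) (by omega) (by omega), Dq (k + 1) (by omega) (by omega) (by omega) (by omega)⟩)⟩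
  by_cases h3 : wx = px + 1
  · have h4 : wy = py := by omega
    rcases Int.even_or_odd (qx - wx) with ⟨k, hk⟩ | ⟨k, hk⟩
    · exact ⟨px + k, py - (k), px + (k + 1), py - (k), by omega, by omega, by omega, Or.inr (Or.inl ⟨Dq (k) (by omega) (by omega) (by omega) (by omega), Dq (k) (by omega) (by omega) (by omega) (by omega), Dq (k + 1) (by omega) (by omega) (by omega) (by omega)⟩)⟩
    · exact ⟨px + (k + 1), py - (k + 1 - 2), px + (k + 2), py - (k + 1), by omega, by omega, by omega, Or.inr (Or.inr (Or.inr (Or.inr (Or.inl ⟨Dq (k) (by omega) (by omega) (by omega) (by omega), Dq (k + 1) (by omega) (by omega) (by omega) (by omega), Dq (k + 2) (by omega) (by omega) (by omega) (by omega)⟩))))⟩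
  rcases lt_trichotomy py wy with h5 | h5 | h5
  · exact ⟨wx - 1, wy, wx - 1, wy - 1, by omega, by omega, by omega, Or.inl ⟨Dq (1) (by omega) (by omega) (by omega) (by omega), Dq (wx - px - 1) (by omega) (by omega) (by omega) (by omega), Dq (qx - wx + 1) (by omega) (by omega) (by omega) (by omega)⟩⟩
  · exact ⟨wx - 1, wy, wx - 1, wy - (1), by omega, by omega, by omega, Or.inl ⟨Dq (1) (by omega) (by omega) (by omega) (by omega), Dq (wx - px - 1) (by omega) (by omega) (by omega) (by omega), Dq (qx - wx + 1) (by omega) (by omega) (by omega) (by omega)⟩⟩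
  · exact ⟨wx - 1, wy, wx - 1, wy + 1, by omega, by omega, by omega, Or.inl ⟨Dq (1) (by omega) (by omega) (by omega) (by omega), Dq (wx - px - 1) (by omega) (by omega) (by omega) (by omega), Dq (qx - wx + 1) (by omega) (by omega) (by omega) (by omega)⟩⟩

theorem configALt {n m wx wy px py qx qy : ℤ} (hm : 2 ≤ m)
    (w1 : 1 ≤ wx) (w2 : wx ≤ n) (w3 : 1 ≤ wy) (w4 : wy ≤ m) (p1 : 1 ≤ px) (p2 : px ≤ n) (p3 : 1 ≤ py)
    (p4 : py ≤ m) (q1 : 1 ≤ qx) (q2 : qx ≤ n) (q3 : 1 ≤ qy) (q4 : qy ≤ m)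
    (hx : px < wx) (hx2 : wx - px < qx - wx) (c1 : wy - py ≤ wx - px) (c2 : py - wy ≤ wx - px)
    (c3 : qy - wy ≤ qx - wx) (c4 : wy - qy ≤ qx - wx) : Coll n m wx wy px py qx qy := by
  by_cases e1 : qy = wy + (qx - wx)
  · exact aPos w1 w2 w3 w4 p1 p2 p3 p4 q1 q2 q3 q4 hx hx2 c1 c2 e1
  by_cases e2 : qy = wy - (qx - wx)
  · exact aNeg w1 w2 w3 w4 p1 p2 p3 p4 q1 q2 q3 q4 hx hx2 c1 c2 e2
  rcases lt_trichotomy qy wy with h5 | h5 | h5
  · exact ⟨wx + 1, wy, wx + 1, wy - 1, by omega, by omega, by omega, Or.inl ⟨Dq (1) (by omega) (by omega) (by omega) (by omega), Dq (wx - px + 1) (by omega) (by omega) (by omega) (by omega), Dq (qx - wx - 1) (by omega) (by omega) (by omega) (by omega)⟩⟩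
  · by_cases h6 : wy + 1 ≤ m
    · exact ⟨wx + 1, wy, wx + 1, wy + 1, by omega, by omega, by omega, Or.inl ⟨Dq (1) (by omega) (by omega) (by omega) (by omega), Dq (wx - px + 1) (by omega) (by omega) (by omega) (by omega), Dq (qx - wx - 1) (by omega) (by omega) (by omega) (by omega)⟩⟩
    · exact ⟨wx + 1, wy, wx + 1, wy - 1, by omega, by omega, by omega, Or.inl ⟨Dq (1) (by omega) (by omega) (by omega) (by omega), Dq (wx - px + 1) (by omega) (by omega) (by omega) (by omega), Dq (qx - wx - 1) (by omega) (by omega) (by omega) (by omega)⟩⟩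
  · exact ⟨wx + 1, wy, wx + 1, wy + 1, by omega, by omega, by omega, Or.inl ⟨Dq (1) (by omega) (by omega) (by omega) (by omega), Dq (wx - px + 1) (by omega) (by omega) (by omega) (by omega), Dq (qx - wx - 1) (by omega) (by omega) (by omega) (by omega)⟩⟩

theorem configA {n m wx wy px py qx qy : ℤ} (hm : 2 ≤ m)
    (w1 : 1 ≤ wx) (w2 : wx ≤ n) (w3 : 1 ≤ wy) (w4 : wy ≤ m) (p1 : 1 ≤ px) (p2 : px ≤ n) (p3 : 1 ≤ py)
    (p4 : py ≤ m) (q1 : 1 ≤ qx) (q2 : qx ≤ n) (q3 : 1 ≤ qy) (q4 : qy ≤ m)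
    (hx : px < wx) (hx2 : wx < qx) (c1 : wy - py ≤ wx - px) (c2 : py - wy ≤ wx - px)
    (c3 : qy - wy ≤ qx - wx) (c4 : wy - qy ≤ qx - wx) : Coll n m wx wy px py qx qy := by
  rcases lt_trichotomy (wx - px) (qx - wx) with h | h | h
  · exact configALt hm w1 w2 w3 w4 p1 p2 p3 p4 q1 q2 q3 q4 hx h c1 c2 c3 c4
  · exact ⟨px, py, qx, qy, by omega, by omega, by omega, Or.inr (Or.inl ⟨Dq (wx - px) (by omega) (by omega) (by omega) (by omega), Dq (0) (by omega) (by omega) (by omega) (by omega), Dq (qx - px) (by omega) (by omega) (by omega) (by omega)⟩)⟩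
  · apply Coll.reflX
    apply Coll.swapBC
    exact configALt hm (by omega) (by omega) w3 w4 (by omega) (by omega) q3 q4 (by omega) (by omega)
      p3 p4 (by omega) (by omega) (by omega) (by omega) (by omega) (by omega)

theorem collRight {n m wx wy px py qx qy : ℤ} (hm : 2 ≤ m)
    (w1 : 1 ≤ wx) (w2 : wx ≤ n) (w3 : 1 ≤ wy) (w4 : wy ≤ m) (p1 : 1 ≤ px) (p2 : px ≤ n) (p3 : 1 ≤ py)
    (p4 : py ≤ m) (q1 : 1 ≤ qx) (q2 : qx ≤ n) (q3 : 1 ≤ qy) (q4 : qy ≤ m)
    (hx : wx < px) (hx' : wx < qx) (hne : px ≠ qx ∨ py ≠ qy)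
    (c1 : py - wy ≤ px - wx) (c2 : wy - py ≤ px - wx) (c3 : qy - wy ≤ qx - wx) (c4 : wy - qy ≤ qx - wx) :
    Coll n m wx wy px py qx qy := by
  by_cases v1 : qx - px < qy - py ∧ px - qx < qy - py
  · exact configB w1 w2 w3 w4 p1 p2 p3 p4 q1 q2 q3 q4 hx hx' c1 c2 c3 c4 v1.1 v1.2
  by_cases v2 : px - qx < py - qy ∧ qx - px < py - qy
  · apply Coll.swapBC
    exact configB w1 w2 w3 w4 q1 q2 q3 q4 p1 p2 p3 p4 hx' hx c3 c4 c1 c2 v2.1 v2.2
  rcases lt_trichotomy px qx with h | h | h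
  · apply Coll.swapAB
    exact configA hm p1 p2 p3 p4 w1 w2 w3 w4 q1 q2 q3 q4 hx h (by omega) (by omega) (by omega) (by omega)
  · exfalso; omega
  · apply Coll.swapBC
    apply Coll.swapAB
    exact configA hm q1 q2 q3 q4 w1 w2 w3 w4 p1 p2 p3 p4 hx' h (by omega) (by omega) (by omega) (by omega)

theorem collH {n m wx wy px py qx qy : ℤ} (hm : 2 ≤ m)
    (w1 : 1 ≤ wx) (w2 : wx ≤ n) (w3 : 1 ≤ wy) (w4 : wy ≤ m) (p1 : 1 ≤ px) (p2 : px ≤ n) (p3 : 1 ≤ py)
    (p4 : py ≤ m) (q1 : 1 ≤ qx) (q2 : qx ≤ n) (q3 : 1 ≤ qy) (q4 : qy ≤ m)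
    (hwp : px ≠ wx ∨ py ≠ wy) (hwq : qx ≠ wx ∨ qy ≠ wy) (hne : px ≠ qx ∨ py ≠ qy)
    (c1 : (py - wy).natAbs ≤ (px - wx).natAbs) (c2 : (qy - wy).natAbs ≤ (qx - wx).natAbs) :
    Coll n m wx wy px py qx qy := by
  rcases lt_trichotomy px wx with h | h | h
  · rcases lt_trichotomy qx wx with h' | h' | h'
    · apply Coll.reflX
      exact collRight hm (by omega) (by omega) w3 w4 (by omega) (by omega) p3 p4 (by omega) (by omega)
        q3 q4 (by omega) (by omega) (by omega) (by omega) (by omega) (by omega) (by omega)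
    · exfalso; omega
    · exact configA hm w1 w2 w3 w4 p1 p2 p3 p4 q1 q2 q3 q4 h h' (by omega) (by omega) (by omega) (by omega)
  · exfalso; omega
  · rcases lt_trichotomy qx wx with h' | h' | h'
    · apply Coll.swapBC
      exact configA hm w1 w2 w3 w4 q1 q2 q3 q4 p1 p2 p3 p4 h' h (by omega) (by omega) (by omega) (by omega)
    · exfalso; omega
    · exact collRight hm w1 w2 w3 w4 p1 p2 p3 p4 q1 q2 q3 q4 h h' hne (by omega) (by omega) (by omega)
        (by omega)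

/-- any three points of a grid leave two points with the same three distances up to order -/
theorem coll3 {n m wx wy px py qx qy : ℤ} (hn : 2 ≤ n) (hm : 2 ≤ m)
    (w1 : 1 ≤ wx) (w2 : wx ≤ n) (w3 : 1 ≤ wy) (w4 : wy ≤ m) (p1 : 1 ≤ px) (p2 : px ≤ n) (p3 : 1 ≤ py)
    (p4 : py ≤ m) (q1 : 1 ≤ qx) (q2 : qx ≤ n) (q3 : 1 ≤ qy) (q4 : qy ≤ m)
    (hwp : px ≠ wx ∨ py ≠ wy) (hwq : qx ≠ wx ∨ qy ≠ wy) (hne : px ≠ qx ∨ py ≠ qy) :
    Coll n m wx wy px py qx qy := by
  by_cases a1 : (py - wy).natAbs ≤ (px - wx).natAbs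
  · by_cases a2 : (qy - wy).natAbs ≤ (qx - wx).natAbs
    · exact collH hm w1 w2 w3 w4 p1 p2 p3 p4 q1 q2 q3 q4 hwp hwq hne a1 a2
    · by_cases a3 : (qy - py).natAbs ≤ (qx - px).natAbs
      · apply Coll.swapAB
        exact collH hm p1 p2 p3 p4 w1 w2 w3 w4 q1 q2 q3 q4 (by omega) (by omega) (by omega) (by omega) a3
      · apply Coll.transp
        apply Coll.swapBC
        apply Coll.swapAB
        exact collH hn q3 q4 q1 q2 w3 w4 w1 w2 p3 p4 p1 p2 (by omega) (by omega) (by omega) (by omega)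
          (by omega)
  · by_cases a2 : (qy - wy).natAbs ≤ (qx - wx).natAbs
    · by_cases a3 : (qy - py).natAbs ≤ (qx - px).natAbs
      · apply Coll.swapBC
        apply Coll.swapAB
        exact collH hm q1 q2 q3 q4 w1 w2 w3 w4 p1 p2 p3 p4 (by omega) (by omega) (by omega) (by omega)
          (by omega)
      · apply Coll.transp
        apply Coll.swapAB
        exact collH hn p3 p4 p1 p2 w3 w4 w1 w2 q3 q4 q1 q2 (by omega) (by omega) (by omega) (by omega)
          (by omega)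
    · apply Coll.transp
      exact collH hn w3 w4 w1 w2 p3 p4 p1 p2 q3 q4 q1 q2 (by omega) (by omega) (by omega) (by omega)
        (by omega)

end Pool.Agent.K7.H98.MD
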