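import Pool.Agent.K7.H98.MDB
import Pool.Agent.K7.H98.MDC

namespace Pool.Agent.K7.H98.MD

/-- The distance of the strong product of two paths, whose vertices are pairs of coordinates. -/
noncomputable def gridDist (u v : ℤ × ℤ) : ℕ := max (u.1 - v.1).natAbs (u.2 - v.2).natAbs

/-- The vertices of the strong product of `P_n` and `P_m`. -/
noncomputable def grid (n m : ℕ) : Finset (ℤ × ℤ) := Finset.Icc (1 : ℤ) n ×ˢ Finset.Icc (1 : ℤ) m

/-- The multiset of distances from `v` to the elements of `W`. -/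
noncomputable def rep (W : Finset (ℤ × ℤ)) (v : ℤ × ℤ) : Multiset ℕ := W.val.map (gridDist v)

/-- `W` is a multiset resolving set of the strong product of `P_n` and `P_m`. -/
def Resolving (n m : ℕ) (W : Finset (ℤ × ℤ)) : Prop :=
  W ⊆ grid n m ∧ ∀ u ∈ grid n m, ∀ v ∈ grid n m, rep W u = rep W v → u = v

/-- The multiset dimension of the strong product of `P_n` and `P_m`, infinite if there is no
multiset resolving set. -/
noncomputable def mdim (n m : ℕ) : ℕ∞ :=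
  ⨅ W : {W : Finset (ℤ × ℤ) // Resolving n m W}, (W.1.card : ℕ∞)

theorem mem_grid {n m : ℕ} {v : ℤ × ℤ} :
    v ∈ grid n m ↔ (1 ≤ v.1 ∧ v.1 ≤ n) ∧ (1 ≤ v.2 ∧ v.2 ≤ m) := by
  unfold grid
  rw [Finset.mem_product, Finset.mem_Icc, Finset.mem_Icc]

theorem rep_four {a b c d : ℤ × ℤ} (hab : a ∉ ({b, c, d} : Finset (ℤ × ℤ)))
    (hbc : b ∉ ({c, d} : Finset (ℤ × ℤ))) (hcd : c ∉ ({d} : Finset (ℤ × ℤ))) (v : ℤ × ℤ) :
    rep {a, b, c, d} v =
      gridDist v a ::ₘ gridDist v b ::ₘ gridDist v c ::ₘ {gridDist v d} := by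
  unfold rep
  rw [Finset.insert_val_of_notMem hab, Finset.insert_val_of_notMem hbc,
    Finset.insert_val_of_notMem hcd, Finset.singleton_val, Multiset.map_cons, Multiset.map_cons,
    Multiset.map_cons, Multiset.map_singleton]

theorem rep_three {a b c : ℤ × ℤ} (hab : a ∉ ({b, c} : Finset (ℤ × ℤ)))
    (hbc : b ∉ ({c} : Finset (ℤ × ℤ))) (v : ℤ × ℤ) :
    rep {a, b, c} v = gridDist v a ::ₘ gridDist v b ::ₘ {gridDist v c} := by
  unfold rep
  rw [Finset.insert_val_of_notMem hab, Finset.insert_val_of_notMem hbc, Finset.singleton_val,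
    Multiset.map_cons, Multiset.map_cons, Multiset.map_singleton]

theorem rep_two {a b : ℤ × ℤ} (hab : a ∉ ({b} : Finset (ℤ × ℤ))) (v : ℤ × ℤ) :
    rep {a, b} v = gridDist v a ::ₘ {gridDist v b} := by
  unfold rep
  rw [Finset.insert_val_of_notMem hab, Finset.singleton_val, Multiset.map_cons,
    Multiset.map_singleton]

theorem resolvingOdd {n m : ℕ} (hn : 5 ≤ n) (hnm : n ≤ m) (hm : 2 * m + 3 ≤ 3 * n)
    (hodd : n % 2 = 1) :
    Resolving n m {(1, 1), (1, (n : ℤ) - 1), (1, (n : ℤ)), ((n : ℤ), (n : ℤ))} := by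
  constructor
  · intro v hv
    simp only [Finset.mem_insert, Finset.mem_singleton] at hv
    rcases hv with rfl | rfl | rfl | rfl <;> rw [mem_grid] <;>
      refine ⟨⟨?_, ?_⟩, ⟨?_, ?_⟩⟩ <;> simp only <;> omega
  · rintro ⟨i, j⟩ hu ⟨i', j'⟩ hv hr
    rw [mem_grid] at hu hv
    simp only at hu hv
    have k1 : ((1 : ℤ), (1 : ℤ)) ∉ ({(1, (n : ℤ) - 1), (1, (n : ℤ)), ((n : ℤ), (n : ℤ))} :
        Finset (ℤ × ℤ)) := by
      simp only [Finset.mem_insert, Finset.mem_singleton, Prod.mk.injEq, not_or]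
      refine ⟨?_, ?_, ?_⟩ <;> omega
    have k2 : ((1 : ℤ), (n : ℤ) - 1) ∉ ({(1, (n : ℤ)), ((n : ℤ), (n : ℤ))} :
        Finset (ℤ × ℤ)) := by
      simp only [Finset.mem_insert, Finset.mem_singleton, Prod.mk.injEq, not_or]
      refine ⟨?_, ?_⟩ <;> omega
    have k3 : ((1 : ℤ), (n : ℤ)) ∉ ({((n : ℤ), (n : ℤ))} : Finset (ℤ × ℤ)) := by
      simp only [Finset.mem_singleton, Prod.mk.injEq]
      omega
    rw [rep_four k1 k2 k3, rep_four k1 k2 k3] at hr
    have A := regA (n := n) (i := i) (j := j) (by omega) hu.1.1 hu.1.2 hu.2.1 (by omega)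
    have A' := regA (n := n) (i := i') (j := j') (by omega) hv.1.1 hv.1.2 hv.2.1 (by omega)
    have := coreA (n := n) (by omega) (by omega) hu.1.1 hu.1.2 hu.2.1 (by omega) hv.1.1 hv.1.2
      hv.2.1 (by omega) A A' hr
    rw [Prod.mk.injEq]
    exact this

theorem resolvingEven {n m : ℕ} (hn : 5 ≤ n) (hnm : n ≤ m) (hm : 2 * m + 3 ≤ 3 * n)
    (heven : n % 2 = 0) :
    Resolving n m {(1, 1), (2, (n : ℤ) - 1), (2, (n : ℤ)), ((n : ℤ), (n : ℤ))} := by
  constructor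
  · intro v hv
    simp only [Finset.mem_insert, Finset.mem_singleton] at hv
    rcases hv with rfl | rfl | rfl | rfl <;> rw [mem_grid] <;>
      refine ⟨⟨?_, ?_⟩, ⟨?_, ?_⟩⟩ <;> simp only <;> omega
  · rintro ⟨i, j⟩ hu ⟨i', j'⟩ hv hr
    rw [mem_grid] at hu hv
    simp only at hu hv
    have k1 : ((1 : ℤ), (1 : ℤ)) ∉ ({(2, (n : ℤ) - 1), (2, (n : ℤ)), ((n : ℤ), (n : ℤ))} :
        Finset (ℤ × ℤ)) := by
      simp only [Finset.mem_insert, Finset.mem_singleton, Prod.mk.injEq, not_or]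
      refine ⟨?_, ?_, ?_⟩ <;> omega
    have k2 : ((2 : ℤ), (n : ℤ) - 1) ∉ ({(2, (n : ℤ)), ((n : ℤ), (n : ℤ))} :
        Finset (ℤ × ℤ)) := by
      simp only [Finset.mem_insert, Finset.mem_singleton, Prod.mk.injEq, not_or]
      refine ⟨?_, ?_⟩ <;> omega
    have k3 : ((2 : ℤ), (n : ℤ)) ∉ ({((n : ℤ), (n : ℤ))} : Finset (ℤ × ℤ)) := by
      simp only [Finset.mem_singleton, Prod.mk.injEq]
      omega
    rw [rep_four k1 k2 k3, rep_four k1 k2 k3] at hr
    have A := regB (n := n) (i := i) (j := j) (by omega) hu.1.1 hu.1.2 hu.2.1 (by omega)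
    have A' := regB (n := n) (i := i') (j := j') (by omega) hv.1.1 hv.1.2 hv.2.1 (by omega)
    have := coreB (n := n) (by omega) (by omega) hu.1.1 hu.1.2 hu.2.1 (by omega) hv.1.1 hv.1.2
      hv.2.1 (by omega) A A' hr
    rw [Prod.mk.injEq]
    exact this

theorem mdim_le_four {n m : ℕ} (hn : 5 ≤ n) (hnm : n ≤ m) (hm : 2 * m + 3 ≤ 3 * n) :
    mdim n m ≤ 4 := by
  unfold mdim
  rcases Nat.mod_two_eq_zero_or_one n with h | h
  · refine le_trans (iInf_le _ ⟨_, resolvingEven hn hnm hm h⟩) ?_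
    exact_mod_cast Finset.card_le_four
  · refine le_trans (iInf_le _ ⟨_, resolvingOdd hn hnm hm h⟩) ?_
    exact_mod_cast Finset.card_le_four

end Pool.Agent.K7.H98.MD
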