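import Pool.Agent.K7.H98.MDE
import Pool.Agent.K7.H98.MDF

namespace Pool.Agent.K7.H98.MD

theorem p3_multiset {a b c a' b' c' : ℕ} (h : P3 a b c a' b' c') :
    (a ::ₘ b ::ₘ {c} : Multiset ℕ) = a' ::ₘ b' ::ₘ {c'} := by
  unfold P3 at h
  rcases h with ⟨rfl, rfl, rfl⟩ | ⟨rfl, rfl, rfl⟩ | ⟨rfl, rfl, rfl⟩ | ⟨rfl, rfl, rfl⟩ |
    ⟨rfl, rfl, rfl⟩ | ⟨rfl, rfl, rfl⟩ <;> simp only [← Multiset.singleton_add] <;> abel

theorem four_le_card {n m : ℕ} (hn : 2 ≤ n) (hm : 2 ≤ m) {W : Finset (ℤ × ℤ)}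
    (h : Resolving n m W) : 4 ≤ W.card := by
  by_contra hc
  obtain ⟨hW, hinj⟩ := h
  have hlt : W.card = 0 ∨ W.card = 1 ∨ W.card = 2 ∨ W.card = 3 := by omega
  rcases hlt with h0 | h1 | h2 | h3
  · rw [Finset.card_eq_zero] at h0
    subst h0
    have := hinj (1, 1) (mem_grid.2 (by constructor <;> constructor <;> push_cast <;> omega))
      (1, 2) (mem_grid.2 (by constructor <;> constructor <;> push_cast <;> omega)) rfl
    simp at this
  · rw [Finset.card_eq_one] at h1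
    obtain ⟨⟨a, b⟩, rfl⟩ := h1
    have ha := mem_grid.1 (hW (Finset.mem_singleton_self _))
    simp only at ha
    obtain ⟨x, hx1, hx2, hx3⟩ : ∃ x : ℤ, 1 ≤ x ∧ x ≤ n ∧ (x - a).natAbs = 1 := by
      by_cases h : a + 1 ≤ n
      · exact ⟨a + 1, by omega, by omega, by omega⟩
      · exact ⟨a - 1, by omega, by omega, by omega⟩
    obtain ⟨y, hy1, hy2, hy3⟩ : ∃ y : ℤ, 1 ≤ y ∧ y ≤ m ∧ (y - b).natAbs = 1 := by
      by_cases h : b + 1 ≤ m
      · exact ⟨b + 1, by omega, by omega, by omega⟩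
      · exact ⟨b - 1, by omega, by omega, by omega⟩
    have := hinj (x, b) (mem_grid.2 ⟨⟨hx1, hx2⟩, ha.2⟩) (x, y) (mem_grid.2 ⟨⟨hx1, hx2⟩, ⟨hy1, hy2⟩⟩)
      (by
        unfold rep gridDist
        rw [Finset.singleton_val, Multiset.map_singleton, Multiset.map_singleton]
        simp only
        rw [hx3, hy3]
        simp)
    have h2 : b = y := congrArg Prod.snd this
    omega
  · rw [Finset.card_eq_two] at h2
    obtain ⟨a, b, hab, rfl⟩ := h2
    have hab' : a ∉ ({b} : Finset (ℤ × ℤ)) := by simpa using hab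
    apply hab
    apply hinj a (hW (by simp)) b (hW (by simp))
    rw [rep_two hab', rep_two hab']
    have e1 : gridDist a a = 0 := by unfold gridDist; simp
    have e2 : gridDist b b = 0 := by unfold gridDist; simp
    have e3 : gridDist b a = gridDist a b := by unfold gridDist; omega
    rw [e1, e2, e3]
    simp only [← Multiset.singleton_add]
    abel
  · rw [Finset.card_eq_three] at h3
    obtain ⟨a, b, c, hab, hac, hbc, rfl⟩ := h3
    have hab' : a ∉ ({b, c} : Finset (ℤ × ℤ)) := by simp [hab, hac]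
    have hbc' : b ∉ ({c} : Finset (ℤ × ℤ)) := by simpa using hbc
    obtain ⟨a1, a2⟩ := a
    obtain ⟨b1, b2⟩ := b
    obtain ⟨c1, c2⟩ := c
    have ga := mem_grid.1 (hW (show (a1, a2) ∈ _ by simp))
    have gb := mem_grid.1 (hW (show (b1, b2) ∈ _ by simp))
    have gc := mem_grid.1 (hW (show (c1, c2) ∈ _ by simp))
    simp only at ga gb gc
    have nab : b1 ≠ a1 ∨ b2 ≠ a2 := by
      by_contra hh
      push Not at hh
      exact hab (by rw [hh.1, hh.2])
    have nac : c1 ≠ a1 ∨ c2 ≠ a2 := by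
      by_contra hh
      push Not at hh
      exact hac (by rw [hh.1, hh.2])
    have nbc : b1 ≠ c1 ∨ b2 ≠ c2 := by
      by_contra hh
      push Not at hh
      exact hbc (by rw [hh.1, hh.2])
    obtain ⟨x, y, x', y', g1, g2, hne, hp⟩ := coll3 (n := n) (m := m) (by omega) (by omega)
      ga.1.1 ga.1.2 ga.2.1 ga.2.2 gb.1.1 gb.1.2 gb.2.1 gb.2.2 gc.1.1 gc.1.2 gc.2.1 gc.2.2
      nab nac nbc
    have := hinj (x, y) (mem_grid.2 ⟨⟨g1.1, g1.2.1⟩, g1.2.2⟩) (x', y')
      (mem_grid.2 ⟨⟨g2.1, g2.2.1⟩, g2.2.2⟩) (by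
        rw [rep_three hab' hbc', rep_three hab' hbc']
        exact p3_multiset hp)
    rw [Prod.mk.injEq] at this
    rcases hne with h | h
    · exact h this.1
    · exact h this.2

theorem four_le_mdim {n m : ℕ} (hn : 2 ≤ n) (hm : 2 ≤ m) : 4 ≤ mdim n m := by
  unfold mdim
  refine le_iInf fun W => ?_
  exact_mod_cast four_le_card hn hm W.2

end Pool.Agent.K7.H98.MD
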