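import Mathlib

/-!
# Stable multi-matchings of a locally finite set of points: deterministic facts
-/

set_option autoImplicit false

namespace Pool.Agent.K7.H98.MM

open MeasureTheory Set Filter
open scoped ENNReal Topology

/-- `ℝ^d` with the Euclidean distance -/
abbrev Sp (d : ℕ) : Type := EuclideanSpace ℝ (Fin d)

/-- `x` is willing to link to `y`: it has fewer than `D x` edges, or it has an edge which is longer
than the distance of `x` and `y` -/
def Willing {d : ℕ} {S : Set (Sp d)} (D : Sp d → ℕ) (G : SimpleGraph S) (x y : S) : Prop :=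
  (G.neighborSet x).encard < D x ∨ ∃ z, G.Adj x z ∧ dist x y < dist x z

/-- `G` is a stable multi-matching of the points of `S` with degrees `D` -/
structure IsStable {d : ℕ} (S : Set (Sp d)) (D : Sp d → ℕ) (G : SimpleGraph S) : Prop where
  deg : ∀ x : S, (G.neighborSet x).encard ≤ D x
  stable : ∀ x y : S, x ≠ y → ¬ G.Adj x y → ¬ (Willing D G x y ∧ Willing D G y x)

variable {d : ℕ} {S : Set (Sp d)} {D : Sp d → ℕ} {G : SimpleGraph S}

/-- a point with more stubs than there are points closer than `y` is willing to link to `y` -/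
theorem willing_of_deg {x y : S} (hxy : x ≠ y) (hadj : ¬ G.Adj x y)
    (hD : (S ∩ Metric.closedBall (x : Sp d) (dist x y)).encard ≤ D x) : Willing D G x y := by
  by_contra hcon
  unfold Willing at hcon
  push Not at hcon
  obtain ⟨h1, h2⟩ := hcon
  -- the neighbours of `x` are points of the ball different from `y`
  have hsub : insert (y : Sp d) (Subtype.val '' G.neighborSet x) ⊆
      S ∩ Metric.closedBall (x : Sp d) (dist x y) := by
    intro z hz
    rcases hz with rfl | ⟨w, hw, rfl⟩
    · refine ⟨y.2, ?_⟩
      rw [Metric.mem_closedBall, dist_comm]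
      exact le_of_eq (Subtype.dist_eq x y).symm
    · refine ⟨w.2, ?_⟩
      rw [Metric.mem_closedBall, dist_comm]
      have := h2 w hw
      rw [Subtype.dist_eq] at this
      exact this
  have hny : (y : Sp d) ∉ Subtype.val '' G.neighborSet x := by
    rintro ⟨w, hw, hwy⟩
    have : w = y := Subtype.ext hwy
    subst this
    exact hadj hw
  have h3 := Set.encard_le_encard hsub
  rw [Set.encard_insert_of_notMem hny, Subtype.val_injective.encard_image] at h3
  have h4 := h3.trans (hD.trans h1)
  have hfin : (G.neighborSet x).encard ≠ ⊤ := by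
    intro htop
    rw [htop, top_add] at h3
    have := h3.trans hD
    simp at this
  obtain ⟨m, hm⟩ := ENat.ne_top_iff_exists.1 hfin
  rw [← hm] at h4
  have h5 : m + 1 ≤ m := by exact_mod_cast h4
  omega

/-- two points with many stubs are linked -/
theorem adj_of_deg (hG : IsStable S D G) {x y : S} (hxy : x ≠ y)
    (hx : (S ∩ Metric.closedBall (x : Sp d) (dist x y)).encard ≤ D x)
    (hy : (S ∩ Metric.closedBall (y : Sp d) (dist x y)).encard ≤ D y) : G.Adj x y := by
  by_contra hadj
  refine hG.stable x y hxy hadj ⟨willing_of_deg hxy hadj hx, ?_⟩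
  refine willing_of_deg hxy.symm (fun h => hadj h.symm) ?_
  rwa [dist_comm]

/-- **Deterministic percolation criterion.** -/
theorem infinite_component (hG : IsStable S D G) (K : ℕ → ℕ) (hK : ∀ n, n ≤ K n) (n₀ : ℕ)
    (h1 : ∀ n ≥ n₀, (S ∩ Metric.ball (0 : Sp d) (2 ^ (n + 3))).encard ≤ K n)
    (h2 : ∀ n ≥ n₀, ∃ x ∈ S, x ∈ Metric.ball (0 : Sp d) (2 ^ n) ∧ K n ≤ D x) :
    ∃ C : G.ConnectedComponent, C.supp.Infinite := by
  have h2' : ∀ n : ℕ, ∃ x : S, (x : Sp d) ∈ Metric.ball (0 : Sp d) (2 ^ (n₀ + n)) ∧
      K (n₀ + n) ≤ D x := by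
    intro n
    obtain ⟨x, hx, hb, hD⟩ := h2 (n₀ + n) (Nat.le_add_right _ _)
    exact ⟨⟨x, hx⟩, hb, hD⟩
  choose x hxb hxD using h2'
  -- consecutive points are equal or linked
  have hstep : ∀ n, x n = x (n + 1) ∨ G.Adj (x n) (x (n + 1)) := by
    intro n
    by_cases hne : x n = x (n + 1)
    · exact Or.inl hne
    · right
      have hb1 := hxb n
      have hb2 := hxb (n + 1)
      rw [Metric.mem_ball, dist_zero_right] at hb1 hb2
      have e2 : (2 : ℝ) ^ (n₀ + (n + 1)) = 2 * 2 ^ (n₀ + n) := by
        rw [← add_assoc, pow_succ]; ring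
      have hd : dist (x n) (x (n + 1)) ≤ 3 * 2 ^ (n₀ + n) := by
        rw [Subtype.dist_eq]
        calc dist (x n : Sp d) (x (n + 1)) ≤ ‖(x n : Sp d)‖ + ‖(x (n + 1) : Sp d)‖ := by
              rw [dist_eq_norm]; exact norm_sub_le _ _
          _ ≤ _ := by rw [e2] at hb2; linarith
      have e3 : (2 : ℝ) ^ (n₀ + n + 3) = 8 * 2 ^ (n₀ + n) := by
        rw [pow_add]; norm_num; ring
      have hpos : (0 : ℝ) < 2 ^ (n₀ + n) := by positivity
      refine adj_of_deg hG hne ?_ ?_
      · refine (Set.encard_le_encard (Set.inter_subset_inter_right S ?_)).trans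
          ((h1 (n₀ + n) (Nat.le_add_right _ _)).trans (by exact_mod_cast hxD n))
        intro z hz
        rw [Metric.mem_closedBall] at hz
        rw [Metric.mem_ball, dist_zero_right, e3]
        have : ‖z‖ ≤ dist z (x n : Sp d) + ‖(x n : Sp d)‖ := by
          have := norm_add_le (z - x n) (x n : Sp d)
          rw [sub_add_cancel] at this
          rwa [dist_eq_norm]
        linarith
      · refine (Set.encard_le_encard (Set.inter_subset_inter_right S ?_)).trans
          ((h1 (n₀ + (n + 1)) (Nat.le_add_right _ _)).trans (by exact_mod_cast hxD (n + 1)))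
        intro z hz
        rw [Metric.mem_closedBall] at hz
        rw [Metric.mem_ball, dist_zero_right]
        have e4 : (2 : ℝ) ^ (n₀ + (n + 1) + 3) = 16 * 2 ^ (n₀ + n) := by
          rw [pow_add, e2]; norm_num; ring
        rw [e4]
        have : ‖z‖ ≤ dist z (x (n + 1) : Sp d) + ‖(x (n + 1) : Sp d)‖ := by
          have := norm_add_le (z - x (n + 1)) (x (n + 1) : Sp d)
          rw [sub_add_cancel] at this
          rwa [dist_eq_norm]
        rw [e2] at hb2
        linarith
  have hreach : ∀ n, G.Reachable (x 0) (x n) := by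
    intro n
    induction n with
    | zero => exact SimpleGraph.Reachable.refl _
    | succ n ih =>
      rcases hstep n with h | h
      · rwa [← h]
      · exact ih.trans h.reachable
  refine ⟨G.connectedComponentMk (x 0), ?_⟩
  have hinf : (Set.range x).Infinite := by
    intro hfin
    have hbdd : ∃ M : ℕ, ∀ n, D (x n) ≤ M := by
      have hf2 : (Set.range fun n => D (x n)).Finite := by
        have : (Set.range fun n => D (x n)) = (fun y : S => D y) '' Set.range x := by
          rw [← Set.range_comp]; rfl
        rw [this]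
        exact hfin.image _
      obtain ⟨M, hM⟩ := hf2.bddAbove
      exact ⟨M, fun n => hM ⟨n, rfl⟩⟩
    obtain ⟨M, hM⟩ := hbdd
    have h5 := hM (M + 1)
    have h6 := hxD (M + 1)
    have h7 := hK (n₀ + (M + 1))
    omega
  refine hinf.mono ?_
  rintro _ ⟨n, rfl⟩
  rw [SimpleGraph.ConnectedComponent.mem_supp_iff, SimpleGraph.ConnectedComponent.eq]
  exact (hreach n).symm

end Pool.Agent.K7.H98.MM
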