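import Pool.Agent.K7.H98.MM1

/-!
# Existence of stable multi-matchings of locally finite sets
-/

set_option autoImplicit false

namespace Pool.Agent.K7.H98.MM

open MeasureTheory Set Filter
open scoped ENNReal Topology

variable {d : ℕ} {S : Set (Sp d)} {D : Sp d → ℕ}

/-- the point `x` uses all its stubs for edges of length at most `r` -/
def Sat (D : Sp d → ℕ) (G : SimpleGraph S) (x : S) (r : ℝ) : Prop :=
  (D x : ℕ∞) ≤ {z : S | G.Adj x z ∧ dist x z ≤ r}.encard

theorem not_willing_of_sat {G : SimpleGraph S} {x y : S}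
    (hdeg : (G.neighborSet x).encard ≤ D x) (h : Sat D G x (dist x y)) : ¬ Willing D G x y := by
  have hsub : {z : S | G.Adj x z ∧ dist x z ≤ dist x y} ⊆ G.neighborSet x := fun z hz => hz.1
  have hle := Set.encard_le_encard hsub
  rintro (h1 | ⟨z, hz, hlt⟩)
  · exact absurd (h.trans hle) (not_le.2 h1)
  · have hfin : (G.neighborSet x).Finite := by
      rw [← Set.encard_ne_top_iff]
      intro htop
      rw [htop] at hdeg
      simp at hdeg
    have heq : {z : S | G.Adj x z ∧ dist x z ≤ dist x y} = G.neighborSet x := by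
      refine Set.Finite.eq_of_subset_of_encard_le (hfin.subset hsub) hsub ?_
      exact hdeg.trans h
    have : z ∈ {z : S | G.Adj x z ∧ dist x z ≤ dist x y} := by rw [heq]; exact hz
    exact absurd this.2 (not_le.2 hlt)

/-- the greedy matching of a finite set of pairs -/
theorem greedy (T : Finset (S × S)) : ∃ G : SimpleGraph S,
    (∀ x, (G.neighborSet x).encard ≤ D x) ∧ (∀ x y, G.Adj x y → (x, y) ∈ T ∨ (y, x) ∈ T) ∧
    ∀ q ∈ T, q.1 ≠ q.2 → G.Adj q.1 q.2 ∨ Sat D G q.1 (dist q.1 q.2) ∨
      Sat D G q.2 (dist q.1 q.2) := by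
  classical
  induction T using Finset.induction_on_max_value (fun q : S × S => dist q.1 q.2) with
  | empty =>
    refine ⟨⊥, fun x => ?_, fun x y h => ?_, fun q hq => ?_⟩
    · have : (⊥ : SimpleGraph S).neighborSet x = ∅ := by
        ext z; simp
      rw [this]; simp
    · exact absurd h (by simp)
    · exact absurd hq (Finset.notMem_empty q)
  | insert a T ha hmax ih =>
    obtain ⟨G, h1, h2, h3⟩ := ih
    obtain ⟨x, y⟩ := a
    have hmax' : ∀ u v : S, (u, v) ∈ T → dist u v ≤ dist x y := fun u v h => hmax (u, v) h
    clear hmax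
    by_cases hc : x = y ∨ G.Adj x y ∨ (D x : ℕ∞) ≤ (G.neighborSet x).encard ∨
        (D y : ℕ∞) ≤ (G.neighborSet y).encard
    · refine ⟨G, h1, fun u v huv => ?_, fun q hq hne => ?_⟩
      · rcases h2 u v huv with h | h
        · exact Or.inl (Finset.mem_insert_of_mem h)
        · exact Or.inr (Finset.mem_insert_of_mem h)
      · rcases Finset.mem_insert.1 hq with rfl | hq'
        · have hlen : ∀ u v, G.Adj u v → dist u v ≤ dist x y := by
            intro u v huv
            rcases h2 u v huv with h | h
            · exact hmax' u v h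
            · rw [dist_comm]; exact hmax' v u h
          rcases hc with h | h | h | h
          · exact absurd h hne
          · exact Or.inl h
          · right; left
            refine h.trans (Set.encard_le_encard fun z hz => ⟨hz, hlen _ _ hz⟩)
          · right; right
            refine h.trans (Set.encard_le_encard fun z hz => ⟨hz, hlen _ _ hz⟩)
        · exact h3 q hq' hne
    · push Not at hc
      obtain ⟨hne, hnadj, hx, hy⟩ := hc
      let G' : SimpleGraph S := G ⊔ SimpleGraph.edge x y
      have hG' : ∀ u v, G'.Adj u v ↔ G.Adj u v ∨ (u = x ∧ v = y ∨ u = y ∧ v = x) := by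
        intro u v
        show G.Adj u v ∨ (SimpleGraph.edge x y).Adj u v ↔ _
        rw [SimpleGraph.edge_adj]
        constructor
        · rintro (h | ⟨h, -⟩)
          · exact Or.inl h
          · rcases h with ⟨rfl, rfl⟩ | ⟨rfl, rfl⟩
            · exact Or.inr (Or.inl ⟨rfl, rfl⟩)
            · exact Or.inr (Or.inr ⟨rfl, rfl⟩)
        · rintro (h | h | h)
          · exact Or.inl h
          · obtain ⟨rfl, rfl⟩ := h
            exact Or.inr ⟨Or.inl ⟨rfl, rfl⟩, hne⟩
          · obtain ⟨rfl, rfl⟩ := h
            exact Or.inr ⟨Or.inr ⟨rfl, rfl⟩, hne.symm⟩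
      have hmono : ∀ u r, Sat D G u r → Sat D G' u r := by
        intro u r h
        refine h.trans (Set.encard_le_encard fun z hz => ⟨(hG' _ _).2 (Or.inl hz.1), hz.2⟩)
      refine ⟨G', fun u => ?_, fun u v huv => ?_, fun q hq hneq => ?_⟩
      · by_cases hux : u = x
        · subst hux
          have hn : G'.neighborSet u ⊆ insert y (G.neighborSet u) := by
            intro z hz
            rcases (hG' _ _).1 hz with h | h | h
            · exact Or.inr h
            · exact Or.inl h.2
            · exact absurd h.1 hne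
          refine (Set.encard_le_encard hn).trans ((Set.encard_insert_le _ _).trans ?_)
          exact Order.add_one_le_of_lt hx
        · by_cases huy : u = y
          · subst huy
            have hn : G'.neighborSet u ⊆ insert x (G.neighborSet u) := by
              intro z hz
              rcases (hG' _ _).1 hz with h | h | h
              · exact Or.inr h
              · exact absurd h.1 hux
              · exact Or.inl h.2
            refine (Set.encard_le_encard hn).trans ((Set.encard_insert_le _ _).trans ?_)
            exact Order.add_one_le_of_lt hy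
          · have hn : G'.neighborSet u ⊆ G.neighborSet u := by
              intro z hz
              rcases (hG' _ _).1 hz with h | h | h
              · exact h
              · exact absurd h.1 hux
              · exact absurd h.1 huy
            exact (Set.encard_le_encard hn).trans (h1 u)
      · rcases (hG' _ _).1 huv with h | h | h
        · rcases h2 u v h with h | h
          · exact Or.inl (Finset.mem_insert_of_mem h)
          · exact Or.inr (Finset.mem_insert_of_mem h)
        · obtain ⟨rfl, rfl⟩ := h
          exact Or.inl (Finset.mem_insert_self _ _)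
        · obtain ⟨rfl, rfl⟩ := h
          exact Or.inr (Finset.mem_insert_self _ _)
      · rcases Finset.mem_insert.1 hq with rfl | hq'
        · exact Or.inl ((hG' _ _).2 (Or.inr (Or.inl ⟨rfl, rfl⟩)))
        · rcases h3 q hq' hneq with h | h | h
          · exact Or.inl ((hG' _ _).2 (Or.inl h))
          · exact Or.inr (Or.inl (hmono _ _ h))
          · exact Or.inr (Or.inr (hmono _ _ h))

/-- **A locally finite set of points has a stable multi-matching.** -/
theorem exists_stable (hS : ∀ r : ℝ, (S ∩ Metric.closedBall (0 : Sp d) r).Finite) :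
    ∃ G : SimpleGraph S, IsStable S D G := by
  classical
  -- the points in the ball of radius `n`
  have hfin : ∀ n : ℕ, {x : S | ‖(x : Sp d)‖ ≤ n}.Finite := by
    intro n
    refine Set.Finite.of_finite_image ((hS n).subset ?_) Subtype.val_injective.injOn
    rintro _ ⟨x, hx, rfl⟩
    refine ⟨x.2, ?_⟩
    rw [Metric.mem_closedBall, dist_zero_right]
    exact hx
  have hgr : ∀ n : ℕ, ∃ G : SimpleGraph S, (∀ x, (G.neighborSet x).encard ≤ D x) ∧
      ∀ x y : S, ‖(x : Sp d)‖ ≤ n → ‖(y : Sp d)‖ ≤ n → x ≠ y → ¬ G.Adj x y →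
        ¬ (Willing D G x y ∧ Willing D G y x) := by
    intro n
    obtain ⟨G, h1, -, h3⟩ := greedy (D := D) ((hfin n).toFinset ×ˢ (hfin n).toFinset)
    refine ⟨G, h1, fun x y hx hy hne hadj hw => ?_⟩
    have hmem : (x, y) ∈ (hfin n).toFinset ×ˢ (hfin n).toFinset := by
      rw [Finset.mem_product]
      exact ⟨(hfin n).mem_toFinset.2 hx, (hfin n).mem_toFinset.2 hy⟩
    rcases h3 _ hmem hne with h | h | h
    · exact hadj h
    · exact not_willing_of_sat (h1 x) h hw.1
    · refine not_willing_of_sat (h1 y) ?_ hw.2
      rwa [dist_comm] at h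
  choose Gn hdeg hst using hgr
  let U : Ultrafilter ℕ := Filter.hyperfilter ℕ
  have hU : (U : Filter ℕ) ≤ atTop := by
    rw [← Nat.cofinite_eq_atTop]
    exact Filter.hyperfilter_le_cofinite
  let G : SimpleGraph S :=
    { Adj := fun x y => ∀ᶠ n in (U : Filter ℕ), (Gn n).Adj x y
      symm := ⟨fun x y h => h.mono fun n hn => hn.symm⟩
      loopless := ⟨fun x h => by
        obtain ⟨n, hn⟩ := h.exists
        exact (Gn n).loopless.irrefl x hn⟩ }
  have hG : ∀ x y, G.Adj x y ↔ ∀ᶠ n in (U : Filter ℕ), (Gn n).Adj x y := fun x y => Iff.rfl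
  have hGn : ∀ x y, ¬ G.Adj x y → ∀ᶠ n in (U : Filter ℕ), ¬ (Gn n).Adj x y := by
    intro x y h
    exact Ultrafilter.eventually_not.2 h
  have hdegG : ∀ x : S, (G.neighborSet x).encard ≤ D x := by
    intro x
    by_contra hcon
    push Not at hcon
    obtain ⟨t, ht, htc⟩ := Set.exists_subset_encard_eq (s := G.neighborSet x)
      (k := ((D x + 1 : ℕ) : ℕ∞)) (by
        push_cast
        exact Order.add_one_le_of_lt hcon)
    have htf : t.Finite := Set.finite_of_encard_eq_coe htc
    have hev : ∀ᶠ n in (U : Filter ℕ), ∀ z ∈ t, (Gn n).Adj x z := by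
      rw [Filter.eventually_all_finite htf]
      intro z hz
      exact ht hz
    obtain ⟨n, hn⟩ := hev.exists
    have h1 : t.encard ≤ ((Gn n).neighborSet x).encard := Set.encard_le_encard fun z hz => hn z hz
    have h2 := h1.trans (hdeg n x)
    rw [htc] at h2
    have h3 : D x + 1 ≤ D x := by exact_mod_cast h2
    omega
  refine ⟨G, hdegG, fun x y hne hadj hw => ?_⟩
  have key : ∀ x y : S, ¬ G.Adj x y → Willing D G x y →
      ∀ᶠ n in (U : Filter ℕ), Willing D (Gn n) x y := by
    intro x y hadj hw
    rcases hw with hw | ⟨z, hz, hlt⟩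
    · -- the points not farther from `x` than `y`
      have hTf : {z : S | dist x z ≤ dist x y}.Finite := by
        obtain ⟨m, hm⟩ := exists_nat_ge (‖(x : Sp d)‖ + dist x y)
        refine (hfin m).subset fun z hz => ?_
        have h1 : ‖(z : Sp d)‖ ≤ ‖(x : Sp d)‖ + dist x z := by
          have := norm_add_le (x : Sp d) ((z : Sp d) - x)
          rw [add_sub_cancel] at this
          rw [dist_comm, Subtype.dist_eq, dist_eq_norm]
          exact this
        have hz' : dist x z ≤ dist x y := hz
        show ‖(z : Sp d)‖ ≤ m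
        linarith
      have hev : ∀ᶠ n in (U : Filter ℕ), ∀ z ∈ {z : S | dist x z ≤ dist x y},
          (Gn n).Adj x z → G.Adj x z := by
        rw [Filter.eventually_all_finite hTf]
        intro z _
        by_cases hz : G.Adj x z
        · exact Filter.Eventually.of_forall fun n _ => hz
        · exact (hGn x z hz).mono fun n hn h => absurd h hn
      filter_upwards [hev] with n hn
      by_contra hcon
      unfold Willing at hcon
      push Not at hcon
      obtain ⟨c1, c2⟩ := hcon
      have hsub : (Gn n).neighborSet x ⊆ G.neighborSet x := fun z hz => hn z (c2 z hz) hz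
      exact absurd (c1.trans (Set.encard_le_encard hsub)) (not_le.2 hw)
    · exact hz.mono fun n hn => Or.inr ⟨z, hn, hlt⟩
  have h1 := key x y hadj hw.1
  have h2 := key y x (fun h => hadj h.symm) hw.2
  have h3 : ∀ᶠ n : ℕ in (U : Filter ℕ), ‖(x : Sp d)‖ ≤ n := hU (by
    obtain ⟨m, hm⟩ := exists_nat_ge ‖(x : Sp d)‖
    exact eventually_atTop.2 ⟨m, fun n hn => hm.trans (by exact_mod_cast hn)⟩)
  have h4 : ∀ᶠ n : ℕ in (U : Filter ℕ), ‖(y : Sp d)‖ ≤ n := hU (by
    obtain ⟨m, hm⟩ := exists_nat_ge ‖(y : Sp d)‖
    exact eventually_atTop.2 ⟨m, fun n hn => hm.trans (by exact_mod_cast hn)⟩)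
  obtain ⟨n, ⟨⟨⟨a1, a2⟩, a3⟩, a4⟩, a5⟩ := ((((h1.and h2).and h3).and h4).and (hGn x y hadj)).exists
  exact hst n x y a3 a4 hne a5 ⟨a1, a2⟩

end Pool.Agent.K7.H98.MM
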