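import Pool.Agent.K7.H98.MM2

/-!
# Heavy tailed degrees: percolation of the stable multi-matching of a Poisson process
-/

set_option autoImplicit false

namespace Pool.Agent.K7.H98.MM

open MeasureTheory Set Filter ProbabilityTheory
open scoped ENNReal NNReal Topology

/-- the points of `S` whose position and degree lie in `B` -/
def sel {d : ℕ} (S : Set (Sp d)) (D : Sp d → ℕ) (B : Set (Sp d × ℕ)) : Set (Sp d) :=
  {x | x ∈ S ∧ (x, D x) ∈ B}

/-- `S` is a Poisson process of intensity `1` in `ℝ^d` and the degrees `D x`, `x ∈ S`, are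
independent with law `μ` and independent of `S`: the pairs `(x, D x)` form a Poisson process on
`ℝ^d × ℕ` with intensity measure `volume × μ`. -/
structure IsPoissonWithDegrees {d : ℕ} {Ω : Type*} [MeasurableSpace Ω] (P : Measure Ω)
    (μ : Measure ℕ) (S : Ω → Set (Sp d)) (D : Ω → Sp d → ℕ) : Prop where
  meas : ∀ B : Set (Sp d × ℕ), MeasurableSet B → Measurable fun ω => (sel (S ω) (D ω) B).encard
  law : ∀ B : Set (Sp d × ℕ), MeasurableSet B → ((volume : Measure (Sp d)).prod μ) B ≠ ∞ →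
    ∀ k : ℕ, P {ω | (sel (S ω) (D ω) B).encard = (k : ℕ∞)} =
      poissonMeasure (((volume : Measure (Sp d)).prod μ) B).toNNReal {k}
  indep : ∀ (n : ℕ) (B : Fin n → Set (Sp d × ℕ)), (∀ i, MeasurableSet (B i)) →
    Pairwise (Function.onFun Disjoint B) →
    iIndepFun (fun i ω => (sel (S ω) (D ω) (B i)).encard) P

section tail

variable {Ω : Type*} [MeasurableSpace Ω] {P : Measure Ω} [IsProbabilityMeasure P]

theorem poisson_single (r : ℝ≥0) (k : ℕ) :
    poissonMeasure r {k} = ENNReal.ofReal (Real.exp (-r) * r ^ k / k.factorial) := by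
  rw [poissonMeasure_singleton]

theorem poisson_tsum (r : ℝ≥0) : ∑' k : ℕ, poissonMeasure r {k} = 1 := by
  have h1 := (poissonMeasure r).tsum_indicator_apply_singleton (s := Set.univ) MeasurableSet.univ
  simp only [Set.indicator_univ, measure_univ] at h1
  exact h1

/-- a Poisson variable is almost surely finite -/
theorem ae_ne_top {N : Ω → ℕ∞} (hN : Measurable N) (r : ℝ≥0)
    (h : ∀ k : ℕ, P {ω | N ω = (k : ℕ∞)} = poissonMeasure r {k}) : P {ω | N ω = ⊤} = 0 := by
  have hm : ∀ k : ℕ, MeasurableSet {ω | N ω = (k : ℕ∞)} := fun k =>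
    hN (MeasurableSet.of_discrete (s := {(k : ℕ∞)}))
  have hU : P (⋃ k : ℕ, {ω | N ω = (k : ℕ∞)}) = 1 := by
    rw [measure_iUnion]
    · simp_rw [h]
      exact poisson_tsum r
    · intro i j hij
      rw [Function.onFun, Set.disjoint_left]
      intro ω hi hj
      have hi' : N ω = (i : ℕ∞) := hi
      have hj' : N ω = (j : ℕ∞) := hj
      rw [hi'] at hj'
      exact hij (by exact_mod_cast hj')
    · exact hm
  have h2 : {ω | N ω = ⊤} ⊆ (⋃ k : ℕ, {ω | N ω = (k : ℕ∞)})ᶜ := by
    intro ω hω hω2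
    rw [Set.mem_iUnion] at hω2
    obtain ⟨k, hk⟩ := hω2
    have hk' : N ω = (k : ℕ∞) := hk
    have hω' : N ω = ⊤ := hω
    rw [hk'] at hω'
    exact absurd hω' (by simp)
  refine measure_mono_null h2 ?_
  rw [prob_compl_eq_zero_iff (MeasurableSet.iUnion hm)]
  exact hU

theorem poisson_succ (r : ℝ≥0) (m : ℕ) :
    poissonMeasure r {m + 1} = ENNReal.ofReal (r / (m + 1)) * poissonMeasure r {m} := by
  rw [poisson_single, poisson_single, ← ENNReal.ofReal_mul (by positivity)]
  congr 1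
  rw [Nat.factorial_succ, pow_succ]
  push_cast
  field_simp

/-- Markov's inequality for a Poisson variable -/
theorem poisson_markov {N : Ω → ℕ∞} (hN : Measurable N) (r : ℝ≥0)
    (h : ∀ k : ℕ, P {ω | N ω = (k : ℕ∞)} = poissonMeasure r {k}) (K : ℕ) (hK : 0 < K) :
    P {ω | ¬ N ω ≤ (K : ℕ∞)} ≤ ENNReal.ofReal (r / K) := by
  have hsub : {ω | ¬ N ω ≤ (K : ℕ∞)} ⊆ {ω | N ω = ⊤} ∪ ⋃ k : ℕ, {ω | N ω = ((K + k + 1 : ℕ) : ℕ∞)} := by
    intro ω hω
    by_cases ht : N ω = ⊤
    · exact Or.inl ht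
    · right
      obtain ⟨m, hm⟩ := ENat.ne_top_iff_exists.1 ht
      have hω' : ¬ N ω ≤ (K : ℕ∞) := hω
      rw [← hm] at hω'
      have hlt : K < m := by
        by_contra hc
        exact hω' (by exact_mod_cast not_lt.1 hc)
      rw [Set.mem_iUnion]
      refine ⟨m - K - 1, ?_⟩
      show N ω = _
      rw [← hm]
      congr 1
      omega
  have hKr : (0 : ℝ) < K := by exact_mod_cast hK
  calc P {ω | ¬ N ω ≤ (K : ℕ∞)} ≤ P {ω | N ω = ⊤} +
        P (⋃ k : ℕ, {ω | N ω = ((K + k + 1 : ℕ) : ℕ∞)}) := (measure_mono hsub).trans (measure_union_le _ _)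
    _ ≤ 0 + ∑' k : ℕ, P {ω | N ω = ((K + k + 1 : ℕ) : ℕ∞)} := by
        rw [ae_ne_top hN r h]
        gcongr
        exact measure_iUnion_le _
    _ ≤ ∑' k : ℕ, ENNReal.ofReal (r / K) * poissonMeasure r {K + k} := by
        rw [zero_add]
        refine ENNReal.tsum_le_tsum fun k => ?_
        rw [h, poisson_succ]
        gcongr
        push_cast
        have : (0 : ℝ) ≤ k := Nat.cast_nonneg k
        linarith
    _ = ENNReal.ofReal (r / K) * ∑' k : ℕ, poissonMeasure r {K + k} := ENNReal.tsum_mul_left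
    _ ≤ ENNReal.ofReal (r / K) * 1 := by
        gcongr
        rw [← poisson_tsum r]
        exact ENNReal.tsum_comp_le_tsum_of_injective (add_right_injective K)
          (fun k => poissonMeasure r {k})
    _ = _ := mul_one _

/-- probability that a Poisson variable vanishes -/
theorem poisson_void {N : Ω → ℕ∞} (r : ℝ≥0)
    (h : ∀ k : ℕ, P {ω | N ω = (k : ℕ∞)} = poissonMeasure r {k}) :
    P {ω | N ω = 0} = ENNReal.ofReal (Real.exp (-r)) := by
  have h0 := h 0
  rw [poisson_single] at h0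
  simpa using h0

end tail

end Pool.Agent.K7.H98.MM
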