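import Pool.Agent.K7.H98.MM3

/-!
# Heavy tailed degrees: the Borel-Cantelli argument
-/

set_option autoImplicit false

namespace Pool.Agent.K7.H98.MM

open MeasureTheory Set Filter ProbabilityTheory
open scoped ENNReal NNReal Topology

/-- the law `p δ_1 + (1 - p) ν` of the degrees -/
noncomputable def mix (p : ℝ≥0) (ν : Measure ℕ) : Measure ℕ := p • Measure.dirac 1 + (1 - p) • ν

theorem mix_prob {p : ℝ≥0} (hp : p ≤ 1) (ν : Measure ℕ) [IsProbabilityMeasure ν] :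
    IsProbabilityMeasure (mix p ν) := by
  constructor
  unfold mix
  simp only [Measure.coe_add, Measure.coe_nnreal_smul_apply, Pi.add_apply, measure_univ, mul_one]
  rw [← ENNReal.coe_add, add_tsub_cancel_of_le hp, ENNReal.coe_one]

theorem mix_ge (p : ℝ≥0) (ν : Measure ℕ) (T : Set ℕ) : ((1 - p : ℝ≥0) : ℝ≥0∞) * ν T ≤ mix p ν T := by
  unfold mix
  simp only [Measure.coe_add, Measure.coe_nnreal_smul_apply, Pi.add_apply]
  exact le_add_self

theorem vol_ball (d : ℕ) (hd : 1 ≤ d) {R : ℝ} (hR : 0 ≤ R) : volume (Metric.ball (0 : Sp d) R) =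
    ENNReal.ofReal (R ^ d) * volume (Metric.ball (0 : Sp d) 1) := by
  have : Nonempty (Fin d) := ⟨⟨0, hd⟩⟩
  rw [Measure.addHaar_ball _ _ hR, finrank_euclideanSpace_fin]

theorem percolates {d : ℕ} (hd : 1 ≤ d) (ν : Measure ℕ) [IsProbabilityMeasure ν] {s : ℝ}
    (hs0 : 0 < s) (hs : s < 1)
    (hν : ∀ᶠ k : ℕ in atTop, ENNReal.ofReal ((k : ℝ) ^ (-s)) ≤ ν {j | k ≤ j}) {p : ℝ≥0}
    (hp : p < 1) {Ω : Type*} [MeasurableSpace Ω] {P : Measure Ω} [IsProbabilityMeasure P]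
    {S : Ω → Set (Sp d)} {D : Ω → Sp d → ℕ} (h : IsPoissonWithDegrees P (mix p ν) S D) :
    ∀ᵐ ω ∂P, (∃ G : SimpleGraph (S ω), IsStable (S ω) (D ω) G) ∧
      ∀ G : SimpleGraph (S ω), IsStable (S ω) (D ω) G →
        ∃ C : G.ConnectedComponent, C.supp.Infinite := by
  have hprob := mix_prob hp.le ν
  set μ := mix p ν with hμ
  set c : ℝ := (volume (Metric.ball (0 : Sp d) 1)).toReal with hc
  have hcf : volume (Metric.ball (0 : Sp d) 1) ≠ ∞ := measure_ball_lt_top.ne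
  have hc0 : 0 < c := ENNReal.toReal_pos (Metric.measure_ball_pos volume _ one_pos).ne' hcf
  have hvol : ∀ {R : ℝ}, 0 ≤ R → (volume (Metric.ball (0 : Sp d) R)) = ENNReal.ofReal (R ^ d * c) := by
    intro R hR
    rw [vol_ball d hd hR, ENNReal.ofReal_mul (by positivity), hc, ENNReal.ofReal_toReal hcf]
  have hd' : (1 : ℝ) ≤ d := by exact_mod_cast hd
  -- growth rates
  set g : ℝ := 2 ^ ((d : ℝ) * (2 - s)) with hg
  have hg2 : 2 ≤ g := by
    calc (2 : ℝ) = 2 ^ (1 : ℝ) := (Real.rpow_one 2).symm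
      _ ≤ _ := Real.rpow_le_rpow_of_exponent_le (by norm_num) (by nlinarith)
  have hg0 : 0 < g := by linarith
  set C : ℝ := 8 ^ d * c + 1 with hC
  have hC1 : 1 ≤ C := by
    rw [hC]
    have : 0 < 8 ^ d * c := by positivity
    linarith
  set K : ℕ → ℕ := fun n => ⌈C * g ^ n⌉₊ with hK
  have hKge : ∀ n, C * g ^ n ≤ K n := fun n => Nat.le_ceil _
  have hgn1 : ∀ n : ℕ, (1 : ℝ) ≤ g ^ n := fun n => one_le_pow₀ (by linarith)
  have hKle : ∀ n, (K n : ℝ) ≤ 2 * C * g ^ n := by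
    intro n
    have h1 : (K n : ℝ) < C * g ^ n + 1 := Nat.ceil_lt_add_one (by positivity)
    nlinarith [hgn1 n]
  have hKpos : ∀ n, 0 < K n := by
    intro n
    have h1 := hKge n
    have h2 : (0 : ℝ) < K n := lt_of_lt_of_le (by positivity) h1
    exact_mod_cast h2
  have hKn : ∀ n, n ≤ K n := by
    intro n
    have h1 : (n : ℝ) ≤ K n := by
      calc (n : ℝ) ≤ 2 ^ n := by exact_mod_cast Nat.lt_two_pow_self.le
        _ ≤ g ^ n := by gcongr
        _ ≤ C * g ^ n := by nlinarith [hgn1 n]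
        _ ≤ _ := hKge n
    exact_mod_cast h1
  -- counts in balls
  have hcount : ∀ {R : ℝ}, 0 ≤ R → ∀ k : ℕ,
      P {ω | (S ω ∩ Metric.ball (0 : Sp d) R).encard = (k : ℕ∞)} =
        poissonMeasure (R ^ d * c).toNNReal {k} := by
    intro R hR k
    have h1 : (volume.prod μ) (Metric.ball (0 : Sp d) R ×ˢ (Set.univ : Set ℕ)) =
        ENNReal.ofReal (R ^ d * c) := by
      rw [Measure.prod_prod, hvol hR, measure_univ, mul_one]
    have h2 := h.law _ (Metric.isOpen_ball.measurableSet.prod MeasurableSet.univ)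
      (by rw [h1]; exact ENNReal.ofReal_ne_top) k
    rw [h1] at h2
    have h3 : ∀ ω, sel (S ω) (D ω) (Metric.ball (0 : Sp d) R ×ˢ (Set.univ : Set ℕ)) =
        S ω ∩ Metric.ball (0 : Sp d) R := by
      intro ω
      ext x
      simp [sel]
    simp_rw [h3] at h2
    rw [h2]
    rfl
  have hcm : ∀ R : ℝ, Measurable fun ω => (S ω ∩ Metric.ball (0 : Sp d) R).encard := by
    intro R
    have h3 : ∀ ω, sel (S ω) (D ω) (Metric.ball (0 : Sp d) R ×ˢ (Set.univ : Set ℕ)) =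
        S ω ∩ Metric.ball (0 : Sp d) R := by
      intro ω
      ext x
      simp [sel]
    have := h.meas (Metric.ball (0 : Sp d) R ×ˢ (Set.univ : Set ℕ))
      (Metric.isOpen_ball.measurableSet.prod MeasurableSet.univ)
    simp_rw [h3] at this
    exact this
  -- local finiteness
  have hlf : ∀ᵐ ω ∂P, ∀ r : ℝ, (S ω ∩ Metric.closedBall (0 : Sp d) r).Finite := by
    have h1 : ∀ᵐ ω ∂P, ∀ n : ℕ, (S ω ∩ Metric.ball (0 : Sp d) n).encard ≠ ⊤ := by
      rw [ae_all_iff]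
      intro n
      have := ae_ne_top (hcm n) _ (hcount (Nat.cast_nonneg n))
      rw [ae_iff]
      simpa using this
    filter_upwards [h1] with ω hω r
    obtain ⟨n, hn⟩ := exists_nat_gt r
    have h2 := Set.encard_ne_top_iff.1 (hω n)
    exact h2.subset (Set.inter_subset_inter_right _ (Metric.closedBall_subset_ball hn))
  -- first events
  have hA : ∑' n : ℕ, P {ω | ¬ (S ω ∩ Metric.ball (0 : Sp d) (2 ^ (n + 3))).encard ≤ K n} ≠ ∞ := by
    have hbd : ∀ n : ℕ, P {ω | ¬ (S ω ∩ Metric.ball (0 : Sp d) (2 ^ (n + 3))).encard ≤ K n} ≤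
        ENNReal.ofReal ((2 ^ (-((d : ℝ) * (1 - s)))) ^ n) := by
      intro n
      have hR : (0 : ℝ) ≤ 2 ^ (n + 3) := by positivity
      refine (poisson_markov (hcm _) _ (hcount hR) (K n) (hKpos n)).trans
        (ENNReal.ofReal_le_ofReal ?_)
      rw [Real.coe_toNNReal _ (by positivity)]
      have hKp : (0 : ℝ) < K n := by exact_mod_cast hKpos n
      rw [div_le_iff₀ hKp]
      have e1 : ((2 : ℝ) ^ (n + 3)) ^ d = 8 ^ d * (2 ^ (d : ℝ)) ^ n := by
        rw [Real.rpow_natCast, ← pow_mul, ← pow_mul]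
        rw [show (8 : ℝ) ^ d = 2 ^ (3 * d) by rw [pow_mul]; norm_num, ← pow_add]
        congr 1
        ring
      have e2 : (2 ^ (-((d : ℝ) * (1 - s)))) ^ n * g ^ n = ((2 : ℝ) ^ (d : ℝ)) ^ n := by
        rw [← mul_pow, hg, ← Real.rpow_add (by norm_num)]
        congr 2
        ring
      have hpp : (0 : ℝ) < (2 ^ (-((d : ℝ) * (1 - s)))) ^ n := by positivity
      calc ((2 : ℝ) ^ (n + 3)) ^ d * c = 8 ^ d * c * ((2 : ℝ) ^ (d : ℝ)) ^ n := by rw [e1]; ring
        _ ≤ C * ((2 : ℝ) ^ (d : ℝ)) ^ n := by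
            gcongr
            rw [hC]; linarith
        _ = (2 ^ (-((d : ℝ) * (1 - s)))) ^ n * (C * g ^ n) := by rw [← e2]; ring
        _ ≤ _ := by gcongr; exact hKge n
    refine ne_top_of_le_ne_top ?_ (ENNReal.tsum_le_tsum hbd)
    rw [← ENNReal.ofReal_tsum_of_nonneg (fun n => by positivity)]
    · exact ENNReal.ofReal_ne_top
    · refine summable_geometric_of_lt_one (by positivity) ?_
      exact Real.rpow_lt_one_of_one_lt_of_neg (by norm_num) (by nlinarith)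
  -- second events
  set b : ℝ := 2 ^ ((d : ℝ) * (1 - s) ^ 2) with hb
  have hb1 : 1 < b := Real.one_lt_rpow (by norm_num) (by
    have : 0 < (1 - s) ^ 2 := by nlinarith
    positivity)
  have hq : 0 < (1 - p : ℝ≥0) := tsub_pos_of_lt hp
  set c' : ℝ := c * (1 - p : ℝ≥0) * (2 * C) ^ (-s) with hc'
  have hc'0 : 0 < c' := by
    have : (0 : ℝ) < ((1 - p : ℝ≥0) : ℝ) := by exact_mod_cast hq
    positivity
  have hB : ∀ᶠ n : ℕ in atTop,
      P {ω | ¬ ∃ x ∈ S ω, x ∈ Metric.ball (0 : Sp d) (2 ^ n) ∧ K n ≤ D ω x} ≤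
        ENNReal.ofReal (c'⁻¹ * (b⁻¹) ^ n) := by
    have hKt : Tendsto K atTop atTop := tendsto_atTop_mono hKn tendsto_id
    filter_upwards [hKt.eventually hν] with n hn
    have hset : ∀ ω, (sel (S ω) (D ω) (Metric.ball (0 : Sp d) (2 ^ n) ×ˢ {j | K n ≤ j})).encard = 0 ↔
        ¬ ∃ x ∈ S ω, x ∈ Metric.ball (0 : Sp d) (2 ^ n) ∧ K n ≤ D ω x := by
      intro ω
      rw [Set.encard_eq_zero, Set.eq_empty_iff_forall_notMem]
      push Not
      constructor
      · intro hh x hx hxb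
        by_contra hcon
        push Not at hcon
        exact hh x ⟨hx, hxb, hcon⟩
      · rintro hh x ⟨hx, hxb, hxD⟩
        exact absurd (hh x hx hxb) (not_lt.2 hxD)
    have hmeas : MeasurableSet (Metric.ball (0 : Sp d) (2 ^ n) ×ˢ {j | K n ≤ j}) :=
      Metric.isOpen_ball.measurableSet.prod (MeasurableSet.of_discrete (s := {j | K n ≤ j}))
    have hR : (0 : ℝ) ≤ 2 ^ n := by positivity
    have hmass : (volume.prod μ) (Metric.ball (0 : Sp d) (2 ^ n) ×ˢ {j | K n ≤ j}) =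
        ENNReal.ofReal ((2 ^ n) ^ d * c) * μ {j | K n ≤ j} := by
      rw [Measure.prod_prod, hvol hR]
    have hfin : (volume.prod μ) (Metric.ball (0 : Sp d) (2 ^ n) ×ˢ {j | K n ≤ j}) ≠ ∞ := by
      rw [hmass]
      exact ENNReal.mul_ne_top ENNReal.ofReal_ne_top (measure_ne_top _ _)
    have hv := poisson_void (P := P) _ (h.law _ hmeas hfin)
    simp_rw [hset] at hv
    rw [hv]
    apply ENNReal.ofReal_le_ofReal
    -- lower bound of the mean
    have hlow : c' * b ^ n ≤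
        ((volume.prod μ) (Metric.ball (0 : Sp d) (2 ^ n) ×ˢ {j | K n ≤ j})).toNNReal := by
      rw [ENNReal.coe_toNNReal_eq_toReal, hmass, ENNReal.toReal_mul,
        ENNReal.toReal_ofReal (by positivity)]
      have h1 : ((1 - p : ℝ≥0) : ℝ) * (K n : ℝ) ^ (-s) ≤ (μ {j | K n ≤ j}).toReal := by
        have h2 : ENNReal.ofReal (((1 - p : ℝ≥0) : ℝ) * (K n : ℝ) ^ (-s)) ≤ μ {j | K n ≤ j} := by
          refine le_trans ?_ (mix_ge p ν _)
          rw [ENNReal.ofReal_mul (NNReal.coe_nonneg _), ENNReal.ofReal_coe_nnreal]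
          gcongr
        exact (ENNReal.ofReal_le_iff_le_toReal (measure_ne_top _ _)).1 h2
      have h3 : (2 * C) ^ (-s) * (g ^ n) ^ (-s) ≤ (K n : ℝ) ^ (-s) := by
        rw [← Real.mul_rpow (by positivity) (by positivity)]
        exact Real.rpow_le_rpow_of_nonpos (by exact_mod_cast hKpos n) (hKle n) (by linarith)
      have h4 : ((2 : ℝ) ^ n) ^ d * (g ^ n) ^ (-s) = b ^ n := by
        rw [← Real.rpow_natCast g n, ← Real.rpow_mul hg0.le, hg, ← Real.rpow_mul (by norm_num),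
          ← Real.rpow_natCast b n, hb, ← Real.rpow_mul (by norm_num), ← pow_mul,
          ← Real.rpow_natCast, ← Real.rpow_add (by norm_num)]
        congr 1
        push_cast
        ring
      calc c' * b ^ n = (2 ^ n) ^ d * c * (((1 - p : ℝ≥0) : ℝ) * ((2 * C) ^ (-s) * (g ^ n) ^ (-s))) := by
            rw [← h4, hc']; ring
        _ ≤ (2 ^ n) ^ d * c * (((1 - p : ℝ≥0) : ℝ) * (K n : ℝ) ^ (-s)) := by gcongr
        _ ≤ _ := by gcongr
    have hx0 : 0 < c' * b ^ n := by positivity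
    calc Real.exp (-(((volume.prod μ) (Metric.ball (0 : Sp d) (2 ^ n) ×ˢ {j | K n ≤ j})).toNNReal : ℝ))
        ≤ Real.exp (-(c' * b ^ n)) := Real.exp_le_exp.2 (neg_le_neg hlow)
      _ ≤ (c' * b ^ n)⁻¹ := by
          rw [Real.exp_neg]
          apply inv_anti₀ hx0
          linarith [Real.add_one_le_exp (c' * b ^ n)]
      _ = c'⁻¹ * (b⁻¹) ^ n := by rw [mul_inv, inv_pow]
  have hBs : ∑' n : ℕ, P {ω | ¬ ∃ x ∈ S ω, x ∈ Metric.ball (0 : Sp d) (2 ^ n) ∧ K n ≤ D ω x} ≠ ∞ := by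
    obtain ⟨N, hN⟩ := eventually_atTop.1 hB
    have hsplit : ∀ f : ℕ → ℝ≥0∞, ∑' n, f n = ∑ n ∈ Finset.range N, f n + ∑' n, f (n + N) :=
      fun f => (ENNReal.summable.sum_add_tsum_nat_add' (f := f)).symm
    rw [hsplit]
    refine ENNReal.add_ne_top.2 ⟨ENNReal.sum_ne_top.2 fun n _ => measure_ne_top _ _, ?_⟩
    refine ne_top_of_le_ne_top ?_ (ENNReal.tsum_le_tsum fun n => hN (n + N) (Nat.le_add_left _ _))
    have hbi : b⁻¹ < 1 := inv_lt_one_of_one_lt₀ hb1
    have hbi0 : 0 ≤ b⁻¹ := by positivity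
    rw [← ENNReal.ofReal_tsum_of_nonneg (fun n => by positivity)]
    · exact ENNReal.ofReal_ne_top
    · exact ((summable_nat_add_iff N).2 (summable_geometric_of_lt_one hbi0 hbi)).mul_left _
  have h1 := ae_eventually_notMem hA
  have h2 := ae_eventually_notMem hBs
  filter_upwards [h1, h2, hlf] with ω hω1 hω2 hω3
  refine ⟨exists_stable hω3, fun G hG => ?_⟩
  obtain ⟨n₀, hn₀⟩ := eventually_atTop.1 (hω1.and hω2)
  refine infinite_component hG K hKn n₀ (fun n hn => ?_) (fun n hn => ?_)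
  · exact not_not.1 (hn₀ n hn).1
  · exact not_not.1 (hn₀ n hn).2

end Pool.Agent.K7.H98.MM
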