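import Mathlib

/-!
# Zero-range process on `ℤ` with finitely many particles: coupling identities
-/

set_option autoImplicit false

namespace Pool.Agent.K7.H98.ZR

open Finset Filter

/-- configurations with finitely many particles on `ℤ` -/
abbrev Cfg : Type := ℤ →₀ ℕ

/-- `η^{x,y}`: one particle moves from `x` to `y` (if there is one at `x`) -/
noncomputable def move (x y : ℤ) (η : Cfg) : Cfg :=
  if η x = 0 then η else (η - Finsupp.single x 1) + Finsupp.single y 1

/-- the generator of the symmetric nearest neighbour zero-range process on `ℤ` with rate function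
`g` -/
noncomputable def gen (g : ℕ → ℝ) (f : Cfg → ℝ) (η : Cfg) : ℝ :=
  ∑ x ∈ η.support, g (η x) * ((f (move x (x + 1) η) + f (move x (x - 1) η)) / 2 - f η)

/-- one particle at `y` -/
noncomputable def e (y : ℤ) : Cfg := Finsupp.single y 1

theorem e_apply (y x : ℤ) : e y x = if y = x then 1 else 0 := by
  unfold e
  rw [Finsupp.single_apply]

theorem move_self (x z : ℤ) (ζ : Cfg) : move x z (ζ + e x) = ζ + e z := by
  unfold move
  have h : (ζ + e x) x ≠ 0 := by
    rw [Finsupp.add_apply, e_apply, if_pos rfl]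
    omega
  rw [if_neg h]
  show ζ + e x - e x + e z = ζ + e z
  rw [add_tsub_cancel_right]

theorem exists_sub {x : ℤ} {ζ : Cfg} (h : ζ x ≠ 0) : ∃ ξ : Cfg, ζ = ξ + e x := by
  refine ⟨ζ - e x, ?_⟩
  rw [tsub_add_cancel_of_le]
  intro y
  rw [e_apply]
  split_ifs with hy
  · subst hy
    omega
  · exact Nat.zero_le _

theorem move_add {x : ℤ} (z y : ℤ) {ζ : Cfg} (h : ζ x ≠ 0) :
    move x z (ζ + e y) = move x z ζ + e y := by
  obtain ⟨ξ, rfl⟩ := exists_sub h
  rw [move_self, show ξ + e x + e y = (ξ + e y) + e x by abel, move_self]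
  abel

theorem degree_e (y : ℤ) : (e y).degree = 1 := by
  unfold e
  exact Finsupp.degree_single _ _

theorem degree_add_e (ζ : Cfg) (y : ℤ) : (ζ + e y).degree = ζ.degree + 1 := by
  rw [map_add, degree_e]

theorem degree_move (x z : ℤ) (ζ : Cfg) : (move x z ζ).degree = ζ.degree := by
  by_cases h : ζ x = 0
  · unfold move
    rw [if_pos h]
  · obtain ⟨ξ, rfl⟩ := exists_sub h
    rw [move_self, degree_add_e, degree_add_e]

theorem gen_eq_sum {g : ℕ → ℝ} (hg0 : g 0 = 0) (f : Cfg → ℝ) (η : Cfg) {s : Finset ℤ}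
    (hs : η.support ⊆ s) : gen g f η =
      ∑ x ∈ s, g (η x) * ((f (move x (x + 1) η) + f (move x (x - 1) η)) / 2 - f η) := by
  unfold gen
  refine Finset.sum_subset hs fun x _ hx => ?_
  rw [Finsupp.notMem_support_iff.1 hx, hg0, zero_mul]

/-- the rate of a second class particle at `y` -/
def rr (g : ℕ → ℝ) (ζ : Cfg) (y : ℤ) : ℝ := g (ζ y + 1) - g (ζ y)

/-- the effect of an additional particle at `y` -/
noncomputable def D (f : Cfg → ℝ) (y : ℤ) (ζ : Cfg) : ℝ := f (ζ + e y) - f ζ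

/-- an additional particle moves as a second class particle -/
theorem gen_D {g : ℕ → ℝ} (hg0 : g 0 = 0) (f : Cfg → ℝ) (y : ℤ) (ζ : Cfg) :
    D (gen g f) y ζ = gen g (D f y) ζ +
      rr g ζ y * ((D f (y + 1) ζ + D f (y - 1) ζ) / 2 - D f y ζ) := by
  set s : Finset ℤ := insert y ζ.support with hs
  have h1 : (ζ + e y).support ⊆ s := by
    intro x hx
    rw [Finsupp.mem_support_iff, Finsupp.add_apply, e_apply] at hx
    rw [hs, Finset.mem_insert, Finsupp.mem_support_iff]
    by_cases hxy : y = x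
    · exact Or.inl hxy.symm
    · right
      rw [if_neg hxy] at hx
      simpa using hx
  have h2 : ζ.support ⊆ s := Finset.subset_insert _ _
  have hy : y ∈ s := Finset.mem_insert_self _ _
  unfold D
  rw [gen_eq_sum hg0 f (ζ + e y) h1, gen_eq_sum hg0 f ζ h2, gen_eq_sum hg0 _ ζ h2]
  have h3 : ∀ x ∈ s, g ((ζ + e y) x) *
      ((f (move x (x + 1) (ζ + e y)) + f (move x (x - 1) (ζ + e y))) / 2 - f (ζ + e y)) =
      g (ζ x) * ((f (move x (x + 1) ζ + e y) + f (move x (x - 1) ζ + e y)) / 2 - f (ζ + e y)) +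
      (if x = y then rr g ζ y * ((f (ζ + e (y + 1)) + f (ζ + e (y - 1))) / 2 - f (ζ + e y)) else 0) := by
    intro x _
    by_cases hxy : x = y
    · subst hxy
      rw [if_pos rfl, move_self, move_self, Finsupp.add_apply, e_apply, if_pos rfl]
      by_cases hx : ζ x = 0
      · unfold rr
        rw [hx, hg0]
        ring
      · obtain ⟨ξ, rfl⟩ := exists_sub hx
        rw [move_self, move_self, show ξ + e (x + 1) + e x = ξ + e x + e (x + 1) by abel,
          show ξ + e (x - 1) + e x = ξ + e x + e (x - 1) by abel]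
        unfold rr
        ring
    · rw [if_neg hxy, Finsupp.add_apply, e_apply, if_neg (fun h => hxy h.symm), add_zero, add_zero]
      by_cases hx : ζ x = 0
      · rw [hx, hg0]
        ring
      · rw [move_add _ _ hx, move_add _ _ hx]
  rw [Finset.sum_congr rfl h3, Finset.sum_add_distrib, Finset.sum_ite_eq' s y, if_pos hy]
  have h4 : ∀ x ∈ s, g (ζ x) * (((f (move x (x + 1) ζ + e y) - f (move x (x + 1) ζ)) +
      (f (move x (x - 1) ζ + e y) - f (move x (x - 1) ζ))) / 2 - (f (ζ + e y) - f ζ)) =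
      g (ζ x) * ((f (move x (x + 1) ζ + e y) + f (move x (x - 1) ζ + e y)) / 2 - f (ζ + e y)) -
      g (ζ x) * ((f (move x (x + 1) ζ) + f (move x (x - 1) ζ)) / 2 - f ζ) := by
    intro x _
    ring
  rw [Finset.sum_congr rfl h4, Finset.sum_sub_distrib]
  ring

/-- the rates are summable: total rate -/
noncomputable def rate (g : ℕ → ℝ) (ζ : Cfg) : ℝ := ∑ x ∈ ζ.support, g (ζ x)

theorem apply_le_degree (ζ : Cfg) (x : ℤ) : ζ x ≤ ζ.degree := by
  by_cases h : ζ x = 0
  · rw [h]
    exact Nat.zero_le _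
  · obtain ⟨ξ, rfl⟩ := exists_sub h
    rw [Finsupp.degree_apply]
    exact Finset.single_le_sum (f := fun i => (ξ + e x) i) (fun _ _ => Nat.zero_le _)
      (Finsupp.mem_support_iff.2 h)

theorem card_support_le (ζ : Cfg) : ζ.support.card ≤ ζ.degree := by
  rw [Finsupp.degree_apply, Finset.card_eq_sum_ones]
  exact Finset.sum_le_sum fun x hx => Nat.one_le_iff_ne_zero.2 (Finsupp.mem_support_iff.1 hx)

theorem rate_le {g : ℕ → ℝ} (hg0 : g 0 = 0) (hg : Monotone g) (ζ : Cfg) :
    rate g ζ ≤ ζ.degree * g ζ.degree := by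
  have hnn : ∀ n, 0 ≤ g n := fun n => hg0 ▸ hg (Nat.zero_le n)
  unfold rate
  calc ∑ x ∈ ζ.support, g (ζ x) ≤ ∑ _x ∈ ζ.support, g ζ.degree :=
        Finset.sum_le_sum fun x _ => hg (apply_le_degree ζ x)
    _ = ζ.support.card * g ζ.degree := by rw [Finset.sum_const, nsmul_eq_mul]
    _ ≤ _ := by
        gcongr
        · exact hnn _
        · exact card_support_le ζ

/-- the total rate bound in the sector of degree `N` with a second class particle -/
theorem rate_add_le {g : ℕ → ℝ} (hg0 : g 0 = 0) (hg : Monotone g) (ζ : Cfg) (y : ℤ) :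
    rate g ζ + rr g ζ y ≤ (ζ.degree + 1 : ℕ) * g (ζ.degree + 1) := by
  have hnn : ∀ n, 0 ≤ g n := fun n => hg0 ▸ hg (Nat.zero_le n)
  have h1 := rate_le hg0 hg ζ
  have h2 : rr g ζ y ≤ g (ζ.degree + 1) := by
    unfold rr
    have := hg (Nat.succ_le_succ (apply_le_degree ζ y))
    have h3 := hnn (ζ y)
    simp only [Nat.succ_eq_add_one] at this
    linarith
  have h3 : (ζ.degree : ℝ) * g ζ.degree ≤ ζ.degree * g (ζ.degree + 1) := by
    gcongr
    exact hg (Nat.le_succ _)
  push_cast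
  linarith

theorem gen_eq (g : ℕ → ℝ) (f : Cfg → ℝ) (η : Cfg) : gen g f η =
    ∑ x ∈ η.support, g (η x) * ((f (move x (x + 1) η) + f (move x (x - 1) η)) / 2) -
      rate g η * f η := by
  unfold gen rate
  rw [Finset.sum_mul, ← Finset.sum_sub_distrib]
  refine Finset.sum_congr rfl fun x _ => ?_
  ring

/-- positivity of `λ + L` -/
theorem gen_pos {g : ℕ → ℝ} (hnn : ∀ n, 0 ≤ g n) {f : Cfg → ℝ} {η : Cfg} {lam : ℝ}
    (hl : rate g η ≤ lam) (h0 : 0 ≤ f η)
    (h1 : ∀ x, 0 ≤ f (move x (x + 1) η)) (h2 : ∀ x, 0 ≤ f (move x (x - 1) η)) :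
    0 ≤ lam * f η + gen g f η := by
  rw [gen_eq]
  have h3 : 0 ≤ ∑ x ∈ η.support, g (η x) * ((f (move x (x + 1) η) + f (move x (x - 1) η)) / 2) :=
    Finset.sum_nonneg fun x _ => mul_nonneg (hnn _) (by linarith [h1 x, h2 x])
  nlinarith

theorem gen_sub (g : ℕ → ℝ) (f f' : Cfg → ℝ) (η : Cfg) :
    gen g (fun ζ => f ζ - f' ζ) η = gen g f η - gen g f' η := by
  unfold gen
  rw [← Finset.sum_sub_distrib]
  refine Finset.sum_congr rfl fun x _ => ?_
  ring

theorem gen_add' (g : ℕ → ℝ) (f f' : Cfg → ℝ) (η : Cfg) :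
    gen g (fun ζ => f ζ + f' ζ) η = gen g f η + gen g f' η := by
  unfold gen
  rw [← Finset.sum_add_distrib]
  refine Finset.sum_congr rfl fun x _ => ?_
  ring

theorem gen_smul (g : ℕ → ℝ) (c : ℝ) (f : Cfg → ℝ) (η : Cfg) :
    gen g (fun ζ => c * f ζ) η = c * gen g f η := by
  unfold gen
  rw [Finset.mul_sum]
  refine Finset.sum_congr rfl fun x _ => ?_
  ring

theorem gen_const (g : ℕ → ℝ) (c : ℝ) (η : Cfg) : gen g (fun _ => c) η = 0 := by
  unfold gen
  refine Finset.sum_eq_zero fun x _ => ?_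
  ring

end Pool.Agent.K7.H98.ZR
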