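import Pool.Agent.K7.H98.ZR9

/-!
# Occupation of an arbitrary site, uniformly in the truncation
-/

set_option autoImplicit false

namespace Pool.Agent.K7.H98.ZR

open Finset Filter Topology MeasureTheory
open scoped ENNReal

variable {g : ℕ → ℝ} {N : ℕ} {lam : ℝ}

/-- translation of a configuration -/
noncomputable def sh (x : ℤ) (η : Cfg) : Cfg := Finsupp.equivMapDomain (Equiv.subRight x) η

theorem sh_apply (x y : ℤ) (η : Cfg) : sh x η y = η (y + x) := by
  unfold sh
  rw [Finsupp.equivMapDomain_apply]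
  rfl

theorem sh_add (x : ℤ) (η ξ : Cfg) : sh x (η + ξ) = sh x η + sh x ξ := by
  ext y
  rw [sh_apply, Finsupp.add_apply, Finsupp.add_apply, sh_apply, sh_apply]

theorem sh_e (x a : ℤ) : sh x (e a) = e (a - x) := by
  ext y
  rw [sh_apply, e_apply, e_apply]
  congr 1
  simp only [eq_iff_iff]
  constructor <;> intro h <;> omega

theorem sh_move (x a c : ℤ) (η : Cfg) : move (a - x) (c - x) (sh x η) = sh x (move a c η) := by
  by_cases h : η a = 0
  · have h1 : sh x η (a - x) = 0 := by rw [sh_apply, sub_add_cancel, h]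
    unfold move
    rw [if_pos h, if_pos h1]
  · obtain ⟨ξ, rfl⟩ := exists_sub h
    rw [move_self, sh_add, sh_e, move_self, sh_add, sh_e]

theorem gen_sh (hg0 : g 0 = 0) (x : ℤ) (F : Cfg → ℝ) (η : Cfg) :
    gen g (fun ξ => F (sh x ξ)) η = gen g F (sh x η) := by
  rw [gen_eq_sum hg0 F (sh x η) (s := η.support.map (Equiv.subRight x).toEmbedding),
    Finset.sum_map]
  · unfold gen
    refine Finset.sum_congr rfl fun a _ => ?_
    have h1 : (Equiv.subRight x).toEmbedding a = a - x := rfl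
    rw [h1, sh_apply, sub_add_cancel, show a - x + 1 = (a + 1) - x by ring,
      show a - x - 1 = (a - 1) - x by ring, sh_move, sh_move]
  · intro y hy
    rw [Finsupp.mem_support_iff, sh_apply] at hy
    rw [Finset.mem_map]
    exact ⟨y + x, Finsupp.mem_support_iff.2 hy, by
      show y + x - x = y
      ring⟩

theorem degree_sh (x : ℤ) (η : Cfg) : (sh x η).degree = η.degree := by
  obtain ⟨ps, rfl⟩ := exists_list η
  induction ps with
  | nil =>
    have h1 : ofList [] = 0 := rfl
    rw [h1]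
    have : sh x 0 = 0 := by ext y; rw [sh_apply]; rfl
    rw [this]
  | cons p ps ih => rw [ofList_cons, sh_add, sh_e, map_add, map_add, ih, degree_e, degree_e]

/-- The configuration that agrees with `η` on `[-n,n]` and vanishes elsewhere. -/
noncomputable def trunc (η : ℤ → ℕ) (n : ℕ) : Cfg :=
  Finsupp.onFinset (Finset.Icc (-(n : ℤ)) n)
    (fun x => if x ∈ Finset.Icc (-(n : ℤ)) (n : ℤ) then η x else 0)
    (fun x hx => by
      by_contra h
      exact hx (if_neg h))

theorem trunc_apply (η : ℤ → ℕ) (n : ℕ) (x : ℤ) :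
    trunc η n x = if x ∈ Finset.Icc (-(n : ℤ)) (n : ℤ) then η x else 0 := rfl

theorem trunc_le (η : ℤ → ℕ) (n : ℕ) (x : ℤ) : trunc η n x ≤ η x := by
  rw [trunc_apply]
  split_ifs
  · exact le_rfl
  · exact Nat.zero_le _

/-- density of the shifted truncations -/
theorem density_sh {η : ℤ → ℕ} {C₀ : ℕ}
    (hη : ∀ n : ℕ, ∑ x ∈ Finset.Icc (-(n : ℤ)) n, η x ≤ C₀ * (2 * n + 1)) (x : ℤ) (n m : ℕ) :
    ∑ y ∈ Finset.Icc (-(m : ℤ)) m, sh x (trunc η n) y ≤
      (C₀ * (2 * x.natAbs + 1)) * (2 * m + 1) := by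
  calc ∑ y ∈ Finset.Icc (-(m : ℤ)) m, sh x (trunc η n) y
      ≤ ∑ y ∈ Finset.Icc (-(m : ℤ)) m, η (y + x) := by
        refine Finset.sum_le_sum fun y _ => ?_
        rw [sh_apply]
        exact trunc_le η n _
    _ = ∑ z ∈ (Finset.Icc (-(m : ℤ)) m).map (Equiv.addRight x).toEmbedding, η z := by
        rw [Finset.sum_map]
        rfl
    _ ≤ ∑ z ∈ Finset.Icc (-((m + x.natAbs : ℕ) : ℤ)) ((m + x.natAbs : ℕ) : ℤ), η z := by
        refine Finset.sum_le_sum_of_subset fun z hz => ?_
        rw [Finset.mem_map] at hz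
        obtain ⟨y, hy, rfl⟩ := hz
        rw [Finset.mem_Icc] at hy ⊢
        have h1 : (Equiv.addRight x).toEmbedding y = y + x := rfl
        rw [h1]
        push_cast
        have h2 := neg_abs_le x
        have h3 := le_abs_self x
        constructor <;> omega
    _ ≤ C₀ * (2 * (m + x.natAbs) + 1) := hη _
    _ ≤ _ := by
        have : 2 * (m + x.natAbs) + 1 ≤ (2 * x.natAbs + 1) * (2 * m + 1) := by
          have : (2 * x.natAbs + 1) * (2 * m + 1) =
            2 * (m + x.natAbs) + 1 + 4 * (x.natAbs * m) := by ring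
          omega
        calc C₀ * (2 * (m + x.natAbs) + 1) ≤ C₀ * ((2 * x.natAbs + 1) * (2 * m + 1)) :=
              Nat.mul_le_mul_left _ this
          _ = _ := by ring

section process

variable {Ω : Type*} [MeasurableSpace Ω] {P : Measure Ω} {ζ : Cfg}
  {X : ℝ → Ω → Cfg}

theorem shift (hg0 : g 0 = 0) (h : IsZeroRange P g ζ X) (x : ℤ) :
    IsZeroRange P g (sh x ζ) (fun t ω => sh x (X t ω)) where
  meas := fun t S => h.meas t (sh x ⁻¹' S)
  init := by
    filter_upwards [h.init] with ω hω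
    rw [hω]
  forward := by
    rintro f ⟨C, hC⟩ t ht
    have h1 := h.forward (fun η => f (sh x η)) ⟨C, fun η => hC _⟩ t ht
    simp_rw [gen_sh hg0] at h1
    exact h1

variable [IsProbabilityMeasure P]

/-- **Occupation bound**, uniform in the truncation. -/
theorem occupation_site (hlim : Tendsto g atTop atTop) (hg : Monotone g) (hg0 : g 0 = 0)
    {η : ℤ → ℕ} {C₀ : ℕ} (hη : ∀ n : ℕ, ∑ x ∈ Finset.Icc (-(n : ℤ)) n, η x ≤ C₀ * (2 * n + 1))
    (x : ℤ) : ∃ B : ℝ, 0 ≤ B ∧ ∀ (n : ℕ) (X : ℝ → Ω → Cfg), IsZeroRange P g (trunc η n) X →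
      ∀ t : ℝ, 0 ≤ t → ∫ s in (0 : ℝ)..t, ∫ ω, g (X s ω x) ∂P ≤ Real.exp t * B := by
  obtain ⟨B, hB⟩ := uniform_bound hlim hg hg0 (C₀ * (2 * x.natAbs + 1))
  refine ⟨max B 0, le_max_right _ _, fun n X hX t ht => ?_⟩
  obtain ⟨N₁, hN₁⟩ := hB (sh x (trunc η n)) (fun m => density_sh hη x n m)
  set N := max N₁ (sh x (trunc η n)).degree with hN
  have H : Good g N (N * g N) := ⟨hg0, hg, le_rfl⟩
  have h1 := occupation (shift hg0 hX x) H (le_max_right _ _) ht
  have h2 : GG g (N * g N) (sh x (trunc η n)) ≤ B :=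
    le_of_tendsto' (tendsto_GG H (le_max_right _ _)) fun k => hN₁ N (le_max_left _ _) _ H k
  have h3 : ∀ s ω, g0 g (sh x (X s ω)) = g (X s ω x) := by
    intro s ω
    unfold g0
    rw [sh_apply, zero_add]
  simp_rw [h3] at h1
  refine h1.trans (mul_le_mul_of_nonneg_left (h2.trans (le_max_left _ _)) (Real.exp_pos _).le)

theorem gen_bound (hnn : ∀ n, 0 ≤ g n) {f : Cfg → ℝ} {C : ℝ} {d : ℕ}
    (hf : ∀ η : Cfg, η.degree = d → |f η| ≤ C) {η : Cfg} (hη : η.degree = d) :
    |gen g f η| ≤ rate g η * (2 * C) := by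
  unfold gen rate
  rw [Finset.sum_mul]
  refine (Finset.abs_sum_le_sum_abs _ _).trans (Finset.sum_le_sum fun x _ => ?_)
  rw [abs_mul, abs_of_nonneg (hnn _)]
  refine mul_le_mul_of_nonneg_left ?_ (hnn _)
  have h1 := abs_le.1 (hf (move x (x + 1) η) (by rw [degree_move, hη]))
  have h2 := abs_le.1 (hf (move x (x - 1) η) (by rw [degree_move, hη]))
  have h3 := abs_le.1 (hf η hη)
  rw [abs_le]
  constructor <;> linarith

/-- integrated forward equation of the finite process -/
theorem duhamel (hg : Monotone g) (hg0 : g 0 = 0) (h : IsZeroRange P g ζ X) {f : Cfg → ℝ} {C : ℝ}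
    (hf : ∀ η : Cfg, η.degree = ζ.degree → |f η| ≤ C) {t : ℝ} (ht : 0 ≤ t) :
    ContinuousOn (fun s => ∫ ω, gen g f (X s ω) ∂P) (Set.Ici 0) ∧
    ∫ ω, f (X t ω) ∂P = f ζ + ∫ s in (0 : ℝ)..t, ∫ ω, gen g f (X s ω) ∂P := by
  have hnn : ∀ n, 0 ≤ g n := fun n => hg0 ▸ hg (Nat.zero_le n)
  have hC : 0 ≤ C := (abs_nonneg _).trans (hf ζ rfl)
  have hb : ∀ η : Cfg, η.degree = ζ.degree → |gen g f η| ≤ (ζ.degree * g ζ.degree) * (2 * C) := by
    intro η hη
    refine (gen_bound hnn hf hη).trans ?_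
    refine mul_le_mul_of_nonneg_right ?_ (by linarith)
    rw [← hη]
    exact rate_le hg0 hg η
  have hcont := continuousOn' h hb
  refine ⟨hcont, ?_⟩
  have hsub : Set.Icc (0 : ℝ) t ⊆ Set.Ici 0 := fun _ h => h.1
  have hftc : ∫ s in (0 : ℝ)..t, ∫ ω, gen g f (X s ω) ∂P =
      (∫ ω, f (X t ω) ∂P) - ∫ ω, f (X 0 ω) ∂P := by
    refine intervalIntegral.integral_eq_sub_of_hasDerivAt_of_le
      (f := fun s => ∫ ω, f (X s ω) ∂P) ht ?_ ?_ ?_
    · exact (continuousOn' h hf).mono hsub
    · intro s hs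
      exact (forward' h hf hs.1.le).hasDerivAt (Ici_mem_nhds hs.1)
    · exact (hcont.mono hsub).intervalIntegrable_of_Icc ht
  have h0 : ∫ ω, f (X 0 ω) ∂P = f ζ := by
    rw [integral_congr_ae (g := fun _ => f ζ)]
    · simp
    · filter_upwards [h.init] with ω hω
      rw [hω]
  rw [hftc, h0]
  ring

theorem cont_g (hg : Monotone g) (hg0 : g 0 = 0) (h : IsZeroRange P g ζ X) (x : ℤ) :
    ContinuousOn (fun s => ∫ ω, g (X s ω x) ∂P) (Set.Ici 0) := by
  have hnn : ∀ n, 0 ≤ g n := fun n => hg0 ▸ hg (Nat.zero_le n)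
  exact continuousOn' (f := fun η => g (η x)) h (C := g ζ.degree) fun η hη => by
    rw [abs_of_nonneg (hnn _), ← hη]
    exact hg (apply_le_degree η x)

theorem int_g (hg : Monotone g) (hg0 : g 0 = 0) (h : IsZeroRange P g ζ X) (x : ℤ) {t : ℝ}
    (ht : 0 ≤ t) : Integrable (fun ω => g (X t ω x)) P := by
  have hnn : ∀ n, 0 ≤ g n := fun n => hg0 ▸ hg (Nat.zero_le n)
  exact integrable' (f := fun η => g (η x)) h (C := g ζ.degree) (fun η hη => by
    rw [abs_of_nonneg (hnn _), ← hη]
    exact hg (apply_le_degree η x)) ht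

/-- the mean number of particles at a site -/
theorem mean_le (hg : Monotone g) (hg0 : g 0 = 0) (h : IsZeroRange P g ζ X) (x : ℤ) {t : ℝ}
    (ht : 0 ≤ t) : ∫ ω, (X t ω x : ℝ) ∂P ≤ ζ x +
      (∫ s in (0 : ℝ)..t, ∫ ω, g (X s ω (x - 1)) ∂P) + ∫ s in (0 : ℝ)..t, ∫ ω, g (X s ω (x + 1)) ∂P := by
  have hnn : ∀ n, 0 ≤ g n := fun n => hg0 ▸ hg (Nat.zero_le n)
  have hb : ∀ η : Cfg, η.degree = ζ.degree → |(η x : ℝ)| ≤ ζ.degree := by
    intro η hη
    rw [abs_of_nonneg (Nat.cast_nonneg _), ← hη]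
    exact_mod_cast apply_le_degree η x
  obtain ⟨hc, heq⟩ := duhamel (f := fun η => (η x : ℝ)) hg hg0 h hb ht
  rw [heq, add_assoc]
  refine add_le_add le_rfl ?_
  have hsub : Set.Icc (0 : ℝ) t ⊆ Set.Ici 0 := fun _ h => h.1
  rw [← intervalIntegral.integral_add
    (((cont_g hg hg0 h (x - 1)).mono hsub).intervalIntegrable_of_Icc ht)
    (((cont_g hg hg0 h (x + 1)).mono hsub).intervalIntegrable_of_Icc ht)]
  refine intervalIntegral.integral_mono_on ht ((hc.mono hsub).intervalIntegrable_of_Icc ht)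
    ((((cont_g hg hg0 h (x - 1)).mono hsub).intervalIntegrable_of_Icc ht).add
    (((cont_g hg hg0 h (x + 1)).mono hsub).intervalIntegrable_of_Icc ht)) fun s hs => ?_
  rw [← integral_add (int_g hg hg0 h _ hs.1) (int_g hg hg0 h _ hs.1)]
  refine integral_mono_ae ?_ ((int_g hg hg0 h _ hs.1).add (int_g hg hg0 h _ hs.1)) ?_
  · refine integrable' (f := gen g fun η => (η x : ℝ)) h (C := (ζ.degree * g ζ.degree) * (2 * ζ.degree))
      (fun η hη => ?_) hs.1
    refine (gen_bound hnn hb hη).trans ?_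
    refine mul_le_mul_of_nonneg_right ?_ (by positivity)
    rw [← hη]
    exact rate_le hg0 hg η
  · refine Eventually.of_forall fun ω => ?_
    set η := X s ω with hη
    show gen g (fun η => (η x : ℝ)) η ≤ g (η (x - 1)) + g (η (x + 1))
    have hmv : ∀ y z : ℤ, (move y z η x : ℝ) ≤ η x + if z = x then 1 else 0 := by
      intro y z
      by_cases hy : η y = 0
      · unfold move
        rw [if_pos hy]
        split_ifs <;> linarith
      · obtain ⟨ξ, hξ⟩ := exists_sub hy
        rw [hξ, move_self, Finsupp.add_apply, Finsupp.add_apply, e_apply, e_apply]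
        push_cast
        split_ifs <;> linarith
    rw [gen_eq_sum hg0 _ η (s := η.support ∪ {x - 1, x + 1}) Finset.subset_union_left]
    calc ∑ y ∈ η.support ∪ {x - 1, x + 1}, g (η y) *
          (((move y (y + 1) η x : ℝ) + (move y (y - 1) η x : ℝ)) / 2 - (η x : ℝ))
        ≤ ∑ y ∈ η.support ∪ {x - 1, x + 1}, ((if y = x - 1 then g (η (x - 1)) else 0) +
          if y = x + 1 then g (η (x + 1)) else 0) := by
          refine Finset.sum_le_sum fun y _ => ?_
          have h1 := hmv y (y + 1)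
          have h2 := hmv y (y - 1)
          have h3 : (((move y (y + 1) η x : ℝ) + (move y (y - 1) η x : ℝ)) / 2 - (η x : ℝ)) ≤
              ((if y + 1 = x then 1 else 0) + if y - 1 = x then 1 else 0) / 2 := by linarith
          refine (mul_le_mul_of_nonneg_left h3 (hnn _)).trans ?_
          by_cases ha : y = x - 1
          · have h4 : y + 1 = x := by omega
            have h5 : ¬ y - 1 = x := by omega
            have h6 : ¬ y = x + 1 := by omega
            rw [if_pos h4, if_neg h5, if_pos ha, if_neg h6, ha]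
            have := hnn (η (x - 1))
            linarith
          · have h4 : ¬ y + 1 = x := by omega
            rw [if_neg h4, if_neg ha]
            by_cases hb' : y = x + 1
            · have h5 : y - 1 = x := by omega
              rw [if_pos h5, if_pos hb', hb']
              have := hnn (η (x + 1))
              linarith
            · have h5 : ¬ y - 1 = x := by omega
              rw [if_neg h5, if_neg hb']
              simp
      _ = _ := by
          rw [Finset.sum_add_distrib, Finset.sum_ite_eq', Finset.sum_ite_eq', if_pos, if_pos]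
          · simp
          · simp

end process

end Pool.Agent.K7.H98.ZR
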