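import Pool.Agent.K7.H98.ZR10

/-!
# The infinite system: limit of the truncations and integrated forward equation
-/

set_option autoImplicit false

namespace Pool.Agent.K7.H98.ZR

open Filter Topology MeasureTheory
open scoped ENNReal

/-- `η^{x,y}` for a configuration with infinitely many particles -/
def moveI (x y : ℤ) (η : ℤ → ℕ) : ℤ → ℕ :=
  if η x = 0 then η else fun z => η z - (if z = x then 1 else 0) + (if z = y then 1 else 0)

/-- the generator of the symmetric nearest neighbour zero-range process on local functions (all but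
finitely many terms vanish) -/
noncomputable def genI (g : ℕ → ℝ) (f : (ℤ → ℕ) → ℝ) (η : ℤ → ℕ) : ℝ :=
  ∑' x : ℤ, g (η x) * ((f (moveI x (x + 1) η) + f (moveI x (x - 1) η)) / 2 - f η)

/-- local functions -/
def IsLocal (f : (ℤ → ℕ) → ℝ) : Prop :=
  ∃ A : Finset ℤ, ∀ η ξ : ℤ → ℕ, (∀ x ∈ A, η x = ξ x) → f η = f ξ

/-- limit of the increasing sequence of processes -/
noncomputable def limX {Ω : Type*} (X : ℕ → ℝ → Ω → Cfg) (t : ℝ) (ω : Ω) (x : ℤ) : ℕ :=
  ⨆ n, X n t ω x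

theorem move_coe (x y : ℤ) (ζ : Cfg) : (⇑(move x y ζ) : ℤ → ℕ) = moveI x y ζ := by
  unfold move moveI
  split_ifs with h
  · rfl
  · funext z
    rw [Finsupp.add_apply, Finsupp.tsub_apply, Finsupp.single_apply, Finsupp.single_apply]
    simp only [eq_comm]

variable {g : ℕ → ℝ}

theorem gen_coe (hg0 : g 0 = 0) (f : (ℤ → ℕ) → ℝ) (ζ : Cfg) :
    gen g (fun η => f η) ζ = genI g f ζ := by
  unfold genI gen
  rw [tsum_eq_sum (s := ζ.support)]
  · refine Finset.sum_congr rfl fun x _ => ?_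
    dsimp only
    rw [move_coe, move_coe]
  · intro x hx
    rw [Finsupp.notMem_support_iff.1 hx, hg0, zero_mul]

/-- the sites which matter for a function depending on the sites in `A` -/
def nb (A : Finset ℤ) : Finset ℤ := A ∪ A.image (fun x => x + 1) ∪ A.image (fun x => x - 1)

theorem genI_eq {f : (ℤ → ℕ) → ℝ} {A : Finset ℤ}
    (hA : ∀ η ξ : ℤ → ℕ, (∀ x ∈ A, η x = ξ x) → f η = f ξ) (η : ℤ → ℕ) : genI g f η =
    ∑ x ∈ nb A, g (η x) * ((f (moveI x (x + 1) η) + f (moveI x (x - 1) η)) / 2 - f η) := by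
  unfold genI
  refine tsum_eq_sum fun x hx => ?_
  unfold nb at hx
  simp only [Finset.mem_union, Finset.mem_image, not_or, not_exists, not_and] at hx
  obtain ⟨⟨h1, h2⟩, h3⟩ := hx
  have key : ∀ y : ℤ, (y = x + 1 ∨ y = x - 1) → f (moveI x y η) = f η := by
    intro y hy
    refine hA _ _ fun z hz => ?_
    unfold moveI
    split_ifs with h
    · rfl
    · have hzx : z ≠ x := fun h => h1 (h ▸ hz)
      have hzy : z ≠ y := by
        rintro rfl
        rcases hy with h | h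
        · exact h3 _ hz (by omega)
        · exact h2 _ hz (by omega)
      simp only [if_neg hzx, if_neg hzy]
      rfl
  rw [key _ (Or.inl rfl), key _ (Or.inr rfl)]
  ring

theorem genI_congr {f : (ℤ → ℕ) → ℝ} {A : Finset ℤ}
    (hA : ∀ η ξ : ℤ → ℕ, (∀ x ∈ A, η x = ξ x) → f η = f ξ) {η ξ : ℤ → ℕ}
    (h : ∀ x ∈ nb A, η x = ξ x) : genI g f η = genI g f ξ := by
  rw [genI_eq hA, genI_eq hA]
  have hsub : A ⊆ nb A := fun x hx => Finset.mem_union_left _ (Finset.mem_union_left _ hx)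
  refine Finset.sum_congr rfl fun x hx => ?_
  have key : ∀ y : ℤ, f (moveI x y η) = f (moveI x y ξ) := by
    intro y
    refine hA _ _ fun z hz => ?_
    unfold moveI
    rw [h x hx]
    split_ifs
    · exact h z (hsub hz)
    · simp only [h z (hsub hz)]
  rw [h x hx, key, key, hA η ξ fun z hz => h z (hsub hz)]

theorem genI_bound (hnn : ∀ n, 0 ≤ g n) {f : (ℤ → ℕ) → ℝ} {A : Finset ℤ}
    (hA : ∀ η ξ : ℤ → ℕ, (∀ x ∈ A, η x = ξ x) → f η = f ξ) {C : ℝ} (hC : ∀ η, |f η| ≤ C)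
    (η : ℤ → ℕ) : |genI g f η| ≤ ∑ x ∈ nb A, g (η x) * (2 * C) := by
  rw [genI_eq hA]
  refine (Finset.abs_sum_le_sum_abs _ _).trans (Finset.sum_le_sum fun x _ => ?_)
  rw [abs_mul, abs_of_nonneg (hnn _)]
  refine mul_le_mul_of_nonneg_left ?_ (hnn _)
  have h1 := abs_le.1 (hC (moveI x (x + 1) η))
  have h2 := abs_le.1 (hC (moveI x (x - 1) η))
  have h3 := abs_le.1 (hC η)
  rw [abs_le]
  constructor <;> linarith

section limit

variable {Ω : Type*} [MeasurableSpace Ω] {P : Measure Ω} [IsProbabilityMeasure P] {η₀ : ℤ → ℕ}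
  {X : ℕ → ℝ → Ω → Cfg}

/-- at every time the numbers of particles at all the sites are almost surely bounded -/
theorem bdd (hlim : Tendsto g atTop atTop) (hg : Monotone g) (hg0 : g 0 = 0) {C₀ : ℕ}
    (hη : ∀ n : ℕ, ∑ x ∈ Finset.Icc (-(n : ℤ)) n, η₀ x ≤ C₀ * (2 * n + 1))
    (hX : ∀ n, IsZeroRange P g (trunc η₀ n) (X n))
    (hmono : ∀ n t, 0 ≤ t → ∀ᵐ ω ∂P, X n t ω ≤ X (n + 1) t ω) {t : ℝ} (ht : 0 ≤ t) :
    ∀ᵐ ω ∂P, (∀ n, X n t ω ≤ X (n + 1) t ω) ∧ ∀ x, BddAbove (Set.range fun n => X n t ω x) := by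
  have h1 : ∀ᵐ ω ∂P, ∀ n, X n t ω ≤ X (n + 1) t ω := by
    rw [ae_all_iff]
    exact fun n => hmono n t ht
  have h2 : ∀ᵐ ω ∂P, ∀ x, BddAbove (Set.range fun n => X n t ω x) := by
    rw [ae_all_iff]
    intro x
    obtain ⟨B1, hB1, hb1⟩ := occupation_site (P := P) hlim hg hg0 hη (x - 1)
    obtain ⟨B2, hB2, hb2⟩ := occupation_site (P := P) hlim hg hg0 hη (x + 1)
    set R : ℝ := η₀ x + Real.exp t * B1 + Real.exp t * B2 with hR
    have hmean : ∀ n, ∫⁻ ω, (X n t ω x : ℝ≥0∞) ∂P ≤ ENNReal.ofReal R := by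
      intro n
      have h3 := mean_le hg hg0 (hX n) x ht
      have h4 := hb1 n (X n) (hX n) t ht
      have h5 := hb2 n (X n) (hX n) t ht
      have h6 : ((trunc η₀ n x : ℕ) : ℝ) ≤ η₀ x := by exact_mod_cast trunc_le η₀ n x
      have h7 : ∫ ω, (X n t ω x : ℝ) ∂P ≤ R := by linarith
      have h8 : Integrable (fun ω => (X n t ω x : ℝ)) P :=
        integrable' (f := fun η => (η x : ℝ)) (hX n) (C := (trunc η₀ n).degree) (fun η hη' => by
          rw [abs_of_nonneg (Nat.cast_nonneg _), ← hη']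
          exact_mod_cast apply_le_degree η x) ht
      have h9 := ofReal_integral_eq_lintegral_ofReal h8
        (Eventually.of_forall fun ω => Nat.cast_nonneg _)
      calc ∫⁻ ω, (X n t ω x : ℝ≥0∞) ∂P = ∫⁻ ω, ENNReal.ofReal (X n t ω x : ℝ) ∂P := by
            refine lintegral_congr fun ω => ?_
            rw [ENNReal.ofReal_natCast]
        _ = ENNReal.ofReal (∫ ω, (X n t ω x : ℝ) ∂P) := h9.symm
        _ ≤ _ := ENNReal.ofReal_le_ofReal h7
    have hms : ∀ n, Measurable fun ω => (X n t ω x : ℝ≥0∞) := fun n =>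
      meas_comp (hX n) (fun η : Cfg => (η x : ℝ≥0∞)) t
    have hsup : ∫⁻ ω, ⨆ n, (X n t ω x : ℝ≥0∞) ∂P ≤ ENNReal.ofReal R := by
      rw [lintegral_iSup_ae hms]
      · exact iSup_le hmean
      · intro n
        filter_upwards [h1] with ω hω
        exact_mod_cast hω n x
    have hfin : ∀ᵐ ω ∂P, ⨆ n, (X n t ω x : ℝ≥0∞) < ∞ := by
      refine ae_lt_top (Measurable.iSup hms) (ne_top_of_le_ne_top ENNReal.ofReal_ne_top hsup)
    filter_upwards [hfin] with ω hω
    obtain ⟨m, hm⟩ := ENNReal.exists_nat_gt hω.ne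
    refine ⟨m, ?_⟩
    rintro _ ⟨n, rfl⟩
    have : (X n t ω x : ℝ≥0∞) ≤ m := (le_iSup (fun n => (X n t ω x : ℝ≥0∞)) n).trans hm.le
    exact_mod_cast this
  filter_upwards [h1, h2] with ω hω1 hω2
  exact ⟨hω1, hω2⟩

omit [MeasurableSpace Ω] in
/-- the sequences are eventually equal to their limits -/
theorem eventually_lim {t : ℝ} {ω : Ω} (h1 : ∀ n, X n t ω ≤ X (n + 1) t ω) {x : ℤ}
    (h2 : BddAbove (Set.range fun n => X n t ω x)) :
    (∀ n, X n t ω x ≤ limX X t ω x) ∧ ∀ᶠ n in atTop, X n t ω x = limX X t ω x := by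
  have hmono : Monotone fun n => X n t ω x := monotone_nat_of_le_succ fun n => h1 n x
  have hle : ∀ n, X n t ω x ≤ limX X t ω x := fun n => le_ciSup h2 n
  refine ⟨hle, ?_⟩
  have hmem : limX X t ω x ∈ Set.range fun n => X n t ω x :=
    Nat.sSup_mem (Set.range_nonempty _) h2
  obtain ⟨m, hm⟩ := hmem
  filter_upwards [eventually_ge_atTop m] with n hn
  refine le_antisymm (hle n) ?_
  rw [← hm]
  exact hmono hn

end limit

end Pool.Agent.K7.H98.ZR
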