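import Pool.Agent.K7.H98.ZR11

/-!
# The integrated forward equation of the infinite system
-/

set_option autoImplicit false

namespace Pool.Agent.K7.H98.ZR

open Filter Topology MeasureTheory
open scoped ENNReal

variable {g : ℕ → ℝ}

variable {Ω : Type*} [MeasurableSpace Ω] {P : Measure Ω} [IsProbabilityMeasure P] {η₀ : ℤ → ℕ}
  {X : ℕ → ℝ → Ω → Cfg}

/-- the mean rate at a site of the limit is the supremum of the mean rates -/
theorem rate_sup (hlim : Tendsto g atTop atTop) (hg : Monotone g) (hg0 : g 0 = 0) {C₀ : ℕ}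
    (hη : ∀ n : ℕ, ∑ x ∈ Finset.Icc (-(n : ℤ)) n, η₀ x ≤ C₀ * (2 * n + 1))
    (hX : ∀ n, IsZeroRange P g (trunc η₀ n) (X n))
    (hmono : ∀ n t, 0 ≤ t → ∀ᵐ ω ∂P, X n t ω ≤ X (n + 1) t ω) {t : ℝ} (ht : 0 ≤ t) (x : ℤ) :
    ∫⁻ ω, ENNReal.ofReal (g (limX X t ω x)) ∂P = ⨆ n, ENNReal.ofReal (∫ ω, g (X n t ω x) ∂P) := by
  have hnn : ∀ n, 0 ≤ g n := fun n => hg0 ▸ hg (Nat.zero_le n)
  have h1 := bdd hlim hg hg0 hη hX hmono ht
  have h2 : ∀ᵐ ω ∂P, ENNReal.ofReal (g (limX X t ω x)) =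
      ⨆ n, ENNReal.ofReal (g (X n t ω x)) := by
    filter_upwards [h1] with ω hω
    obtain ⟨h3, h4⟩ := eventually_lim hω.1 (hω.2 x)
    refine le_antisymm ?_ (iSup_le fun n => ENNReal.ofReal_le_ofReal (hg (h3 n)))
    obtain ⟨n, hn⟩ := h4.exists
    rw [← hn]
    exact le_iSup (fun n => ENNReal.ofReal (g (X n t ω x))) n
  rw [lintegral_congr_ae h2, lintegral_iSup_ae]
  · refine iSup_congr fun n => ?_
    rw [ofReal_integral_eq_lintegral_ofReal (int_g hg hg0 (hX n) x ht)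
      (Eventually.of_forall fun ω => hnn _)]
  · exact fun n => meas_comp (hX n) (fun η : Cfg => ENNReal.ofReal (g (η x))) t
  · intro n
    filter_upwards [h1] with ω hω
    exact ENNReal.ofReal_le_ofReal (hg (hω.1 n x))

/-- the mean number of jumps out of a site is finite -/
theorem rate_finite (hlim : Tendsto g atTop atTop) (hg : Monotone g) (hg0 : g 0 = 0) {C₀ : ℕ}
    (hη : ∀ n : ℕ, ∑ x ∈ Finset.Icc (-(n : ℤ)) n, η₀ x ≤ C₀ * (2 * n + 1))
    (hX : ∀ n, IsZeroRange P g (trunc η₀ n) (X n))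
    (hmono : ∀ n t, 0 ≤ t → ∀ᵐ ω ∂P, X n t ω ≤ X (n + 1) t ω) {t : ℝ} (ht : 0 ≤ t) (x : ℤ) :
    AEMeasurable (fun u => ∫⁻ ω, ENNReal.ofReal (g (limX X u ω x)) ∂P)
      (volume.restrict (Set.Icc 0 t)) ∧
    ∫⁻ u in Set.Icc 0 t, ∫⁻ ω, ENNReal.ofReal (g (limX X u ω x)) ∂P < ∞ := by
  have hnn : ∀ n, 0 ≤ g n := fun n => hg0 ▸ hg (Nat.zero_le n)
  have h1 : (fun u => ∫⁻ ω, ENNReal.ofReal (g (limX X u ω x)) ∂P) =ᵐ[volume.restrict (Set.Icc 0 t)]
      fun u => ⨆ n, ENNReal.ofReal (∫ ω, g (X n u ω x) ∂P) := by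
    filter_upwards [ae_restrict_mem measurableSet_Icc] with u hu
    exact rate_sup hlim hg hg0 hη hX hmono hu.1 x
  have hsub : Set.Icc (0 : ℝ) t ⊆ Set.Ici 0 := fun _ h => h.1
  have hcont : ∀ n, ContinuousOn (fun u => ∫ ω, g (X n u ω x) ∂P) (Set.Icc 0 t) := fun n =>
    (cont_g hg hg0 (hX n) x).mono hsub
  have hmeas : ∀ n, AEMeasurable (fun u => ENNReal.ofReal (∫ ω, g (X n u ω x) ∂P))
      (volume.restrict (Set.Icc 0 t)) := fun n =>
    ((hcont n).aemeasurable measurableSet_Icc).ennreal_ofReal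
  refine ⟨(AEMeasurable.iSup hmeas).congr h1.symm, ?_⟩
  rw [lintegral_congr_ae h1, lintegral_iSup' hmeas]
  · obtain ⟨B, hB, hb⟩ := occupation_site (P := P) hlim hg hg0 hη x
    refine lt_of_le_of_lt (iSup_le fun n => ?_) (ENNReal.ofReal_lt_top (r := Real.exp t * B))
    have h2 := hb n (X n) (hX n) t ht
    rw [intervalIntegral.integral_of_le ht, ← integral_Icc_eq_integral_Ioc] at h2
    rw [← ofReal_integral_eq_lintegral_ofReal ((hcont n).integrableOn_compact isCompact_Icc)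
      (Eventually.of_forall fun u => integral_nonneg fun ω => hnn _)]
    exact ENNReal.ofReal_le_ofReal h2
  · filter_upwards [ae_restrict_mem measurableSet_Icc] with u hu
    refine monotone_nat_of_le_succ fun n => ENNReal.ofReal_le_ofReal ?_
    refine integral_mono_ae (int_g hg hg0 (hX n) x hu.1) (int_g hg hg0 (hX (n + 1)) x hu.1) ?_
    filter_upwards [hmono n u hu.1] with ω hω
    exact hg (hω x)

/-- **The integrated forward equation.** -/
theorem forward_eq (hlim : Tendsto g atTop atTop) (hg : Monotone g) (hg0 : g 0 = 0) {C₀ : ℕ}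
    (hη : ∀ n : ℕ, ∑ x ∈ Finset.Icc (-(n : ℤ)) n, η₀ x ≤ C₀ * (2 * n + 1))
    (hX : ∀ n, IsZeroRange P g (trunc η₀ n) (X n))
    (hmono : ∀ n t, 0 ≤ t → ∀ᵐ ω ∂P, X n t ω ≤ X (n + 1) t ω) {f : (ℤ → ℕ) → ℝ}
    (hf : IsLocal f) {C : ℝ} (hC : ∀ η, |f η| ≤ C) {t : ℝ} (ht : 0 ≤ t) :
    (∀ᵐ u ∂(volume.restrict (Set.Icc 0 t)), Integrable (fun ω => genI g f (limX X u ω)) P) ∧
    IntervalIntegrable (fun u => ∫ ω, genI g f (limX X u ω) ∂P) volume 0 t ∧
    ∫ ω, f (limX X t ω) ∂P = f η₀ + ∫ u in (0 : ℝ)..t, ∫ ω, genI g f (limX X u ω) ∂P := by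
  have hnn : ∀ n, 0 ≤ g n := fun n => hg0 ▸ hg (Nat.zero_le n)
  have hC0 : 0 ≤ C := (abs_nonneg _).trans (hC η₀)
  obtain ⟨A, hA⟩ := hf
  set b : ℤ → ℝ → ℝ≥0∞ := fun x u => ∫⁻ ω, ENNReal.ofReal (g (limX X u ω x)) ∂P with hb
  have hfin := fun x => rate_finite hlim hg hg0 hη hX hmono ht x
  have hae : ∀ᵐ u ∂(volume.restrict (Set.Icc 0 t)), 0 ≤ u ∧ ∀ x ∈ nb A, b x u < ∞ := by
    have h1 : ∀ᵐ u ∂(volume.restrict (Set.Icc 0 t)), ∀ x : ℤ, b x u < ∞ := by
      rw [ae_all_iff]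
      exact fun x => ae_lt_top' (hfin x).1 (hfin x).2.ne
    filter_upwards [h1, ae_restrict_mem measurableSet_Icc] with u hu hu2
    exact ⟨hu2.1, fun x _ => hu x⟩
  -- measurability of functions of the limit
  have hlimmeas : ∀ {u : ℝ}, 0 ≤ u → ∀ (F : (ℤ → ℕ) → ℝ),
      (∀ η ξ : ℤ → ℕ, (∀ x ∈ nb A, η x = ξ x) → F η = F ξ) →
      AEStronglyMeasurable (fun ω => F (limX X u ω)) P ∧
      ∀ᵐ ω ∂P, ∀ᶠ n in atTop, F (X n u ω) = F (limX X u ω) := by
    intro u hu F hF
    have h2 : ∀ᵐ ω ∂P, ∀ᶠ n in atTop, F (X n u ω) = F (limX X u ω) := by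
      filter_upwards [bdd hlim hg hg0 hη hX hmono hu] with ω hω
      have h3 : ∀ᶠ n in atTop, ∀ x ∈ nb A, X n u ω x = limX X u ω x := by
        rw [Filter.eventually_all_finset]
        exact fun x _ => (eventually_lim hω.1 (hω.2 x)).2
      filter_upwards [h3] with n hn
      exact hF _ _ hn
    refine ⟨?_, h2⟩
    refine aestronglyMeasurable_of_tendsto_ae atTop (f := fun n ω => F (X n u ω)) (fun n => ?_) ?_
    · exact (meas_comp (hX n) (fun η : Cfg => F η) u).aestronglyMeasurable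
    · filter_upwards [h2] with ω hω
      exact tendsto_const_nhds.congr' (hω.mono fun n hn => hn.symm)
  -- the dominating function
  have hdom : ∀ {u : ℝ}, 0 ≤ u → (∀ x ∈ nb A, b x u < ∞) →
      Integrable (fun ω => ∑ x ∈ nb A, g (limX X u ω x) * (2 * C)) P ∧
      ∫ ω, ∑ x ∈ nb A, g (limX X u ω x) * (2 * C) ∂P = ∑ x ∈ nb A, (b x u).toReal * (2 * C) := by
    intro u hu hbu
    have h3 : ∀ x ∈ nb A, Integrable (fun ω => g (limX X u ω x)) P := by
      intro x hx
      refine ⟨(hlimmeas hu (fun η => g (η x)) fun η ξ h => by rw [h x hx]).1, ?_⟩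
      rw [hasFiniteIntegral_iff_norm]
      refine lt_of_le_of_lt (le_of_eq ?_) (hbu x hx)
      refine lintegral_congr fun ω => ?_
      rw [Real.norm_of_nonneg (hnn _)]
    refine ⟨integrable_finsetSum _ fun x hx => (h3 x hx).mul_const _, ?_⟩
    rw [integral_finsetSum _ fun x hx => (h3 x hx).mul_const _]
    refine Finset.sum_congr rfl fun x hx => ?_
    rw [integral_mul_const]
    congr 1
    rw [integral_eq_lintegral_of_nonneg_ae (Eventually.of_forall fun ω => hnn _) (h3 x hx).1]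
  -- pointwise bound
  have hle : ∀ {u : ℝ}, 0 ≤ u → ∀ n, ∀ᵐ ω ∂P, |genI g f (X n u ω)| ≤
      ∑ x ∈ nb A, g (limX X u ω x) * (2 * C) := by
    intro u hu n
    filter_upwards [bdd hlim hg hg0 hη hX hmono hu] with ω hω
    refine (genI_bound hnn hA hC _).trans (Finset.sum_le_sum fun x _ => ?_)
    refine mul_le_mul_of_nonneg_right (hg ?_) (by linarith)
    exact (eventually_lim hω.1 (hω.2 x)).1 n
  have hgenlim : ∀ {u : ℝ}, 0 ≤ u → (∀ x ∈ nb A, b x u < ∞) →
      Integrable (fun ω => genI g f (limX X u ω)) P ∧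
      Tendsto (fun n => ∫ ω, genI g f (X n u ω) ∂P) atTop (𝓝 (∫ ω, genI g f (limX X u ω) ∂P)) ∧
      ∀ n, |∫ ω, genI g f (X n u ω) ∂P| ≤ ∑ x ∈ nb A, (b x u).toReal * (2 * C) := by
    intro u hu hbu
    obtain ⟨hd1, hd2⟩ := hdom hu hbu
    obtain ⟨hm1, hm2⟩ := hlimmeas hu (genI g f) fun η ξ h => genI_congr hA h
    refine ⟨?_, ?_, ?_⟩
    · refine hd1.mono' hm1 (Eventually.of_forall fun ω => ?_)
      exact genI_bound hnn hA hC _
    · refine tendsto_integral_of_dominated_convergence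
        (fun ω => ∑ x ∈ nb A, g (limX X u ω x) * (2 * C)) (fun n => ?_) hd1 (fun n => hle hu n) ?_
      · exact (meas_comp (hX n) (fun η : Cfg => genI g f η) u).aestronglyMeasurable
      · filter_upwards [hm2] with ω hω
        exact tendsto_const_nhds.congr' (hω.mono fun n hn => hn.symm)
    · intro n
      rw [← hd2]
      refine (abs_integral_le_integral_abs).trans ?_
      refine integral_mono_ae ?_ hd1 (hle hu n)
      refine (hd1.mono' (meas_comp (hX n) (fun η : Cfg => genI g f η) u).aestronglyMeasurable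
        (hle hu n)).abs
  -- the dominating function in time
  have hbound : IntegrableOn (fun u => ∑ x ∈ nb A, (b x u).toReal * (2 * C)) (Set.Icc 0 t) := by
    refine integrable_finsetSum _ fun x _ => ?_
    exact (integrable_toReal_of_lintegral_ne_top (hfin x).1 (hfin x).2.ne).mul_const _
  have hsub : Set.Icc (0 : ℝ) t ⊆ Set.Ici 0 := fun _ h => h.1
  have hduh := fun n => duhamel (f := fun η : Cfg => f η) hg hg0 (hX n) (C := C)
    (fun η _ => hC _) ht
  simp_rw [gen_coe hg0] at hduh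
  have hmeas : ∀ n, AEStronglyMeasurable (fun u => ∫ ω, genI g f (X n u ω) ∂P)
      (volume.restrict (Set.Icc 0 t)) := fun n =>
    ((hduh n).1.mono hsub).aestronglyMeasurable measurableSet_Icc
  have hlimu : ∀ᵐ u ∂(volume.restrict (Set.Icc 0 t)),
      Tendsto (fun n => ∫ ω, genI g f (X n u ω) ∂P) atTop (𝓝 (∫ ω, genI g f (limX X u ω) ∂P)) := by
    filter_upwards [hae] with u hu
    exact (hgenlim hu.1 hu.2).2.1
  have hint : IntegrableOn (fun u => ∫ ω, genI g f (limX X u ω) ∂P) (Set.Icc 0 t) := by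
    refine Integrable.mono' hbound (aestronglyMeasurable_of_tendsto_ae atTop hmeas hlimu) ?_
    filter_upwards [hae, hlimu] with u hu hu2
    refine le_of_tendsto hu2.norm (Eventually.of_forall fun n => ?_)
    exact (hgenlim hu.1 hu.2).2.2 n
  refine ⟨?_, ?_, ?_⟩
  · filter_upwards [hae] with u hu
    exact (hgenlim hu.1 hu.2).1
  · rw [intervalIntegrable_iff_integrableOn_Icc_of_le ht]
    exact hint
  · -- pass to the limit
    have hright : Tendsto (fun n => ∫ u in (0 : ℝ)..t, ∫ ω, genI g f (X n u ω) ∂P) atTop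
        (𝓝 (∫ u in (0 : ℝ)..t, ∫ ω, genI g f (limX X u ω) ∂P)) := by
      simp_rw [intervalIntegral.integral_of_le ht, ← integral_Icc_eq_integral_Ioc]
      refine tendsto_integral_of_dominated_convergence _ hmeas hbound (fun n => ?_) hlimu
      filter_upwards [hae] with u hu
      exact (hgenlim hu.1 hu.2).2.2 n
    have hleft : Tendsto (fun n => ∫ ω, f (X n t ω) ∂P) atTop (𝓝 (∫ ω, f (limX X t ω) ∂P)) := by
      have hsubA : A ⊆ nb A := fun x hx => Finset.mem_union_left _ (Finset.mem_union_left _ hx)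
      obtain ⟨hm1, hm2⟩ := hlimmeas ht f fun η ξ h => hA η ξ fun x hx => h x (hsubA hx)
      refine tendsto_integral_of_dominated_convergence (fun _ => C) (fun n => ?_)
        (integrable_const _) (fun n => Eventually.of_forall fun ω => hC _) ?_
      · exact (meas_comp (hX n) (fun η : Cfg => f η) t).aestronglyMeasurable
      · filter_upwards [hm2] with ω hω
        exact tendsto_const_nhds.congr' (hω.mono fun n hn => hn.symm)
    have hinit : Tendsto (fun n => f (trunc η₀ n)) atTop (𝓝 (f η₀)) := by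
      obtain ⟨m, hm⟩ : ∃ m : ℕ, ∀ x ∈ A, |x| ≤ m := by
        refine ⟨∑ x ∈ A, x.natAbs, fun x hx => ?_⟩
        have := Finset.single_le_sum (f := fun x : ℤ => x.natAbs) (fun _ _ => Nat.zero_le _) hx
        rw [Int.abs_eq_natAbs]
        exact_mod_cast this
      refine tendsto_const_nhds.congr' ?_
      filter_upwards [eventually_ge_atTop m] with n hn
      refine hA _ _ fun x hx => ?_
      rw [trunc_apply, if_pos]
      rw [Finset.mem_Icc]
      have := abs_le.1 (hm x hx)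
      constructor <;> omega
    refine tendsto_nhds_unique hleft ?_
    refine (hinit.add hright).congr fun n => ?_
    exact (hduh n).2.symm

end Pool.Agent.K7.H98.ZR
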