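import Pool.Agent.K7.H98.ZR1

/-!
# The discounted occupation function of the zero-range process: monotonicity and convexity
-/

set_option autoImplicit false

namespace Pool.Agent.K7.H98.ZR

open Finset Filter Topology

/-- one step of the iteration for `(1 - L)⁻¹ h` -/
noncomputable def T (g : ℕ → ℝ) (lam : ℝ) (h F : Cfg → ℝ) (η : Cfg) : ℝ :=
  (h η + lam * F η + gen g F η) / (1 + lam)

/-- the iteration -/
noncomputable def It (g : ℕ → ℝ) (lam : ℝ) (h : Cfg → ℝ) : ℕ → Cfg → ℝ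
  | 0 => fun _ => 0
  | k + 1 => T g lam h (It g lam h k)

/-- hypotheses on the rate function and on the uniformization constant for at most `N` particles -/
structure Good (g : ℕ → ℝ) (N : ℕ) (lam : ℝ) : Prop where
  zero : g 0 = 0
  mono : Monotone g
  lam : (N : ℝ) * g N ≤ lam

variable {g : ℕ → ℝ} {N : ℕ} {lam : ℝ}

theorem Good.nn (H : Good g N lam) (n : ℕ) : 0 ≤ g n := H.zero ▸ H.mono (Nat.zero_le n)

theorem Good.lam_nn (H : Good g N lam) : 0 ≤ lam :=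
  (mul_nonneg (Nat.cast_nonneg _) (H.nn N)).trans H.lam

theorem Good.of_le (H : Good g N lam) {M : ℕ} (h : M ≤ N) : Good g M lam := by
  refine ⟨H.zero, H.mono, le_trans ?_ H.lam⟩
  have h1 := H.nn M
  have h2 := H.mono h
  have h3 : (M : ℝ) ≤ N := by exact_mod_cast h
  have h4 : (0 : ℝ) ≤ M := Nat.cast_nonneg _
  nlinarith

theorem Good.rate_le (H : Good g N lam) {ζ : Cfg} (h : ζ.degree ≤ N) : rate g ζ ≤ lam :=
  (ZR.rate_le H.zero H.mono ζ).trans (H.of_le h).lam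

theorem Good.rate_add_le (H : Good g N lam) {ζ : Cfg} (h : ζ.degree < N) (y : ℤ) :
    rate g ζ + rr g ζ y ≤ lam :=
  (ZR.rate_add_le H.zero H.mono ζ y).trans (H.of_le (M := ζ.degree + 1) h).lam

theorem rr_nn (H : Good g N lam) (ζ : Cfg) (y : ℤ) : 0 ≤ rr g ζ y :=
  sub_nonneg.2 (H.mono (Nat.le_succ _))

/-- bounds -/
theorem It_nn (H : Good g N lam) {h : Cfg → ℝ} {n : ℕ} (hn : n ≤ N)
    (h0 : ∀ ζ : Cfg, ζ.degree = n → 0 ≤ h ζ) (k : ℕ) :
    ∀ ζ : Cfg, ζ.degree = n → 0 ≤ It g lam h k ζ := by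
  induction k with
  | zero => intro ζ _; exact le_refl _
  | succ k ih =>
    intro ζ hζ
    show 0 ≤ (h ζ + lam * It g lam h k ζ + gen g (It g lam h k) ζ) / (1 + lam)
    have h1 := gen_pos H.nn (H.rate_le (hζ ▸ hn)) (ih ζ hζ)
      (fun x => ih _ (by rw [degree_move, hζ])) (fun x => ih _ (by rw [degree_move, hζ]))
    have h2 := H.lam_nn
    have h3 := h0 ζ hζ
    apply div_nonneg <;> linarith

theorem It_le (H : Good g N lam) {h : Cfg → ℝ} {n : ℕ} (hn : n ≤ N) {C : ℝ} (hC : 0 ≤ C)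
    (h0 : ∀ ζ : Cfg, ζ.degree = n → h ζ ≤ C) (k : ℕ) :
    ∀ ζ : Cfg, ζ.degree = n → It g lam h k ζ ≤ C := by
  induction k with
  | zero => intro ζ _; exact hC
  | succ k ih =>
    intro ζ hζ
    show (h ζ + lam * It g lam h k ζ + gen g (It g lam h k) ζ) / (1 + lam) ≤ C
    have h1 := gen_pos (f := fun ζ => C - It g lam h k ζ) H.nn (H.rate_le (hζ ▸ hn))
      (sub_nonneg.2 (ih ζ hζ))
      (fun x => sub_nonneg.2 (ih _ (by rw [degree_move, hζ])))
      (fun x => sub_nonneg.2 (ih _ (by rw [degree_move, hζ])))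
    rw [gen_sub g (fun _ => C) (It g lam h k) ζ, gen_const] at h1
    have h2 := H.lam_nn
    have h3 := h0 ζ hζ
    rw [div_le_iff₀ (by linarith)]
    linarith

/-- the iteration is increasing -/
theorem It_mono (H : Good g N lam) {h : Cfg → ℝ} {n : ℕ} (hn : n ≤ N)
    (h0 : ∀ ζ : Cfg, ζ.degree = n → 0 ≤ h ζ) (k : ℕ) :
    ∀ ζ : Cfg, ζ.degree = n → It g lam h k ζ ≤ It g lam h (k + 1) ζ := by
  induction k with
  | zero => intro ζ hζ; exact It_nn H hn h0 1 ζ hζ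
  | succ k ih =>
    intro ζ hζ
    show (h ζ + lam * It g lam h k ζ + gen g (It g lam h k) ζ) / (1 + lam) ≤
      (h ζ + lam * It g lam h (k + 1) ζ + gen g (It g lam h (k + 1)) ζ) / (1 + lam)
    have h1 := gen_pos (f := fun ζ => It g lam h (k + 1) ζ - It g lam h k ζ) H.nn
      (H.rate_le (hζ ▸ hn)) (sub_nonneg.2 (ih ζ hζ))
      (fun x => sub_nonneg.2 (ih _ (by rw [degree_move, hζ])))
      (fun x => sub_nonneg.2 (ih _ (by rw [degree_move, hζ])))
    rw [gen_sub] at h1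
    have h2 := H.lam_nn
    gcongr ?_ / _
    linarith

theorem gen_congr {f f' : Cfg → ℝ} {n : ℕ} (h : ∀ ζ : Cfg, ζ.degree = n → f ζ = f' ζ) {ζ : Cfg}
    (hζ : ζ.degree = n) : gen g f ζ = gen g f' ζ := by
  unfold gen
  refine Finset.sum_congr rfl fun x _ => ?_
  rw [h _ (by rw [degree_move, hζ]), h _ (by rw [degree_move, hζ]), h ζ hζ]

theorem It_congr {h h' : Cfg → ℝ} {n : ℕ} (hh : ∀ ζ : Cfg, ζ.degree = n → h ζ = h' ζ) (k : ℕ) :
    ∀ ζ : Cfg, ζ.degree = n → It g lam h k ζ = It g lam h' k ζ := by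
  induction k with
  | zero => intro ζ _; rfl
  | succ k ih =>
    intro ζ hζ
    show (h ζ + lam * It g lam h k ζ + gen g (It g lam h k) ζ) / (1 + lam) =
      (h' ζ + lam * It g lam h' k ζ + gen g (It g lam h' k) ζ) / (1 + lam)
    rw [hh ζ hζ, ih ζ hζ, gen_congr ih hζ]

theorem D_T (H : Good g N lam) (h F : Cfg → ℝ) (y : ℤ) (ζ : Cfg) :
    D (T g lam h F) y ζ = (D h y ζ + lam * D F y ζ + (gen g (D F y) ζ +
      rr g ζ y * ((D F (y + 1) ζ + D F (y - 1) ζ) / 2 - D F y ζ))) / (1 + lam) := by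
  rw [← gen_D H.zero]
  unfold D T
  ring

/-- attractiveness -/
theorem It_D (H : Good g N lam) {h : Cfg → ℝ} {n : ℕ} (hn : n < N)
    (h0 : ∀ (ζ : Cfg) (y : ℤ), ζ.degree = n → 0 ≤ D h y ζ) (k : ℕ) :
    ∀ (ζ : Cfg) (y : ℤ), ζ.degree = n → 0 ≤ D (It g lam h k) y ζ := by
  induction k with
  | zero => intro ζ y _; show 0 ≤ (0 : ℝ) - 0; norm_num
  | succ k ih =>
    intro ζ y hζ
    show 0 ≤ D (T g lam h (It g lam h k)) y ζ
    rw [D_T H]
    have h1 := gen_pos (f := D (It g lam h k) y) (lam := lam - rr g ζ y) H.nn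
      (by linarith [H.rate_add_le (hζ ▸ hn) y]) (ih ζ y hζ)
      (fun x => ih _ _ (by rw [degree_move, hζ])) (fun x => ih _ _ (by rw [degree_move, hζ]))
    have h2 := H.lam_nn
    have h3 := h0 ζ y hζ
    have h4 := mul_nonneg (rr_nn H ζ y)
      (by linarith [ih ζ (y + 1) hζ, ih ζ (y - 1) hζ] :
        0 ≤ (D (It g lam h k) (y + 1) ζ + D (It g lam h k) (y - 1) ζ) / 2)
    apply div_nonneg _ (by linarith)
    nlinarith

/-- the number of jumps from the origin has rate `g0` -/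
def g0 (g : ℕ → ℝ) (η : Cfg) : ℝ := g (η 0)

/-- `|y| + D F y ζ`: mean distance to the origin of a second class particle -/
noncomputable def Hh (F : Cfg → ℝ) (y : ℤ) (ζ : Cfg) : ℝ := |(y : ℝ)| + D F y ζ

/-- second difference -/
noncomputable def Ww (F : Cfg → ℝ) (y : ℤ) (ζ : Cfg) : ℝ :=
  Hh F (y + 1) ζ + Hh F (y - 1) ζ - 2 * Hh F y ζ

theorem D_g0 (y : ℤ) (ζ : Cfg) : D (g0 g) y ζ = if y = 0 then rr g ζ y else 0 := by
  unfold D g0 rr
  rw [Finsupp.add_apply, e_apply]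
  split_ifs with h
  · subst h; rfl
  · rw [add_zero, sub_self]

theorem abs_second (y : ℤ) : |((y + 1 : ℤ) : ℝ)| + |((y - 1 : ℤ) : ℝ)| - 2 * |(y : ℝ)| =
    if y = 0 then 2 else 0 := by
  rcases lt_trichotomy y 0 with h | h | h
  · rw [if_neg h.ne]
    have h1 : ((y + 1 : ℤ) : ℝ) ≤ 0 := by exact_mod_cast (by omega : y + 1 ≤ 0)
    have h2 : ((y - 1 : ℤ) : ℝ) ≤ 0 := by exact_mod_cast (by omega : y - 1 ≤ 0)
    have h3 : (y : ℝ) ≤ 0 := by exact_mod_cast h.le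
    rw [abs_of_nonpos h1, abs_of_nonpos h2, abs_of_nonpos h3]
    push_cast
    ring
  · subst h
    norm_num
  · rw [if_neg h.ne']
    have h1 : (0 : ℝ) ≤ ((y + 1 : ℤ) : ℝ) := by exact_mod_cast (by omega : 0 ≤ y + 1)
    have h2 : (0 : ℝ) ≤ ((y - 1 : ℤ) : ℝ) := by exact_mod_cast (by omega : 0 ≤ y - 1)
    have h3 : (0 : ℝ) ≤ (y : ℝ) := by exact_mod_cast h.le
    rw [abs_of_nonneg h1, abs_of_nonneg h2, abs_of_nonneg h3]
    push_cast
    ring

theorem Hh_T (H : Good g N lam) (F : Cfg → ℝ) (y : ℤ) (ζ : Cfg) :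
    Hh (T g lam (g0 g) F) y ζ = (|(y : ℝ)| + lam * Hh F y ζ + gen g (Hh F y) ζ +
      rr g ζ y * (Ww F y ζ / 2)) / (1 + lam) := by
  have h1 : gen g (Hh F y) ζ = gen g (D F y) ζ := by
    show gen g (fun ζ => |(y : ℝ)| + D F y ζ) ζ = _
    rw [gen_add', gen_const, zero_add]
  have h2 := abs_second y
  have h3 : 1 + lam ≠ 0 := by linarith [H.lam_nn]
  unfold Ww
  rw [h1]
  unfold Hh
  rw [D_T H, D_g0]
  rw [eq_div_iff h3, add_mul, div_mul_cancel₀ _ h3]
  split_ifs at h2 ⊢ with h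
  · linear_combination (-(rr g ζ y) / 2) * h2
  · linear_combination (-(rr g ζ y) / 2) * h2

theorem gen_Ww (F : Cfg → ℝ) (y : ℤ) (ζ : Cfg) : gen g (Ww F y) ζ =
    gen g (Hh F (y + 1)) ζ + gen g (Hh F (y - 1)) ζ - 2 * gen g (Hh F y) ζ := by
  unfold Ww gen
  rw [Finset.mul_sum, ← Finset.sum_add_distrib, ← Finset.sum_sub_distrib]
  refine Finset.sum_congr rfl fun x _ => ?_
  ring

/-- convexity of the mean distance to the origin of a second class particle in its starting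
point -/
theorem It_W (H : Good g N lam) {n : ℕ} (hn : n < N) (k : ℕ) :
    ∀ (ζ : Cfg) (y : ℤ), ζ.degree = n → 0 ≤ Ww (It g lam (g0 g) k) y ζ := by
  induction k with
  | zero =>
    intro ζ y _
    have : Ww (It g lam (g0 g) 0) y ζ = |((y + 1 : ℤ) : ℝ)| + |((y - 1 : ℤ) : ℝ)| - 2 * |(y : ℝ)| := by
      unfold Ww Hh D
      show |((y + 1 : ℤ) : ℝ)| + (0 - 0) + (|((y - 1 : ℤ) : ℝ)| + (0 - 0)) -
        2 * (|(y : ℝ)| + (0 - 0)) = _
      ring
    rw [this, abs_second]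
    split_ifs <;> norm_num
  | succ k ih =>
    intro ζ y hζ
    set F := It g lam (g0 g) k with hF
    show 0 ≤ Ww (T g lam (g0 g) F) y ζ
    have e1 : Ww (T g lam (g0 g) F) y ζ =
        ((|((y + 1 : ℤ) : ℝ)| + |((y - 1 : ℤ) : ℝ)| - 2 * |(y : ℝ)|) + lam * Ww F y ζ +
          gen g (Ww F y) ζ + (rr g ζ (y + 1) * Ww F (y + 1) ζ +
          rr g ζ (y - 1) * Ww F (y - 1) ζ) / 2 - rr g ζ y * Ww F y ζ) / (1 + lam) := by
      rw [gen_Ww]
      conv_lhs => unfold Ww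
      rw [Hh_T H, Hh_T H, Hh_T H]
      conv_rhs => rw [show Ww F y ζ = Hh F (y + 1) ζ + Hh F (y - 1) ζ - 2 * Hh F y ζ from rfl]
      rw [show Ww F y ζ = Hh F (y + 1) ζ + Hh F (y - 1) ζ - 2 * Hh F y ζ from rfl]
      ring
    rw [e1, abs_second]
    have h1 := gen_pos (f := Ww F y) (lam := lam - rr g ζ y) H.nn
      (by linarith [H.rate_add_le (hζ ▸ hn) y]) (ih ζ y hζ)
      (fun x => ih _ _ (by rw [degree_move, hζ])) (fun x => ih _ _ (by rw [degree_move, hζ]))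
    have h2 := H.lam_nn
    have h3 := mul_nonneg (rr_nn H ζ (y + 1)) (ih ζ (y + 1) hζ)
    have h4 := mul_nonneg (rr_nn H ζ (y - 1)) (ih ζ (y - 1) hζ)
    have h5 : (0 : ℝ) ≤ if y = 0 then 2 else 0 := by split_ifs <;> norm_num
    apply div_nonneg _ (by linarith)
    nlinarith

end Pool.Agent.K7.H98.ZR
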