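import Pool.Agent.K7.H98.ZR2

/-!
# Moving one particle: consequences of the convexity
-/

set_option autoImplicit false

namespace Pool.Agent.K7.H98.ZR

open Finset Filter Topology

/-- discrete maximum principle for convex functions -/
theorem max_principle (F : ℤ → ℝ) {a b : ℤ}
    (hF : ∀ y, a < y → y < b → 0 ≤ F (y + 1) + F (y - 1) - 2 * F y) {x : ℤ} (hax : a ≤ x)
    (hxb : x ≤ b) : F x ≤ max (F a) (F b) := by
  by_contra hcon
  push Not at hcon
  have hne : (Finset.Icc a b).Nonempty := ⟨x, Finset.mem_Icc.2 ⟨hax, hxb⟩⟩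
  obtain ⟨m, hm, hmax⟩ := Finset.exists_max_image (Finset.Icc a b) F hne
  -- the smallest maximiser
  obtain ⟨y, hy, hymin⟩ := Finset.exists_min_image ((Finset.Icc a b).filter fun y => F y = F m) id
    ⟨m, Finset.mem_filter.2 ⟨hm, rfl⟩⟩
  rw [Finset.mem_filter, Finset.mem_Icc] at hy
  have hxm : F x ≤ F m := hmax x (Finset.mem_Icc.2 ⟨hax, hxb⟩)
  have hay : a < y := by
    rcases lt_or_eq_of_le hy.1.1 with h | h
    · exact h
    · subst h
      have := le_max_left (F a) (F b)
      linarith [hy.2]
  have hyb : y < b := by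
    rcases lt_or_eq_of_le hy.1.2 with h | h
    · exact h
    · subst h
      have := le_max_right (F a) (F y)
      linarith [hy.2]
  have h1 : F (y + 1) ≤ F m := hmax _ (Finset.mem_Icc.2 ⟨by omega, by omega⟩)
  have h2 : F (y - 1) ≤ F m := hmax _ (Finset.mem_Icc.2 ⟨by omega, by omega⟩)
  have h3 : F (y - 1) ≠ F m := by
    intro h
    have := hymin (y - 1) (Finset.mem_filter.2 ⟨Finset.mem_Icc.2 ⟨by omega, by omega⟩, h⟩)
    simp only [id] at this
    omega
  have h4 := hF y hay hyb
  have h5 : F (y - 1) < F m := lt_of_le_of_ne h2 h3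
  rw [hy.2] at h4
  linarith

variable {g : ℕ → ℝ} {N : ℕ} {lam : ℝ}

/-- moving a particle, on one side of the origin -/
theorem topple_side (H : Good g N lam) (k : ℕ) {ζ : Cfg} (hζ : ζ.degree < N) {a b x : ℤ}
    (hax : a ≤ x) (hxb : x ≤ b) (h0 : 0 ≤ a ∨ b ≤ 0) :
    It g lam (g0 g) k (ζ + e x) ≤
      max (It g lam (g0 g) k (ζ + e a)) (It g lam (g0 g) k (ζ + e b)) := by
  refine max_principle (fun y => It g lam (g0 g) k (ζ + e y)) (fun y hy1 hy2 => ?_) hax hxb
  have h1 := It_W H hζ k ζ y rfl
  have hy0 : y ≠ 0 := by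
    rcases h0 with h | h <;> omega
  have h2 := abs_second y
  rw [if_neg hy0] at h2
  unfold Ww Hh D at h1
  linarith

/-- moving a particle across the origin -/
theorem topple (H : Good g N lam) (k : ℕ) {ζ : Cfg} (hζ : ζ.degree < N) {a b x : ℤ}
    (hax : a ≤ x) (hxb : x ≤ b) {R : ℝ} (ha : |(a : ℝ)| ≤ R) (hb : |(b : ℝ)| ≤ R) :
    It g lam (g0 g) k (ζ + e x) ≤
      max (It g lam (g0 g) k (ζ + e a)) (It g lam (g0 g) k (ζ + e b)) + R := by
  have h1 := max_principle (fun y => Hh (It g lam (g0 g) k) y ζ)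
    (fun y _ _ => It_W H hζ k ζ y rfl) hax hxb
  unfold Hh D at h1
  have h2 := abs_nonneg (x : ℝ)
  rcases le_max_iff.1 h1 with h | h
  · have := le_max_left (It g lam (g0 g) k (ζ + e a)) (It g lam (g0 g) k (ζ + e b))
    linarith
  · have := le_max_right (It g lam (g0 g) k (ζ + e a)) (It g lam (g0 g) k (ζ + e b))
    linarith

/-- dyadic interval `(2^l, 2^(l+1)]`, or its reflection -/
noncomputable def J (s : Bool) (l : ℕ) : Finset ℤ :=
  if s then Finset.Ioc (2 ^ l) (2 ^ (l + 1)) else Finset.Ico (-(2 ^ (l + 1))) (-(2 ^ l))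

theorem mem_J {s : Bool} {l : ℕ} {x : ℤ} : x ∈ J s l ↔
    (s = true ∧ 2 ^ l < x ∧ x ≤ 2 ^ (l + 1)) ∨ (s = false ∧ -(2 ^ (l + 1)) ≤ x ∧ x < -(2 ^ l)) := by
  unfold J
  cases s
  · simp
  · simp

theorem abs_of_mem_J {s : Bool} {l : ℕ} {x : ℤ} (h : x ∈ J s l) :
    2 ^ l < |x| ∧ |x| ≤ 2 ^ (l + 1) := by
  have h2 : (0 : ℤ) < 2 ^ l := by positivity
  rcases mem_J.1 h with ⟨_, h1, h3⟩ | ⟨_, h1, h3⟩
  · rw [abs_of_pos (by omega)]
    exact ⟨h1, h3⟩
  · rw [abs_of_neg (by omega)]
    constructor <;> omega

theorem J_disj {s s' : Bool} {l l' : ℕ} {x : ℤ} (h : x ∈ J s l) (h' : x ∈ J s' l') :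
    s = s' ∧ l = l' := by
  have h1 := abs_of_mem_J h
  have h2 := abs_of_mem_J h'
  constructor
  · have hp : (0 : ℤ) < 2 ^ l := by positivity
    have hp' : (0 : ℤ) < 2 ^ l' := by positivity
    rcases mem_J.1 h with ⟨hs, h3, _⟩ | ⟨hs, _, h3⟩ <;>
    rcases mem_J.1 h' with ⟨hs', h4, _⟩ | ⟨hs', _, h4⟩
    · rw [hs, hs']
    · omega
    · omega
    · rw [hs, hs']
  · by_contra hne
    rcases Nat.lt_or_gt_of_ne hne with h3 | h3
    · have : (2 : ℤ) ^ (l + 1) ≤ 2 ^ l' := pow_le_pow_right₀ (by norm_num) h3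
      omega
    · have : (2 : ℤ) ^ (l' + 1) ≤ 2 ^ l := pow_le_pow_right₀ (by norm_num) h3
      omega

/-- the configuration with particles at the elements of a list -/
noncomputable def ofList (ps : List ℤ) : Cfg := (ps.map e).sum

theorem ofList_cons (p : ℤ) (ps : List ℤ) : ofList (p :: ps) = e p + ofList ps := by
  unfold ofList
  rw [List.map_cons, List.sum_cons]

/-- number of the positions at distance at most `2^(l+2)` to the origin -/
def cnt (l : ℕ) (ps : List ℤ) : ℕ := ps.countP fun p => decide (|p| ≤ 2 ^ (l + 2))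

/-- number of the positions at distance at most `2` to the origin -/
def inner (ps : List ℤ) : ℕ := ps.countP fun p => decide (|p| ≤ 2)

theorem cnt_cons_of_le {l : ℕ} {p : ℤ} (ps : List ℤ) (h : |p| ≤ 2 ^ (l + 2)) :
    cnt l (p :: ps) = cnt l ps + 1 := by
  unfold cnt
  rw [List.countP_cons_of_pos]
  simpa using h

theorem cnt_le_cons (l : ℕ) (p : ℤ) (ps : List ℤ) : cnt l ps ≤ cnt l (p :: ps) := by
  unfold cnt
  rw [List.countP_cons]
  exact Nat.le_add_right _ _

theorem exists_dyadic {q : ℤ} (hq : 2 < q) : ∃ k : ℕ, 1 ≤ k ∧ 2 ^ k < q ∧ q ≤ 2 ^ (k + 1) := by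
  classical
  have hex : ∃ j : ℕ, q ≤ 2 ^ j := by
    obtain ⟨n, hn⟩ := Int.eq_ofNat_of_zero_le (by omega : 0 ≤ q)
    refine ⟨n, ?_⟩
    rw [hn]
    exact_mod_cast Nat.lt_two_pow_self.le
  have h1 := Nat.find_spec hex
  set j := Nat.find hex with hj
  have h2 : 2 ≤ j := by
    by_contra hcon
    have : j = 0 ∨ j = 1 := by omega
    rcases this with h | h <;> rw [h] at h1 <;> norm_num at h1 <;> omega
  obtain ⟨i, hi⟩ := Nat.exists_eq_add_of_le h2
  refine ⟨i + 1, by omega, ?_, ?_⟩
  · have := Nat.find_min hex (m := i + 1) (by omega)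
    omega
  · rw [hi] at h1
    rwa [show i + 1 + 1 = 2 + i by omega]

/-- **Stabilization.** Particles are moved one after the other to free places below the capacity
`c`; the places in the dyadic intervals are never used up. -/
theorem stabilize (H : Good g N lam) (k : ℕ) (c : ℤ → ℕ) (L : ℕ) (hL1 : 1 ≤ L) {M : ℝ}
    (hM : ∀ S : Cfg, S.degree = N → (∀ x, S x ≤ c x) → It g lam (g0 g) k S ≤ M) :
    ∀ (ps : List ℤ) (S : Cfg), (S + ofList ps).degree = N → (∀ x, S x ≤ c x) →
      (∀ p ∈ ps, |p| ≤ 2 ^ L) →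
      (∀ (s : Bool) (l : ℕ), l ≤ L → ∑ x ∈ J s l, S x + cnt l ps < ∑ x ∈ J s l, c x) →
      It g lam (g0 g) k (S + ofList ps) ≤ M + 4 * inner ps := by
  intro ps
  induction ps with
  | nil =>
    intro S hS hc _ _
    have h1 : ofList [] = 0 := rfl
    rw [h1, add_zero] at hS ⊢
    have h2 : inner [] = 0 := rfl
    rw [h2]
    simpa using hM S hS hc
  | cons p ps ih =>
    intro S hS hc hL hcap
    -- landing at a free place
    have hland : ∀ z : ℤ, S z < c z → (∀ (s : Bool) (l : ℕ), z ∈ J s l → |p| ≤ 2 ^ (l + 2)) →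
        It g lam (g0 g) k (S + ofList ps + e z) ≤ M + 4 * inner ps := by
      intro z hz hzJ
      have e1 : S + ofList ps + e z = (S + e z) + ofList ps := by abel
      rw [e1]
      refine ih (S + e z) ?_ ?_ (fun q hq => hL q (List.mem_cons_of_mem _ hq)) ?_
      · rw [← e1, degree_add_e, ← hS, ofList_cons, show S + (e p + ofList ps) =
          (S + ofList ps) + e p by abel, degree_add_e]
      · intro x
        rw [Finsupp.add_apply, e_apply]
        split_ifs with h
        · subst h; exact hz
        · exact hc x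
      · intro s l hl
        have h1 := hcap s l hl
        have h2 : ∑ x ∈ J s l, (S + e z) x = ∑ x ∈ J s l, S x + if z ∈ J s l then 1 else 0 := by
          simp_rw [Finsupp.add_apply, e_apply]
          rw [Finset.sum_add_distrib, Finset.sum_ite_eq]
        rw [h2]
        split_ifs with h
        · rw [cnt_cons_of_le ps (hzJ s l h)] at h1
          omega
        · have := cnt_le_cons l p ps
          omega
    have hfree : ∀ (s : Bool) (l : ℕ), l ≤ L → ∃ z ∈ J s l, S z < c z := by
      intro s l hl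
      by_contra hcon
      push Not at hcon
      have h1 := Finset.sum_le_sum hcon
      have := hcap s l hl
      omega
    have hdeg : (S + ofList ps).degree < N := by
      rw [← hS, ofList_cons, show S + (e p + ofList ps) = (S + ofList ps) + e p by abel,
        degree_add_e]
      exact Nat.lt_succ_self _
    rw [ofList_cons, show S + (e p + ofList ps) = (S + ofList ps) + e p by abel]
    have hinner : inner ps ≤ inner (p :: ps) := by
      unfold inner
      rw [List.countP_cons]
      exact Nat.le_add_right _ _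
    have hinner' : (inner ps : ℝ) ≤ inner (p :: ps) := by exact_mod_cast hinner
    by_cases hp : |p| ≤ 2
    · -- inner particle
      have h1 : inner (p :: ps) = inner ps + 1 := by
        unfold inner
        rw [List.countP_cons_of_pos]
        simpa using hp
      obtain ⟨b, hb, hb2⟩ := hfree true 1 hL1
      obtain ⟨a, ha, ha2⟩ := hfree false 1 hL1
      have hb3 := abs_of_mem_J hb
      have ha3 := abs_of_mem_J ha
      have hb4 : 2 < b := by
        rcases mem_J.1 hb with ⟨_, h, _⟩ | ⟨h, _⟩
        · simpa using h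
        · exact absurd h (by decide)
      have ha4 : a < -2 := by
        rcases mem_J.1 ha with ⟨h, _⟩ | ⟨_, _, h⟩
        · exact absurd h (by decide)
        · simpa using h
      have hp2 := abs_le.1 hp
      have hfin : ∀ {s : Bool} {z : ℤ}, z ∈ J s 1 → ∀ (s' : Bool) (l : ℕ), z ∈ J s' l →
          |p| ≤ 2 ^ (l + 2) := by
        intro s z hz s' l hl
        have := (J_disj hz hl).2
        subst this
        exact hp.trans (by norm_num)
      have h2 := topple H k hdeg (a := a) (b := b) (x := p) (by omega) (by omega) (R := 4)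
        (by
          have : |a| ≤ 4 := by simpa using ha3.2
          rw [← Int.cast_abs]
          exact_mod_cast this)
        (by
          have : |b| ≤ 4 := by simpa using hb3.2
          rw [← Int.cast_abs]
          exact_mod_cast this)
      have h3 := hland a ha2 (hfin ha)
      have h4 := hland b hb2 (hfin hb)
      have h5 := max_le h3 h4
      rw [h1]
      push_cast
      linarith
    · -- outer particle
      push Not at hp
      obtain ⟨i, hi1, hi2, hi3⟩ := exists_dyadic hp
      have hpL := hL p (List.mem_cons_self)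
      have hiL : i < L := by
        by_contra hcon
        push Not at hcon
        have : (2 : ℤ) ^ L ≤ 2 ^ i := pow_le_pow_right₀ (by norm_num) hcon
        omega
      have hfin : ∀ {s : Bool} {z : ℤ} {j : ℕ}, i ≤ j + 1 → z ∈ J s j →
          ∀ (s' : Bool) (l : ℕ), z ∈ J s' l → |p| ≤ 2 ^ (l + 2) := by
        intro s z j hj hz s' l hl
        have := (J_disj hz hl).2
        subst this
        refine hi3.trans (pow_le_pow_right₀ (by norm_num) (by omega))
      obtain ⟨j, rfl⟩ : ∃ j, i = j + 1 := ⟨i - 1, by omega⟩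
      rcases lt_or_ge p 0 with hneg | hpos
      · rw [abs_of_neg hneg] at hi2 hi3
        obtain ⟨b, hb, hb2⟩ := hfree false j (by omega)
        obtain ⟨a, ha, ha2⟩ := hfree false (j + 2) (by omega)
        have hb4 : -(2 ^ (j + 1)) ≤ b ∧ b < -(2 ^ j) := by
          rcases mem_J.1 hb with ⟨h, _⟩ | ⟨_, h, h'⟩
          · exact absurd h (by decide)
          · exact ⟨h, h'⟩
        have ha4 : a < -(2 ^ (j + 2)) := by
          rcases mem_J.1 ha with ⟨h, _⟩ | ⟨_, _, h⟩
          · exact absurd h (by decide)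
          · exact h
        have h2j : (0 : ℤ) < 2 ^ j := by positivity
        have hi3' : -p ≤ 2 ^ (j + 2) := hi3
        have h2 := topple_side H k hdeg (a := a) (b := b) (x := p) (by omega) (by omega)
          (Or.inr (by omega))
        have h3 := hland a ha2 (hfin (by omega) ha)
        have h4 := hland b hb2 (hfin (by omega) hb)
        have h5 := max_le h3 h4
        linarith
      · rw [abs_of_nonneg hpos] at hi2 hi3
        obtain ⟨a, ha, ha2⟩ := hfree true j (by omega)
        obtain ⟨b, hb, hb2⟩ := hfree true (j + 2) (by omega)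
        have ha4 : 2 ^ j < a ∧ a ≤ 2 ^ (j + 1) := by
          rcases mem_J.1 ha with ⟨_, h, h'⟩ | ⟨h, _⟩
          · exact ⟨h, h'⟩
          · exact absurd h (by decide)
        have hb4 : 2 ^ (j + 2) < b := by
          rcases mem_J.1 hb with ⟨_, h, _⟩ | ⟨h, _⟩
          · exact h
          · exact absurd h (by decide)
        have h2j : (0 : ℤ) < 2 ^ j := by positivity
        have hi3' : p ≤ 2 ^ (j + 2) := hi3
        have h2 := topple_side H k hdeg (a := a) (b := b) (x := p) (by omega) (by omega)
          (Or.inl (by omega))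
        have h3 := hland a ha2 (hfin (by omega) ha)
        have h4 := hland b hb2 (hfin (by omega) hb)
        have h5 := max_le h3 h4
        linarith

end Pool.Agent.K7.H98.ZR
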