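import Pool.Agent.K7.H98.ZR3

/-!
# Product weights and the sector sums
-/

set_option autoImplicit false

namespace Pool.Agent.K7.H98.ZR

open Finset Filter Topology

/-- single site weights with fugacity `φ`; `n0` is the largest integer with rate zero -/
noncomputable def w (g : ℕ → ℝ) (n0 : ℕ) (φ : ℝ) (n : ℕ) : ℝ :=
  if n < n0 then 0 else ∏ i ∈ Finset.Ioc n0 n, φ / g i

/-- `n0` is the largest integer with rate zero -/
structure IsZero (g : ℕ → ℝ) (n0 : ℕ) : Prop where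
  zero : g n0 = 0
  pos : ∀ n, n0 < n → 0 < g n

theorem w_succ {g : ℕ → ℝ} {n0 : ℕ} (h : IsZero g n0) (φ : ℝ) (n : ℕ) :
    w g n0 φ (n + 1) * g (n + 1) = φ * w g n0 φ n := by
  unfold w
  rcases lt_trichotomy (n + 1) n0 with h1 | h1 | h1
  · rw [if_pos h1, if_pos (by omega)]
    ring
  · rw [if_pos (show n < n0 by omega), h1, h.zero]
    ring
  · rw [if_neg (by omega), if_neg (by omega)]
    have h2 : Finset.Ioc n0 (n + 1) = insert (n + 1) (Finset.Ioc n0 n) := by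
      ext i
      simp only [Finset.mem_Ioc, Finset.mem_insert]
      omega
    rw [h2, Finset.prod_insert (by simp)]
    have := (h.pos _ h1).ne'
    field_simp

theorem w_nn {g : ℕ → ℝ} {n0 : ℕ} (h : IsZero g n0) {φ : ℝ} (hφ : 0 ≤ φ) (n : ℕ) :
    0 ≤ w g n0 φ n := by
  unfold w
  split_ifs
  · exact le_refl _
  · refine Finset.prod_nonneg fun i hi => ?_
    have := h.pos i (Finset.mem_Ioc.1 hi).1
    positivity

/-- the fugacity profile -/
noncomputable def phi (φ : ℝ) (M : ℕ) (x : ℤ) : ℝ := φ / M * (M - |(x : ℝ)|)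

/-- product weight -/
noncomputable def Wt (g : ℕ → ℝ) (n0 : ℕ) (φ : ℝ) (M : ℕ) (ζ : Cfg) : ℝ :=
  ∏ x ∈ Finset.Ioo (-(M : ℤ)) M, w g n0 (phi φ M x) (ζ x)

/-- the sector with `n` particles in `(-M, M)` -/
noncomputable def Sec (M n : ℕ) : Finset Cfg := Finset.finsuppAntidiag (Finset.Ioo (-(M : ℤ)) M) n

theorem mem_Sec {M n : ℕ} {ζ : Cfg} : ζ ∈ Sec M n ↔
    ζ.degree = n ∧ ζ.support ⊆ Finset.Ioo (-(M : ℤ)) M := by
  unfold Sec
  rw [Finset.mem_finsuppAntidiag]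
  constructor
  · rintro ⟨h1, h2⟩
    refine ⟨?_, h2⟩
    rw [Finsupp.degree_apply, ← h1]
    exact Finset.sum_subset h2 fun x _ hx => Finsupp.notMem_support_iff.1 hx
  · rintro ⟨h1, h2⟩
    refine ⟨?_, h2⟩
    rw [Finsupp.degree_apply] at h1
    rw [← h1]
    exact (Finset.sum_subset h2 fun x _ hx => Finsupp.notMem_support_iff.1 hx).symm

theorem phi_nn {φ : ℝ} (hφ : 0 ≤ φ) {M : ℕ} {x : ℤ} (hx : x ∈ Finset.Ioo (-(M : ℤ)) M) :
    0 ≤ phi φ M x := by
  rw [Finset.mem_Ioo] at hx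
  unfold phi
  have h1 : |(x : ℝ)| ≤ M := by
    rw [abs_le]
    constructor
    · exact_mod_cast hx.1.le
    · exact_mod_cast hx.2.le
  have h2 : (0 : ℝ) ≤ M := Nat.cast_nonneg _
  have h3 : 0 ≤ (M : ℝ) - |(x : ℝ)| := by linarith
  positivity

theorem Wt_nn {g : ℕ → ℝ} {n0 : ℕ} (h : IsZero g n0) {φ : ℝ} (hφ : 0 ≤ φ) (M : ℕ) (ζ : Cfg) :
    0 ≤ Wt g n0 φ M ζ :=
  Finset.prod_nonneg fun _ hx => w_nn h (phi_nn hφ hx) _

theorem Wt_add {g : ℕ → ℝ} {n0 : ℕ} (h : IsZero g n0) (φ : ℝ) {M : ℕ} (ζ : Cfg) {x : ℤ}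
    (hx : x ∈ Finset.Ioo (-(M : ℤ)) M) :
    Wt g n0 φ M (ζ + e x) * g ((ζ + e x) x) = phi φ M x * Wt g n0 φ M ζ := by
  unfold Wt
  rw [← Finset.mul_prod_erase _ _ hx, ← Finset.mul_prod_erase _ (fun y => w g n0 (phi φ M y) (ζ y)) hx]
  have h1 : ∏ y ∈ (Finset.Ioo (-(M : ℤ)) M).erase x, w g n0 (phi φ M y) ((ζ + e x) y) =
      ∏ y ∈ (Finset.Ioo (-(M : ℤ)) M).erase x, w g n0 (phi φ M y) (ζ y) := by
    refine Finset.prod_congr rfl fun y hy => ?_
    rw [Finsupp.add_apply, e_apply, if_neg (fun h => (Finset.ne_of_mem_erase hy) h.symm), add_zero]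
  rw [h1]
  have h2 : (ζ + e x) x = ζ x + 1 := by rw [Finsupp.add_apply, e_apply, if_pos rfl]
  rw [h2]
  have h3 := w_succ h (phi φ M x) (ζ x)
  linear_combination (∏ y ∈ (Finset.Ioo (-(M : ℤ)) M).erase x, w g n0 (phi φ M y) (ζ y)) * h3

/-- integration by parts -/
theorem sum_Sec {g : ℕ → ℝ} (hg0 : g 0 = 0) {n0 : ℕ} (h : IsZero g n0) (φ : ℝ) {M n : ℕ} {x : ℤ}
    (hx : x ∈ Finset.Ioo (-(M : ℤ)) M) (z : ℤ) (F : Cfg → ℝ) :
    ∑ η ∈ Sec M (n + 1), Wt g n0 φ M η * (g (η x) * F (move x z η)) =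
      ∑ ζ ∈ Sec M n, Wt g n0 φ M ζ * (phi φ M x * F (ζ + e z)) := by
  have h1 : ∑ ζ ∈ Sec M n, Wt g n0 φ M ζ * (phi φ M x * F (ζ + e z)) =
      ∑ η ∈ (Sec M n).image (fun ζ => ζ + e x), Wt g n0 φ M η * (g (η x) * F (move x z η)) := by
    rw [Finset.sum_image (fun a _ b _ hab => add_right_cancel hab)]
    refine Finset.sum_congr rfl fun ζ _ => ?_
    rw [move_self]
    have := Wt_add h φ ζ hx
    linear_combination (-F (ζ + e z)) * this
  rw [h1]
  symm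
  refine Finset.sum_subset ?_ ?_
  · intro η hη
    rw [Finset.mem_image] at hη
    obtain ⟨ζ, hζ, rfl⟩ := hη
    rw [mem_Sec] at hζ ⊢
    refine ⟨by rw [degree_add_e, hζ.1], ?_⟩
    intro y hy
    rw [Finsupp.mem_support_iff, Finsupp.add_apply, e_apply] at hy
    by_cases hxy : x = y
    · subst hxy; exact hx
    · rw [if_neg hxy, add_zero] at hy
      exact hζ.2 (Finsupp.mem_support_iff.2 hy)
  · intro η hη hη2
    have : η x = 0 := by
      by_contra hne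
      obtain ⟨ξ, rfl⟩ := exists_sub hne
      refine hη2 (Finset.mem_image.2 ⟨ξ, ?_, rfl⟩)
      rw [mem_Sec] at hη ⊢
      rw [degree_add_e] at hη
      refine ⟨by omega, fun y hy => hη.2 ?_⟩
      rw [Finsupp.mem_support_iff] at hy ⊢
      rw [Finsupp.add_apply]
      omega
    rw [this, hg0]
    ring

/-- the sum of second differences -/
theorem sum_second (u : ℤ → ℝ) (M : ℕ) :
    ∑ x ∈ Finset.Ioo (-((M + 1 : ℕ) : ℤ)) ((M + 1 : ℕ) : ℤ), ((u (x + 1) + u (x - 1)) / 2 - u x) =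
      (u (M + 1) - u M) / 2 + (u (-(M + 1)) - u (-M)) / 2 := by
  induction M with
  | zero =>
    have : Finset.Ioo (-((0 + 1 : ℕ) : ℤ)) ((0 + 1 : ℕ) : ℤ) = {0} := by
      ext x
      simp only [Finset.mem_Ioo, Finset.mem_singleton]
      push_cast
      omega
    rw [this, Finset.sum_singleton]
    simp
    ring
  | succ M ih =>
    have : Finset.Ioo (-((M + 1 + 1 : ℕ) : ℤ)) ((M + 1 + 1 : ℕ) : ℤ) =
        insert ((M + 1 : ℕ) : ℤ) (insert (-((M + 1 : ℕ) : ℤ))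
          (Finset.Ioo (-((M + 1 : ℕ) : ℤ)) ((M + 1 : ℕ) : ℤ))) := by
      ext x
      simp only [Finset.mem_Ioo, Finset.mem_insert]
      push_cast
      omega
    rw [this, Finset.sum_insert, Finset.sum_insert, ih]
    · push_cast
      have e1 : (M : ℤ) + 1 - 1 = M := by ring
      have e2 : -((M : ℤ) + 1) + 1 = -M := by ring
      have e3 : -((M : ℤ) + 1) - 1 = -(M + 1 + 1) := by ring
      rw [e1, e2, e3]
      ring
    · simp
    · simp only [Finset.mem_insert, Finset.mem_Ioo, not_or]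
      push_cast
      omega

/-- summation by parts for the tent function -/
theorem sum_tent (u : ℤ → ℝ) (M : ℕ) :
    ∑ x ∈ Finset.Ioo (-((M + 1 : ℕ) : ℤ)) ((M + 1 : ℕ) : ℤ),
      (((M + 1 : ℕ) : ℝ) - |(x : ℝ)|) * ((u (x + 1) + u (x - 1)) / 2 - u x) =
      (u (M + 1) + u (-(M + 1))) / 2 - u 0 := by
  induction M with
  | zero =>
    have : Finset.Ioo (-((0 + 1 : ℕ) : ℤ)) ((0 + 1 : ℕ) : ℤ) = {0} := by
      ext x
      simp only [Finset.mem_Ioo, Finset.mem_singleton]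
      push_cast
      omega
    rw [this, Finset.sum_singleton]
    simp
  | succ M ih =>
    have e0 : ∀ x : ℤ, (((M + 1 + 1 : ℕ) : ℝ) - |(x : ℝ)|) * ((u (x + 1) + u (x - 1)) / 2 - u x) =
        ((u (x + 1) + u (x - 1)) / 2 - u x) +
        (((M + 1 : ℕ) : ℝ) - |(x : ℝ)|) * ((u (x + 1) + u (x - 1)) / 2 - u x) := by
      intro x
      push_cast
      ring
    simp_rw [e0]
    rw [Finset.sum_add_distrib, sum_second u (M + 1)]
    have : Finset.Ioo (-((M + 1 + 1 : ℕ) : ℤ)) ((M + 1 + 1 : ℕ) : ℤ) =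
        insert ((M + 1 : ℕ) : ℤ) (insert (-((M + 1 : ℕ) : ℤ))
          (Finset.Ioo (-((M + 1 : ℕ) : ℤ)) ((M + 1 : ℕ) : ℤ))) := by
      ext x
      simp only [Finset.mem_Ioo, Finset.mem_insert]
      push_cast
      omega
    rw [this, Finset.sum_insert, Finset.sum_insert, ih]
    · have h1 : |(((M + 1 : ℕ) : ℤ) : ℝ)| = ((M + 1 : ℕ) : ℝ) := by
        rw [Int.cast_natCast]
        exact abs_of_nonneg (Nat.cast_nonneg _)
      have h2 : |((-((M + 1 : ℕ) : ℤ) : ℤ) : ℝ)| = ((M + 1 : ℕ) : ℝ) := by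
        rw [Int.cast_neg, abs_neg, h1]
      rw [h1, h2]
      push_cast
      ring
    · simp
    · simp only [Finset.mem_insert, Finset.mem_Ioo, not_or]
      push_cast
      omega

end Pool.Agent.K7.H98.ZR
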