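import Pool.Agent.K7.H98.ZR4

/-!
# The product weights are almost invariant
-/

set_option autoImplicit false

namespace Pool.Agent.K7.H98.ZR

open Finset Filter Topology

variable {g : ℕ → ℝ} {N : ℕ} {lam : ℝ} {n0 : ℕ}

theorem sum_gen (hg0 : g 0 = 0) (h : IsZero g n0) (φ : ℝ) (M n : ℕ) (F : Cfg → ℝ) :
    ∑ η ∈ Sec (M + 1) (n + 1), Wt g n0 φ (M + 1) η * gen g F η =
      ∑ ζ ∈ Sec (M + 1) n, Wt g n0 φ (M + 1) ζ * (φ / ((M + 1 : ℕ) : ℝ) *
        ((F (ζ + e (M + 1)) + F (ζ + e (-(M + 1)))) / 2 - F (ζ + e 0))) := by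
  set I := Finset.Ioo (-((M + 1 : ℕ) : ℤ)) ((M + 1 : ℕ) : ℤ) with hI
  have h1 : ∀ η ∈ Sec (M + 1) (n + 1), Wt g n0 φ (M + 1) η * gen g F η =
      ∑ x ∈ I, (Wt g n0 φ (M + 1) η * (g (η x) * F (move x (x + 1) η)) / 2 +
        Wt g n0 φ (M + 1) η * (g (η x) * F (move x (x - 1) η)) / 2 -
        Wt g n0 φ (M + 1) η * (g (η x) * F (move x x η))) := by
    intro η hη
    rw [gen_eq_sum hg0 F η (mem_Sec.1 hη).2, Finset.mul_sum]
    refine Finset.sum_congr rfl fun x _ => ?_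
    have : g (η x) * F (move x x η) = g (η x) * F η := by
      by_cases hx : η x = 0
      · rw [hx, hg0, zero_mul, zero_mul]
      · obtain ⟨ξ, rfl⟩ := exists_sub hx
        rw [move_self]
    rw [this]
    ring
  rw [Finset.sum_congr rfl h1, Finset.sum_comm]
  have h2 : ∀ x ∈ I, ∑ η ∈ Sec (M + 1) (n + 1),
      (Wt g n0 φ (M + 1) η * (g (η x) * F (move x (x + 1) η)) / 2 +
        Wt g n0 φ (M + 1) η * (g (η x) * F (move x (x - 1) η)) / 2 -
        Wt g n0 φ (M + 1) η * (g (η x) * F (move x x η))) =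
      ∑ ζ ∈ Sec (M + 1) n, Wt g n0 φ (M + 1) ζ * (phi φ (M + 1) x *
        ((F (ζ + e (x + 1)) + F (ζ + e (x - 1))) / 2 - F (ζ + e x))) := by
    intro x hx
    rw [Finset.sum_sub_distrib, Finset.sum_add_distrib, ← Finset.sum_div, ← Finset.sum_div,
      sum_Sec hg0 h φ hx, sum_Sec hg0 h φ hx, sum_Sec hg0 h φ hx, Finset.sum_div, Finset.sum_div,
      ← Finset.sum_add_distrib, ← Finset.sum_sub_distrib]
    refine Finset.sum_congr rfl fun ζ _ => ?_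
    ring
  rw [Finset.sum_congr rfl h2, Finset.sum_comm]
  refine Finset.sum_congr rfl fun ζ _ => ?_
  rw [← Finset.mul_sum]
  congr 1
  have h3 := sum_tent (fun x => F (ζ + e x)) M
  rw [← h3, Finset.mul_sum]
  refine Finset.sum_congr rfl fun x _ => ?_
  unfold phi
  push_cast
  ring

/-- partition function of the sector -/
noncomputable def Zs (g : ℕ → ℝ) (n0 : ℕ) (φ : ℝ) (M n : ℕ) : ℝ :=
  ∑ ζ ∈ Sec M n, Wt g n0 φ M ζ

theorem Zs_nn (h : IsZero g n0) {φ : ℝ} (hφ : 0 ≤ φ) (M n : ℕ) : 0 ≤ Zs g n0 φ M n :=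
  Finset.sum_nonneg fun _ _ => Wt_nn h hφ _ _

theorem sum_g0 (hg0 : g 0 = 0) (h : IsZero g n0) (φ : ℝ) (M n : ℕ) :
    ∑ η ∈ Sec (M + 1) (n + 1), Wt g n0 φ (M + 1) η * g0 g η = φ * Zs g n0 φ (M + 1) n := by
  have h0 : (0 : ℤ) ∈ Finset.Ioo (-((M + 1 : ℕ) : ℤ)) ((M + 1 : ℕ) : ℤ) := by
    rw [Finset.mem_Ioo]
    push_cast
    omega
  have h1 := sum_Sec hg0 h φ h0 (n := n) 0 (fun _ => 1)
  unfold g0 Zs
  simp only [mul_one] at h1
  rw [h1, Finset.mul_sum]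
  refine Finset.sum_congr rfl fun ζ _ => ?_
  have h2 : phi φ (M + 1) 0 = φ := by
    unfold phi
    have : ((M + 1 : ℕ) : ℝ) ≠ 0 := by positivity
    rw [Int.cast_zero, abs_zero, sub_zero, div_mul_cancel₀ _ this]
  rw [h2]
  ring

/-- cut off rate -/
noncomputable def hC (g : ℕ → ℝ) (C : ℝ) (η : Cfg) : ℝ := min (g (η 0)) C

/-- **Almost invariance.** -/
theorem sum_It (H : Good g N lam) (h : IsZero g n0) {φ : ℝ} (hφ : 0 ≤ φ) {C : ℝ} (hC0 : 0 ≤ C)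
    (M : ℕ) {n : ℕ} (hn : n + 1 ≤ N) (k : ℕ) :
    ∑ η ∈ Sec (M + 1) (n + 1), Wt g n0 φ (M + 1) η * It g lam (hC g C) k η ≤
      (φ + φ / ((M + 1 : ℕ) : ℝ) * C) * Zs g n0 φ (M + 1) n := by
  have hZ := Zs_nn h hφ (M + 1) n
  have hM : (0 : ℝ) < ((M + 1 : ℕ) : ℝ) := by positivity
  have hB : 0 ≤ (φ + φ / ((M + 1 : ℕ) : ℝ) * C) * Zs g n0 φ (M + 1) n := by positivity
  have hnn : ∀ ζ : Cfg, ζ.degree = n + 1 → 0 ≤ hC g C ζ := fun ζ _ => le_min (H.nn _) hC0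
  have hle : ∀ ζ : Cfg, ζ.degree = n + 1 → hC g C ζ ≤ C := fun ζ _ => min_le_right _ _
  have hlam := H.lam_nn
  induction k with
  | zero =>
    simp only [It, mul_zero, Finset.sum_const_zero]
    exact hB
  | succ k ih =>
    set F := It g lam (hC g C) k with hF
    have e1 : ∑ η ∈ Sec (M + 1) (n + 1), Wt g n0 φ (M + 1) η * It g lam (hC g C) (k + 1) η =
        (∑ η ∈ Sec (M + 1) (n + 1), Wt g n0 φ (M + 1) η * hC g C η +
          lam * ∑ η ∈ Sec (M + 1) (n + 1), Wt g n0 φ (M + 1) η * F η +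
          ∑ η ∈ Sec (M + 1) (n + 1), Wt g n0 φ (M + 1) η * gen g F η) / (1 + lam) := by
      rw [Finset.mul_sum, ← Finset.sum_add_distrib, ← Finset.sum_add_distrib, Finset.sum_div]
      refine Finset.sum_congr rfl fun η _ => ?_
      show Wt g n0 φ (M + 1) η * ((hC g C η + lam * F η + gen g F η) / (1 + lam)) = _
      ring
    have e2 : ∑ η ∈ Sec (M + 1) (n + 1), Wt g n0 φ (M + 1) η * hC g C η ≤
        φ * Zs g n0 φ (M + 1) n := by
      rw [← sum_g0 H.zero h φ M n]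
      refine Finset.sum_le_sum fun η _ => ?_
      exact mul_le_mul_of_nonneg_left (min_le_left _ _) (Wt_nn h hφ _ _)
    have e3 : ∑ η ∈ Sec (M + 1) (n + 1), Wt g n0 φ (M + 1) η * gen g F η ≤
        φ / ((M + 1 : ℕ) : ℝ) * C * Zs g n0 φ (M + 1) n := by
      rw [sum_gen H.zero h φ M n F]
      unfold Zs
      rw [Finset.mul_sum]
      refine Finset.sum_le_sum fun ζ hζ => ?_
      rw [mul_comm (φ / ((M + 1 : ℕ) : ℝ) * C)]
      refine mul_le_mul_of_nonneg_left ?_ (Wt_nn h hφ _ _)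
      refine mul_le_mul_of_nonneg_left ?_ (by positivity)
      have hd : ∀ y : ℤ, (ζ + e y).degree = n + 1 := fun y => by
        rw [degree_add_e, (mem_Sec.1 hζ).1]
      have b1 := It_le H hn hC0 hle k _ (hd (M + 1))
      have b2 := It_le H hn hC0 hle k _ (hd (-(M + 1)))
      have b3 := It_nn H hn hnn k _ (hd 0)
      linarith
    rw [e1, div_le_iff₀ (by linarith)]
    nlinarith

end Pool.Agent.K7.H98.ZR
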