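import Pool.Agent.K7.H98.ZR5

/-!
# A configuration with large capacities and small discounted occupation of the origin
-/

set_option autoImplicit false

namespace Pool.Agent.K7.H98.ZR

open Finset Filter Topology

variable {g : ℕ → ℝ} {N : ℕ} {lam : ℝ} {n0 : ℕ}

/-- the interval `(-M, M)` -/
noncomputable abbrev II (M : ℕ) : Finset ℤ := Finset.Ioo (-(M : ℤ)) M

/-- a function on the interval as a configuration -/
noncomputable def toCfg (M : ℕ) (p : II M → ℕ) : Cfg :=
  Finsupp.onFinset (II M) (fun x => if h : x ∈ II M then p ⟨x, h⟩ else 0)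
    (fun x hx => by
      by_contra hcon
      exact hx (dif_neg hcon))

theorem toCfg_apply (M : ℕ) (p : II M → ℕ) (x : II M) : toCfg M p x = p x := by
  unfold toCfg
  rw [Finsupp.onFinset_apply, dif_pos x.2]

theorem toCfg_apply' (M : ℕ) (p : II M → ℕ) {x : ℤ} (hx : x ∉ II M) : toCfg M p x = 0 := by
  unfold toCfg
  rw [Finsupp.onFinset_apply, dif_neg hx]

theorem toCfg_inj (M : ℕ) : Function.Injective (toCfg M) := by
  intro p q h
  funext x
  rw [← toCfg_apply M p x, ← toCfg_apply M q x, h]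

theorem toCfg_support (M : ℕ) (p : II M → ℕ) : (toCfg M p).support ⊆ II M := by
  intro x hx
  by_contra hcon
  exact (Finsupp.mem_support_iff.1 hx) (toCfg_apply' M p hcon)

theorem toCfg_restrict {M : ℕ} {ζ : Cfg} (h : ζ.support ⊆ II M) :
    toCfg M (fun x => ζ x) = ζ := by
  ext x
  by_cases hx : x ∈ II M
  · exact toCfg_apply M _ ⟨x, hx⟩
  · rw [toCfg_apply' M _ hx]
    exact (Finsupp.notMem_support_iff.1 fun h' => hx (h h')).symm

/-- at most `N` particles in `(-M, M)` -/
noncomputable def SecLE (M N : ℕ) : Finset Cfg := (Finset.range (N + 1)).biUnion (Sec M)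

theorem mem_SecLE {M N : ℕ} {ζ : Cfg} : ζ ∈ SecLE M N ↔ ζ.degree ≤ N ∧ ζ.support ⊆ II M := by
  unfold SecLE
  rw [Finset.mem_biUnion]
  constructor
  · rintro ⟨n, hn, hζ⟩
    rw [mem_Sec] at hζ
    rw [Finset.mem_range] at hn
    exact ⟨by omega, hζ.2⟩
  · rintro ⟨h1, h2⟩
    exact ⟨ζ.degree, Finset.mem_range.2 (by omega), mem_Sec.2 ⟨rfl, h2⟩⟩

theorem sum_SecLE (M N : ℕ) (f : Cfg → ℝ) :
    ∑ ζ ∈ SecLE M N, f ζ = ∑ n ∈ Finset.range (N + 1), ∑ ζ ∈ Sec M n, f ζ := by
  unfold SecLE
  refine Finset.sum_biUnion fun a _ b _ hab => ?_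
  rw [Function.onFun, Finset.disjoint_left]
  intro ζ h1 h2
  exact hab ((mem_Sec.1 h1).1.symm.trans (mem_Sec.1 h2).1)

/-- boxes -/
noncomputable def Box (M A : ℕ) : Finset (II M → ℕ) :=
  Fintype.piFinset fun _ => Finset.range (A + 1)

theorem sum_Box (M A : ℕ) (f : ℤ → ℕ → ℝ) :
    ∑ p ∈ Box M A, ∏ x : II M, f x (p x) = ∏ x ∈ II M, ∑ n ∈ Finset.range (A + 1), f x n := by
  unfold Box
  rw [← Finset.prod_univ_sum (fun _ : II M => Finset.range (A + 1)) (fun x n => f x n),
    Finset.prod_coe_sort (II M) fun x => ∑ n ∈ Finset.range (A + 1), f x n]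

theorem prod_toCfg (M : ℕ) (p : II M → ℕ) (f : ℤ → ℕ → ℝ) :
    ∏ x ∈ II M, f x (toCfg M p x) = ∏ x : II M, f x (p x) := by
  rw [← Finset.prod_coe_sort (II M)]
  refine Finset.prod_congr rfl fun x _ => ?_
  rw [toCfg_apply]

theorem degree_toCfg (M : ℕ) (p : II M → ℕ) : (toCfg M p).degree = ∑ x : II M, p x := by
  rw [Finsupp.degree_apply, Finset.sum_subset (toCfg_support M p) (fun x _ hx =>
    Finsupp.notMem_support_iff.1 hx), ← Finset.sum_coe_sort (II M)]
  refine Finset.sum_congr rfl fun x _ => ?_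
  rw [toCfg_apply]

/-- sums over the box are at most sums over the sectors -/
theorem Box_le {f : Cfg → ℝ} (hf : ∀ ζ, 0 ≤ f ζ) (M A N : ℕ) (hA : (II M).card * A ≤ N) :
    ∑ p ∈ Box M A, f (toCfg M p) ≤ ∑ ζ ∈ SecLE M N, f ζ := by
  rw [← Finset.sum_image (f := f) (g := toCfg M) (fun a _ b _ hab => toCfg_inj M hab)]
  refine Finset.sum_le_sum_of_subset_of_nonneg ?_ fun ζ _ _ => hf ζ
  intro ζ hζ
  rw [Finset.mem_image] at hζ
  obtain ⟨p, hp, rfl⟩ := hζ
  rw [mem_SecLE]
  refine ⟨?_, toCfg_support M p⟩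
  rw [degree_toCfg]
  refine le_trans ?_ hA
  calc ∑ x : II M, p x ≤ ∑ _x : II M, A := by
        refine Finset.sum_le_sum fun x _ => ?_
        have := Fintype.mem_piFinset.1 hp x
        rw [Finset.mem_range] at this
        omega
    _ = _ := by rw [Finset.sum_const, Finset.card_univ, Fintype.card_coe, smul_eq_mul]

/-- sums over the sectors are at most sums over the box -/
theorem le_Box {f : Cfg → ℝ} (hf : ∀ ζ, 0 ≤ f ζ) (M N : ℕ) :
    ∑ ζ ∈ SecLE M N, f ζ ≤ ∑ p ∈ Box M N, f (toCfg M p) := by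
  rw [← Finset.sum_image (f := f) (g := toCfg M) (fun a _ b _ hab => toCfg_inj M hab)]
  refine Finset.sum_le_sum_of_subset_of_nonneg ?_ fun ζ _ _ => hf ζ
  intro ζ hζ
  rw [mem_SecLE] at hζ
  rw [Finset.mem_image]
  refine ⟨fun x => ζ x, ?_, toCfg_restrict hζ.2⟩
  unfold Box
  rw [Fintype.mem_piFinset]
  intro x
  rw [Finset.mem_range]
  have := apply_le_degree ζ x
  omega

/-- small occupation numbers are unlikely -/
theorem w_small (hg : Monotone g) (h : IsZero g n0) (hg0 : g 0 = 0) {φ : ℝ} (hφ : 0 ≤ φ) {ρ : ℝ}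
    (hρ : 1 ≤ ρ) {K : ℕ} (hK : ρ * g K ≤ φ) :
    ∀ m ≤ K, (ρ - 1) * ∑ n ∈ Finset.range m, w g n0 φ n ≤ w g n0 φ m := by
  have hnn : ∀ n, 0 ≤ g n := fun n => hg0 ▸ hg (Nat.zero_le n)
  intro m
  induction m with
  | zero =>
    intro _
    rw [Finset.sum_range_zero, mul_zero]
    exact w_nn h hφ 0
  | succ m ih =>
    intro hm
    rw [Finset.sum_range_succ]
    have h1 := ih (by omega)
    have h2 := w_nn h hφ m
    have h3 := w_nn h hφ (m + 1)
    have h4 := w_succ h φ m
    have h5 : ρ * w g n0 φ m ≤ w g n0 φ (m + 1) := by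
      rcases (hnn (m + 1)).eq_or_lt with h6 | h6
      · rw [← h6, mul_zero] at h4
        rcases mul_eq_zero.1 h4.symm with h7 | h7
        · -- φ = 0
          have h8 : ρ * g K ≤ 0 := h7 ▸ hK
          have h9 : g K = 0 := by
            have := hnn K
            nlinarith
          -- then every site weight up to `K ≤ n0` vanishes below `n0`
          have h10 : K ≤ n0 := by
            by_contra hcon
            push Not at hcon
            exact (h.pos K hcon).ne' h9
          have h11 : w g n0 φ m = 0 := by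
            unfold w
            rw [if_pos (by omega)]
          rw [h11, mul_zero]
          exact h3
        · rw [h7, mul_zero]
          exact h3
      · have h7 : g (m + 1) ≤ g K := hg hm
        have h8 : ρ * g (m + 1) ≤ φ := by
          have : ρ * g (m + 1) ≤ ρ * g K := by gcongr
          linarith
        have h9 : ρ * w g n0 φ m * g (m + 1) ≤ w g n0 φ (m + 1) * g (m + 1) := by
          rw [h4]
          nlinarith
        exact le_of_mul_le_mul_right h9 h6
    linarith

end Pool.Agent.K7.H98.ZR
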