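import Pool.Agent.K7.H98.ZR6

/-!
# Existence of a configuration with large capacities and small discounted occupation of the origin
-/

set_option autoImplicit false

namespace Pool.Agent.K7.H98.ZR

open Finset Filter Topology

variable {g : ℕ → ℝ} {N : ℕ} {lam : ℝ} {n0 : ℕ}

theorem w_summable (hlim : Tendsto g atTop atTop) (h : IsZero g n0) {φ : ℝ} (hφ : 0 ≤ φ) :
    Summable (w g n0 φ) := by
  refine summable_of_ratio_norm_eventually_le (r := 1 / 2) (by norm_num) ?_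
  filter_upwards [(hlim.comp (tendsto_add_atTop_nat 1)).eventually_ge_atTop (2 * φ + 1)] with n hn
  have hn' : 2 * φ + 1 ≤ g (n + 1) := hn
  have h4 := w_succ h φ n
  have h2 := w_nn h hφ n
  have h3 := w_nn h hφ (n + 1)
  rw [Real.norm_of_nonneg h2, Real.norm_of_nonneg h3]
  nlinarith

/-- truncated single site partition functions -/
noncomputable def Sx (g : ℕ → ℝ) (n0 : ℕ) (φ : ℝ) (M A : ℕ) (x : ℤ) : ℝ :=
  ∑ n ∈ Finset.range (A + 1), w g n0 (phi φ M x) n

theorem card_J (s : Bool) (l : ℕ) : ((J s l).card : ℤ) = 2 ^ l := by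
  unfold J
  have h : (0 : ℤ) < 2 ^ l := by positivity
  have e1 : (2 : ℤ) ^ (l + 1) = 2 * 2 ^ l := by rw [pow_succ]; ring
  cases s
  · simp only [Bool.false_eq_true, if_false]
    rw [Int.card_Ico]
    omega
  · simp only [if_true]
    rw [Int.card_Ioc]
    omega

theorem card_J' (s : Bool) (l : ℕ) : (J s l).card = 2 ^ l := by
  have := card_J s l
  exact_mod_cast this

/-- the weight used for the exponential Markov inequality -/
noncomputable def cc (K n : ℕ) : ℝ := if n < K then 32 else 1 / 32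

theorem cc_pos (K n : ℕ) : 0 < cc K n := by
  unfold cc
  split_ifs <;> norm_num

theorem prod_cc (K : ℕ) (J' : Finset ℤ) (ζ : ℤ → ℕ) : ∏ x ∈ J', cc K (ζ x) =
    32 ^ (J'.filter fun x => ζ x < K).card * (1 / 32) ^ (J'.filter fun x => ¬ ζ x < K).card := by
  unfold cc
  rw [Finset.prod_ite, Finset.prod_const, Finset.prod_const]

/-- if the capacity of a dyadic interval is small then the weight is at least one -/
theorem one_le_prod_cc {K : ℕ} {J' : Finset ℤ} {ζ : ℤ → ℕ}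
    (h : 2 * ∑ x ∈ J', ζ x ≤ K * J'.card) (hK : 0 < K) : 1 ≤ ∏ x ∈ J', cc K (ζ x) := by
  rw [prod_cc]
  set a := (J'.filter fun x => ζ x < K).card with ha
  set b := (J'.filter fun x => ¬ ζ x < K).card with hb
  have hab : a + b = J'.card := by
    rw [ha, hb]
    exact Finset.card_filter_add_card_filter_not _
  have h1 : b * K ≤ ∑ x ∈ J', ζ x := by
    calc b * K = ∑ _x ∈ J'.filter (fun x => ¬ ζ x < K), K := by
          rw [Finset.sum_const, smul_eq_mul]
      _ ≤ ∑ x ∈ J'.filter (fun x => ¬ ζ x < K), ζ x := by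
          refine Finset.sum_le_sum fun x hx => ?_
          exact not_lt.1 (Finset.mem_filter.1 hx).2
      _ ≤ _ := Finset.sum_le_sum_of_subset (Finset.filter_subset _ _)
  have h2 : b ≤ a := by
    by_contra hcon
    push Not at hcon
    have : K * J'.card < 2 * (b * K) := by
      rw [← hab]
      nlinarith
    omega
  calc (1 : ℝ) = 32 ^ b * (1 / 32) ^ b := by rw [← mul_pow]; norm_num
    _ ≤ _ := by
        gcongr
        norm_num

theorem two_div_pow (l : ℕ) : (1 / 16 : ℝ) ^ (2 ^ l) ≤ (1 / 16) ^ (l + 1) :=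
  pow_le_pow_of_le_one (by norm_num) (by norm_num) Nat.lt_two_pow_self

theorem sum_bad (L : ℕ) : ∑ _s : Bool, ∑ l ∈ Finset.range (L + 1), (1 / 16 : ℝ) ^ (2 ^ l) ≤ 2 / 15 := by
  have h1 : ∑ l ∈ Finset.range (L + 1), (1 / 16 : ℝ) ^ (2 ^ l) ≤ 1 / 15 := by
    calc ∑ l ∈ Finset.range (L + 1), (1 / 16 : ℝ) ^ (2 ^ l)
        ≤ ∑ l ∈ Finset.range (L + 1), (1 / 16) ^ (l + 1) :=
          Finset.sum_le_sum fun l _ => two_div_pow l
      _ ≤ ∑' l : ℕ, (1 / 16 : ℝ) ^ (l + 1) := by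
          refine Summable.sum_le_tsum _ (fun l _ => by positivity) ?_
          exact (summable_nat_add_iff 1).2 (summable_geometric_of_lt_one (by norm_num) (by norm_num))
      _ = 1 / 15 := by
          simp_rw [pow_succ]
          rw [tsum_mul_right, tsum_geometric_of_lt_one (by norm_num) (by norm_num)]
          norm_num
  rw [Fintype.sum_bool]
  linarith

/-- the sum of the weights with a bad dyadic interval -/
theorem bad_le (hg : Monotone g) (h : IsZero g n0) (hg0 : g 0 = 0) {φ : ℝ} (hφ : 0 ≤ φ)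
    {M K : ℕ} (hKN : K ≤ N) (s : Bool) (l : ℕ) (hJ : J s l ⊆ II M)
    (hK : ∀ x ∈ J s l, 1025 * g K ≤ phi φ M x) :
    ∑ p ∈ Box M N, Wt g n0 φ M (toCfg M p) * ∏ x ∈ J s l, cc K (toCfg M p x) ≤
      (1 / 16) ^ (2 ^ l) * ∏ x ∈ II M, Sx g n0 φ M N x := by
  have e1 : ∀ p : II M → ℕ, Wt g n0 φ M (toCfg M p) * ∏ x ∈ J s l, cc K (toCfg M p x) =
      ∏ x : II M, (w g n0 (phi φ M x) (p x) * if (x : ℤ) ∈ J s l then cc K (p x) else 1) := by
    intro p
    have e2 : ∏ x ∈ J s l, cc K (toCfg M p x) =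
        ∏ x ∈ II M, if x ∈ J s l then cc K (toCfg M p x) else 1 := by
      rw [Finset.prod_ite_mem, Finset.inter_eq_right.2 hJ]
    unfold Wt
    rw [e2, ← Finset.prod_mul_distrib, prod_toCfg M p
      (fun x n => w g n0 (phi φ M x) n * if x ∈ J s l then cc K n else 1)]
  simp_rw [e1]
  rw [sum_Box M N (fun x n => w g n0 (phi φ M x) n * if x ∈ J s l then cc K n else 1)]
  have e3 : (1 / 16 : ℝ) ^ (2 ^ l) * ∏ x ∈ II M, Sx g n0 φ M N x =
      ∏ x ∈ II M, ((if x ∈ J s l then 1 / 16 else 1) * Sx g n0 φ M N x) := by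
    rw [Finset.prod_mul_distrib, Finset.prod_ite_mem, Finset.inter_eq_right.2 hJ,
      Finset.prod_const, card_J']
  rw [e3]
  refine Finset.prod_le_prod (fun x hx => ?_) fun x hx => ?_
  · refine Finset.sum_nonneg fun n _ => mul_nonneg (w_nn h (phi_nn hφ hx) n) ?_
    split_ifs
    · exact (cc_pos K n).le
    · norm_num
  · have hp := phi_nn hφ hx
    split_ifs with hxJ
    · -- the interesting case
      have h1 := w_small hg h hg0 hp (ρ := 1025) (by norm_num) (hK x hxJ) K le_rfl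
      have h2 : w g n0 (phi φ M x) K ≤ Sx g n0 φ M N x := by
        unfold Sx
        exact Finset.single_le_sum (f := fun n => w g n0 (phi φ M x) n)
          (fun n _ => w_nn h hp n) (Finset.mem_range.2 (by omega))
      have h3 : ∑ n ∈ Finset.range (N + 1), w g n0 (phi φ M x) n * cc K n ≤
          32 * ∑ n ∈ Finset.range K, w g n0 (phi φ M x) n + 1 / 32 * Sx g n0 φ M N x := by
        have h4 : ∀ n ∈ Finset.range (N + 1), w g n0 (phi φ M x) n * cc K n ≤
            (if n < K then 32 * w g n0 (phi φ M x) n else 0) +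
              1 / 32 * w g n0 (phi φ M x) n := by
          intro n _
          have := w_nn h hp n
          unfold cc
          split_ifs <;> linarith
        refine (Finset.sum_le_sum h4).trans ?_
        rw [Finset.sum_add_distrib, ← Finset.mul_sum]
        refine add_le_add (le_of_eq ?_) le_rfl
        rw [← Finset.sum_filter, Finset.mul_sum]
        refine Finset.sum_congr ?_ fun _ _ => rfl
        ext n
        simp only [Finset.mem_filter, Finset.mem_range]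
        omega
      linarith
    · rw [one_mul]
      simp only [mul_one]
      exact le_of_eq rfl

theorem w_n0 (g : ℕ → ℝ) (n0 : ℕ) (φ : ℝ) : w g n0 φ n0 = 1 := by
  unfold w
  rw [if_neg (lt_irrefl _), Finset.Ioc_self, Finset.prod_empty]

/-- the sum over all sectors of the discounted occupation -/
theorem sum_SecLE_It (H : Good g N lam) (h : IsZero g n0) {φ : ℝ} (hφ : 0 ≤ φ) {C : ℝ}
    (hC0 : 0 ≤ C) (M : ℕ) (k : ℕ) :
    ∑ ζ ∈ SecLE (M + 1) N, Wt g n0 φ (M + 1) ζ * It g lam (hC g C) k ζ ≤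
      (φ + φ / ((M + 1 : ℕ) : ℝ) * C) * ∑ ζ ∈ SecLE (M + 1) N, Wt g n0 φ (M + 1) ζ := by
  have hM : (0 : ℝ) < ((M + 1 : ℕ) : ℝ) := by positivity
  rw [sum_SecLE, sum_SecLE, Finset.sum_range_succ']
  have h0 : ∑ ζ ∈ Sec (M + 1) 0, Wt g n0 φ (M + 1) ζ * It g lam (hC g C) k ζ ≤ 0 := by
    refine Finset.sum_nonpos fun ζ hζ => ?_
    have hd := (mem_Sec.1 hζ).1
    refine mul_nonpos_of_nonneg_of_nonpos (Wt_nn h hφ _ _) ?_
    refine It_le H (Nat.zero_le N) le_rfl (fun ξ hξ => ?_) k ζ hd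
    have h1 : ξ 0 = 0 := by
      have := apply_le_degree ξ 0
      omega
    unfold hC
    rw [h1, H.zero]
    exact min_le_left _ _
  have h1 : ∑ n ∈ Finset.range N, ∑ ζ ∈ Sec (M + 1) (n + 1),
      Wt g n0 φ (M + 1) ζ * It g lam (hC g C) k ζ ≤
      (φ + φ / ((M + 1 : ℕ) : ℝ) * C) * ∑ n ∈ Finset.range N, Zs g n0 φ (M + 1) n := by
    rw [Finset.mul_sum]
    refine Finset.sum_le_sum fun n hn => ?_
    exact sum_It H h hφ hC0 M (by
      rw [Finset.mem_range] at hn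
      omega) k
  have h2 : ∑ n ∈ Finset.range N, Zs g n0 φ (M + 1) n ≤
      ∑ n ∈ Finset.range (N + 1), ∑ ζ ∈ Sec (M + 1) n, Wt g n0 φ (M + 1) ζ := by
    rw [Finset.sum_range_succ]
    exact le_add_of_nonneg_right (Zs_nn h hφ (M + 1) N)
  have h3 : 0 ≤ φ + φ / ((M + 1 : ℕ) : ℝ) * C := by positivity
  calc _ ≤ (φ + φ / ((M + 1 : ℕ) : ℝ) * C) * ∑ n ∈ Finset.range N, Zs g n0 φ (M + 1) n + 0 :=
        add_le_add h1 h0
    _ ≤ _ := by
        rw [add_zero]
        exact mul_le_mul_of_nonneg_left h2 h3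

/-- **Existence of a good configuration.** -/
theorem exists_good (hlim : Tendsto g atTop atTop) (hg : Monotone g) (h : IsZero g n0)
    (hg0 : g 0 = 0) (K : ℕ) (hK : n0 < K) (L : ℕ) {C : ℝ} (hC0 : 0 ≤ C) : ∃ N₁ : ℕ, ∀ N, N₁ ≤ N →
    ∀ lam : ℝ, Good g N lam → ∀ k : ℕ, ∃ ζ : Cfg, ζ.degree ≤ N ∧
      (∀ (s : Bool) (l : ℕ), l ≤ L → K * 2 ^ l < 2 * ∑ x ∈ J s l, ζ x) ∧
      It g lam (hC g C) k ζ ≤ 16 * (2050 * g K) := by
  have hgK : 0 < g K := h.pos K hK
  set φ : ℝ := 2050 * g K with hφ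
  have hφ0 : 0 < φ := by positivity
  obtain ⟨M', hM1, hM2⟩ : ∃ M : ℕ, 2 ^ (L + 2) ≤ M ∧ C ≤ M := by
    obtain ⟨a, ha⟩ := exists_nat_ge C
    exact ⟨max (2 ^ (L + 2)) a, le_max_left _ _, ha.trans (by exact_mod_cast le_max_right _ _)⟩
  have hMpos : (0 : ℝ) < ((M' + 1 : ℕ) : ℝ) := by positivity
  have habs : ∀ (s : Bool) (l : ℕ), l ≤ L → ∀ x ∈ J s l, 2 * |x| ≤ (M' : ℤ) := by
    intro s l hl x hx
    have h1 := (abs_of_mem_J hx).2
    have h2 : (2 : ℤ) ^ (l + 1) ≤ 2 ^ (L + 1) := pow_le_pow_right₀ (by norm_num) (by omega)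
    have h3 : (2 : ℤ) ^ (L + 2) ≤ M' := by exact_mod_cast hM1
    have h4 : (2 : ℤ) ^ (L + 2) = 2 * 2 ^ (L + 1) := by ring
    omega
  have hJsub : ∀ (s : Bool) (l : ℕ), l ≤ L → J s l ⊆ II (M' + 1) := by
    intro s l hl x hx
    have h1 := habs s l hl x hx
    have h2 := abs_nonneg x
    rw [Finset.mem_Ioo, ← abs_lt]
    push_cast
    omega
  have hphi : ∀ (s : Bool) (l : ℕ), l ≤ L → ∀ x ∈ J s l, 1025 * g K ≤ phi φ (M' + 1) x := by
    intro s l hl x hx
    have h1 : 2 * |(x : ℝ)| ≤ (M' : ℝ) := by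
      have := habs s l hl x hx
      rw [← Int.cast_abs]
      exact_mod_cast this
    unfold phi
    rw [div_mul_eq_mul_div, le_div_iff₀ hMpos]
    push_cast
    have h2 : (1025 : ℝ) * g K * (M' + 1) ≤ φ * (M' + 1 - |(x : ℝ)|) := by
      rw [hφ]
      have : (0 : ℝ) ≤ g K * (M' + 1 - 2 * |(x : ℝ)|) := mul_nonneg hgK.le (by linarith)
      nlinarith
    exact h2
  have hsum : ∀ x ∈ II (M' + 1), Summable (w g n0 (phi φ (M' + 1) x)) := fun x hx =>
    w_summable hlim h (phi_nn hφ0.le hx)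
  set P : ℝ := ∏ x ∈ II (M' + 1), ∑' n, w g n0 (phi φ (M' + 1) x) n with hP
  have hPpos : 0 < P := by
    refine Finset.prod_pos fun x hx => ?_
    have h1 : w g n0 (phi φ (M' + 1) x) n0 ≤ ∑' n, w g n0 (phi φ (M' + 1) x) n :=
      (hsum x hx).le_tsum n0 fun n _ => w_nn h (phi_nn hφ0.le hx) n
    rw [w_n0] at h1
    linarith
  have hSle : ∀ A, ∏ x ∈ II (M' + 1), Sx g n0 φ (M' + 1) A x ≤ P := by
    intro A
    refine Finset.prod_le_prod (fun x hx => ?_) fun x hx => ?_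
    · exact Finset.sum_nonneg fun n _ => w_nn h (phi_nn hφ0.le hx) n
    · exact (hsum x hx).sum_le_tsum _ fun n _ => w_nn h (phi_nn hφ0.le hx) n
  have hSlim : Tendsto (fun A => ∏ x ∈ II (M' + 1), Sx g n0 φ (M' + 1) A x) atTop (𝓝 P) := by
    refine tendsto_finsetProd _ fun x hx => ?_
    exact ((hsum x hx).hasSum.tendsto_sum_nat).comp (tendsto_add_atTop_nat 1)
  obtain ⟨A, hA⟩ : ∃ A, P / 2 ≤ ∏ x ∈ II (M' + 1), Sx g n0 φ (M' + 1) A x := by
    have := (tendsto_order.1 hSlim).1 (P / 2) (by linarith)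
    obtain ⟨A, hA⟩ := this.exists
    exact ⟨A, hA.le⟩
  refine ⟨max ((II (M' + 1)).card * A) K, fun N hN lam H k => ?_⟩
  have hN1 : (II (M' + 1)).card * A ≤ N := (le_max_left _ _).trans hN
  have hN2 : K ≤ N := (le_max_right _ _).trans hN
  by_contra hcon
  push Not at hcon
  set W := Wt g n0 φ (M' + 1) with hW
  have hWnn : ∀ ζ, 0 ≤ W ζ := Wt_nn h hφ0.le (M' + 1)
  set Γ := It g lam (hC g C) k with hΓ
  have hΓnn : ∀ ζ : Cfg, ζ.degree ≤ N → 0 ≤ Γ ζ := fun ζ hζ =>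
    It_nn H hζ (fun _ _ => le_min (H.nn _) hC0) k ζ rfl
  have hpt : ∀ ζ ∈ SecLE (M' + 1) N, W ζ ≤
      ∑ s : Bool, ∑ l ∈ Finset.range (L + 1), W ζ * ∏ x ∈ J s l, cc K (ζ x) +
        (1 / (16 * φ)) * (W ζ * Γ ζ) := by
    intro ζ hζ
    have hd := (mem_SecLE.1 hζ).1
    by_cases hgood : ∀ (s : Bool) (l : ℕ), l ≤ L → K * 2 ^ l < 2 * ∑ x ∈ J s l, ζ x
    · have h1 := hcon ζ hd hgood
      have h2 : W ζ ≤ (1 / (16 * φ)) * (W ζ * Γ ζ) := by
        rw [one_div, ← div_eq_inv_mul, le_div_iff₀ (by positivity)]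
        exact mul_le_mul_of_nonneg_left h1.le (hWnn ζ)
      have h3 : 0 ≤ ∑ s : Bool, ∑ l ∈ Finset.range (L + 1), W ζ * ∏ x ∈ J s l, cc K (ζ x) :=
        Finset.sum_nonneg fun s _ => Finset.sum_nonneg fun l _ =>
          mul_nonneg (hWnn ζ) (Finset.prod_nonneg fun x _ => (cc_pos K _).le)
      linarith
    · push Not at hgood
      obtain ⟨s, l, hl, hsl⟩ := hgood
      have h1 : 1 ≤ ∏ x ∈ J s l, cc K (ζ x) := by
        refine one_le_prod_cc ?_ (by omega)
        rw [card_J']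
        exact hsl
      have h2 : W ζ ≤ W ζ * ∏ x ∈ J s l, cc K (ζ x) := le_mul_of_one_le_right (hWnn ζ) h1
      have h3 : W ζ * ∏ x ∈ J s l, cc K (ζ x) ≤
          ∑ s : Bool, ∑ l ∈ Finset.range (L + 1), W ζ * ∏ x ∈ J s l, cc K (ζ x) := by
        refine le_trans ?_ (Finset.single_le_sum
          (f := fun s => ∑ l ∈ Finset.range (L + 1), W ζ * ∏ x ∈ J s l, cc K (ζ x))
          (fun s _ => Finset.sum_nonneg fun l _ =>
            mul_nonneg (hWnn ζ) (Finset.prod_nonneg fun x _ => (cc_pos K _).le))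
          (Finset.mem_univ s))
        exact Finset.single_le_sum (f := fun l => W ζ * ∏ x ∈ J s l, cc K (ζ x))
          (fun l _ => mul_nonneg (hWnn ζ) (Finset.prod_nonneg fun x _ => (cc_pos K _).le))
          (Finset.mem_range.2 (by omega))
      have h4 : 0 ≤ (1 / (16 * φ)) * (W ζ * Γ ζ) :=
        mul_nonneg (by positivity) (mul_nonneg (hWnn ζ) (hΓnn ζ hd))
      linarith
  have hZ := Finset.sum_le_sum hpt
  rw [Finset.sum_add_distrib, Finset.sum_comm] at hZ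
  simp_rw [Finset.sum_comm (s := SecLE (M' + 1) N)] at hZ
  rw [← Finset.mul_sum] at hZ
  set Z := ∑ ζ ∈ SecLE (M' + 1) N, W ζ with hZdef
  have hZlow : P / 2 ≤ Z := by
    refine hA.trans ?_
    have h1 := Box_le hWnn (M' + 1) A N hN1
    refine le_trans (le_of_eq ?_) h1
    rw [hW]
    unfold Wt
    simp_rw [prod_toCfg (M' + 1) _ (fun x n => w g n0 (phi φ (M' + 1) x) n)]
    rw [sum_Box (M' + 1) A (fun x n => w g n0 (phi φ (M' + 1) x) n)]
    rfl
  have hbad : ∑ s : Bool, ∑ l ∈ Finset.range (L + 1),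
      ∑ ζ ∈ SecLE (M' + 1) N, W ζ * ∏ x ∈ J s l, cc K (ζ x) ≤ 2 / 15 * P := by
    calc _ ≤ ∑ s : Bool, ∑ l ∈ Finset.range (L + 1), (1 / 16 : ℝ) ^ (2 ^ l) * P := by
          refine Finset.sum_le_sum fun s _ => Finset.sum_le_sum fun l hl => ?_
          have hl' : l ≤ L := by
            rw [Finset.mem_range] at hl
            omega
          refine (le_Box (f := fun ζ => W ζ * ∏ x ∈ J s l, cc K (ζ x)) (fun ζ =>
            mul_nonneg (hWnn ζ) (Finset.prod_nonneg fun x _ => (cc_pos K _).le)) (M' + 1) N).trans ?_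
          refine (bad_le hg h hg0 hφ0.le hN2 s l (hJsub s l hl') (hphi s l hl')).trans ?_
          exact mul_le_mul_of_nonneg_left (hSle N) (by positivity)
      _ = (∑ s : Bool, ∑ l ∈ Finset.range (L + 1), (1 / 16 : ℝ) ^ (2 ^ l)) * P := by
          rw [Finset.sum_mul]
          refine Finset.sum_congr rfl fun s _ => ?_
          rw [Finset.sum_mul]
      _ ≤ _ := mul_le_mul_of_nonneg_right (sum_bad L) hPpos.le
  have hgam : (1 / (16 * φ)) * ∑ ζ ∈ SecLE (M' + 1) N, W ζ * Γ ζ ≤ 1 / 8 * Z := by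
    have h1 := sum_SecLE_It H h hφ0.le hC0 M' k
    have h2 : φ + φ / ((M' + 1 : ℕ) : ℝ) * C ≤ 2 * φ := by
      have : φ / ((M' + 1 : ℕ) : ℝ) * C ≤ φ := by
        rw [div_mul_eq_mul_div, div_le_iff₀ hMpos]
        refine mul_le_mul_of_nonneg_left ?_ hφ0.le
        push_cast
        linarith
      linarith
    have hZ0 : 0 ≤ Z := Finset.sum_nonneg fun ζ _ => hWnn ζ
    have h3 : ∑ ζ ∈ SecLE (M' + 1) N, W ζ * Γ ζ ≤ 2 * φ * Z :=
      h1.trans (mul_le_mul_of_nonneg_right h2 hZ0)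
    calc (1 / (16 * φ)) * ∑ ζ ∈ SecLE (M' + 1) N, W ζ * Γ ζ ≤ (1 / (16 * φ)) * (2 * φ * Z) :=
          mul_le_mul_of_nonneg_left h3 (by positivity)
      _ = 1 / 8 * Z := by
          field_simp
          ring
  linarith

end Pool.Agent.K7.H98.ZR
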