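import Pool.Agent.K7.H98.ZR7

/-!
# A bound for the discounted occupation of the origin which depends only on the density
-/

set_option autoImplicit false

namespace Pool.Agent.K7.H98.ZR

open Finset Filter Topology

variable {g : ℕ → ℝ} {N : ℕ} {lam : ℝ} {n0 : ℕ}

theorem exists_isZero (hlim : Tendsto g atTop atTop) (hg : Monotone g) (hg0 : g 0 = 0) :
    ∃ n0, IsZero g n0 := by
  classical
  obtain ⟨m, hm⟩ := (hlim.eventually_gt_atTop 0).exists
  refine ⟨Nat.findGreatest (fun n => g n = 0) m, ?_, ?_⟩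
  · exact Nat.findGreatest_spec (P := fun n => g n = 0) (Nat.zero_le m) hg0
  · intro n hn
    have hnn : 0 ≤ g n := hg0 ▸ hg (Nat.zero_le n)
    rcases le_or_gt n m with h | h
    · exact lt_of_le_of_ne hnn (Ne.symm (Nat.findGreatest_is_greatest hn h))
    · exact lt_of_lt_of_le hm (hg h.le)

theorem exists_list (η : Cfg) : ∃ ps : List ℤ, ofList ps = η := by
  have key : ∀ (n : ℕ) (η : Cfg), η.degree = n → ∃ ps : List ℤ, ofList ps = η := by
    intro n
    induction n with
    | zero =>
      intro η hη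
      refine ⟨[], ?_⟩
      ext x
      have := apply_le_degree η x
      have h1 : ofList [] = 0 := rfl
      rw [h1, Finsupp.zero_apply]
      omega
    | succ n ih =>
      intro η hη
      have h1 : ∃ x, η x ≠ 0 := by
        by_contra hcon
        push Not at hcon
        have : η = 0 := by ext x; exact hcon x
        rw [this, map_zero] at hη
        omega
      obtain ⟨x, hx⟩ := h1
      obtain ⟨ξ, rfl⟩ := exists_sub hx
      rw [degree_add_e] at hη
      obtain ⟨ps, hps⟩ := ih ξ (by omega)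
      exact ⟨x :: ps, by rw [ofList_cons, hps, add_comm]⟩
  exact key _ η rfl

theorem countP_ofList (P : ℤ → Bool) (ps : List ℤ) :
    ps.countP P = (ofList ps).sum fun x n => if P x then n else 0 := by
  induction ps with
  | nil => rfl
  | cons p ps ih =>
    rw [ofList_cons, Finsupp.sum_add_index', ← ih, List.countP_cons]
    · unfold e
      rw [Finsupp.sum_single_index]
      · split_ifs <;> omega
      · split_ifs <;> rfl
    · intro x
      split_ifs <;> rfl
    · intro x a b
      split_ifs <;> rfl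

theorem mem_ofList {ps : List ℤ} {p : ℤ} (hp : p ∈ ps) : ofList ps p ≠ 0 := by
  induction ps with
  | nil => simp at hp
  | cons q ps ih =>
    rw [ofList_cons, Finsupp.add_apply, e_apply]
    rcases List.mem_cons.1 hp with h | h
    · rw [if_pos h.symm]
      omega
    · have := ih h
      omega

theorem mono_of_D {F : Cfg → ℝ} (hF : ∀ (ζ : Cfg) (y : ℤ), ζ.degree < N → 0 ≤ D F y ζ) :
    ∀ (m : ℕ) (S ζ : Cfg), S ≤ ζ → ζ.degree ≤ N → ζ.degree - S.degree = m → F S ≤ F ζ := by
  intro m
  induction m with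
  | zero =>
    intro S ζ h1 h2 h3
    have h4 : ζ = S + (ζ - S) := (add_tsub_cancel_of_le h1).symm
    have h5 : ζ.degree = S.degree + (ζ - S).degree := by
      conv_lhs => rw [h4]
      rw [map_add]
    have h6 : (ζ - S).degree = 0 := by omega
    have h7 : ζ - S = 0 := (Finsupp.degree_eq_zero_iff _).1 h6
    rw [h7, add_zero] at h4
    rw [h4]
  | succ m ih =>
    intro S ζ h1 h2 h3
    have h4 : ζ = S + (ζ - S) := (add_tsub_cancel_of_le h1).symm
    have h5 : ζ.degree = S.degree + (ζ - S).degree := by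
      conv_lhs => rw [h4]
      rw [map_add]
    have h6 : ∃ x, (ζ - S) x ≠ 0 := by
      by_contra hcon
      push Not at hcon
      have : ζ - S = 0 := by ext x; exact hcon x
      rw [this, map_zero] at h5
      omega
    obtain ⟨x, hx⟩ := h6
    have h7 : S + e x ≤ ζ := by
      intro y
      rw [Finsupp.add_apply, e_apply]
      split_ifs with hxy
      · subst hxy
        rw [Finsupp.tsub_apply] at hx
        omega
      · exact h1 y
    have h8 : S.degree < N := by omega
    have h9 := hF S x h8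
    have h10 := ih (S + e x) ζ h7 h2 (by rw [degree_add_e]; omega)
    unfold D at h9
    linarith

/-- **Uniform bound.** -/
theorem uniform_bound (hlim : Tendsto g atTop atTop) (hg : Monotone g) (hg0 : g 0 = 0) (C₀ : ℕ) :
    ∃ B : ℝ, ∀ η : Cfg, (∀ n : ℕ, ∑ x ∈ Finset.Icc (-(n : ℤ)) n, η x ≤ C₀ * (2 * n + 1)) →
      ∃ N₁ : ℕ, ∀ N, N₁ ≤ N → ∀ lam : ℝ, Good g N lam → ∀ k : ℕ, It g lam (g0 g) k η ≤ B := by
  obtain ⟨n0, h⟩ := exists_isZero hlim hg hg0
  set K := 18 * C₀ + n0 + 1 with hK
  refine ⟨16 * (2050 * g K) + 4 * (5 * C₀), fun η hη => ?_⟩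
  obtain ⟨ps, hps⟩ := exists_list η
  -- the particles are within distance `2 ^ L`
  obtain ⟨L, hL1, hL⟩ : ∃ L : ℕ, 1 ≤ L ∧ ∀ p ∈ ps, |p| ≤ 2 ^ L := by
    have h1 : ∀ qs : List ℤ, ∃ L : ℕ, 1 ≤ L ∧ ∀ p ∈ qs, |p| ≤ 2 ^ L := by
      intro qs
      induction qs with
      | nil => exact ⟨1, le_rfl, fun p hp => by simp at hp⟩
      | cons q qs ih =>
        obtain ⟨L, h1, h2⟩ := ih
        refine ⟨max L q.natAbs, le_max_of_le_left h1, fun p hp => ?_⟩
        rcases List.mem_cons.1 hp with h | h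
        · subst h
          have h3 : (p.natAbs : ℤ) ≤ 2 ^ p.natAbs := by exact_mod_cast Nat.lt_two_pow_self.le
          have h4 : (2 : ℤ) ^ p.natAbs ≤ 2 ^ max L p.natAbs :=
            pow_le_pow_right₀ (by norm_num) (le_max_right _ _)
          rw [Int.natCast_natAbs] at h3
          linarith
        · exact (h2 p h).trans (pow_le_pow_right₀ (by norm_num) (le_max_left _ _))
    exact h1 ps
  have hcount : ∀ (R : ℕ) (P : ℤ → Bool), (∀ x, P x = true → |x| ≤ R) →
      ps.countP P ≤ C₀ * (2 * R + 1) := by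
    intro R P hP
    rw [countP_ofList, hps]
    refine le_trans ?_ (hη R)
    unfold Finsupp.sum
    calc ∑ x ∈ η.support, (if P x = true then η x else 0) =
          ∑ x ∈ η.support.filter (fun x => P x = true), η x := by
          rw [Finset.sum_filter]
      _ ≤ _ := by
          refine Finset.sum_le_sum_of_subset fun x hx => ?_
          rw [Finset.mem_filter] at hx
          rw [Finset.mem_Icc]
          exact abs_le.1 (hP x hx.2)
  obtain ⟨N₁, hN₁⟩ := exists_good hlim hg h hg0 K (by omega) L (C := g η.degree)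
    (hg0 ▸ hg (Nat.zero_le _))
  refine ⟨max N₁ η.degree, fun N hN lam H k => ?_⟩
  obtain ⟨ζ, hζ1, hζ2, hζ3⟩ := hN₁ N ((le_max_left _ _).trans hN) lam H k
  have hdN : η.degree ≤ N := (le_max_right _ _).trans hN
  have hM : ∀ S : Cfg, S.degree = η.degree → (∀ x, S x ≤ ζ x) →
      It g lam (g0 g) k S ≤ 16 * (2050 * g K) := by
    intro S hS hSζ
    have e1 : It g lam (g0 g) k S = It g lam (hC g (g η.degree)) k S := by
      refine It_congr (n := η.degree) (fun ξ hξ => ?_) k S hS
      unfold g0 hC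
      rw [min_eq_left]
      exact hg (hξ ▸ apply_le_degree ξ 0)
    rw [e1]
    refine le_trans ?_ hζ3
    refine mono_of_D (N := N) (fun ξ y hξ => ?_) _ S ζ hSζ hζ1 rfl
    refine It_D H hξ (fun ξ' y' _ => ?_) k ξ y rfl
    unfold D hC
    refine sub_nonneg.2 (min_le_min_right _ (hg ?_))
    rw [Finsupp.add_apply]
    exact Nat.le_add_right _ _
  have hcap : ∀ (s : Bool) (l : ℕ), l ≤ L →
      ∑ x ∈ J s l, (0 : Cfg) x + cnt l ps < ∑ x ∈ J s l, ζ x := by
    intro s l hl
    simp only [Finsupp.zero_apply, Finset.sum_const_zero, zero_add]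
    have h1 := hζ2 s l hl
    have h2 := hcount (2 ^ (l + 2)) (fun p => decide (|p| ≤ 2 ^ (l + 2))) (fun x hx => by
      simpa using hx)
    have h3 : cnt l ps ≤ C₀ * (2 * 2 ^ (l + 2) + 1) := h2
    have h4 : 1 ≤ 2 ^ l := Nat.one_le_two_pow
    have h5 : 2 ^ (l + 2) = 4 * 2 ^ l := by ring
    rw [h5] at h3
    have h6 : 18 * C₀ * 2 ^ l ≤ K * 2 ^ l := Nat.mul_le_mul_right _ (by omega)
    have h7 : C₀ * (2 * (4 * 2 ^ l) + 1) ≤ 9 * C₀ * 2 ^ l := by nlinarith
    nlinarith
  have hst := stabilize (H.of_le hdN) k (fun x => ζ x) L hL1 hM ps 0 (by rw [zero_add, hps])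
    (fun x => Nat.zero_le _) hL hcap
  rw [zero_add, hps] at hst
  have hin : inner ps ≤ C₀ * (2 * 2 + 1) := hcount 2 _ (fun x hx => by simpa using hx)
  have hin' : (inner ps : ℝ) ≤ 5 * C₀ := by
    have : (inner ps : ℝ) ≤ ((C₀ * (2 * 2 + 1) : ℕ) : ℝ) := by exact_mod_cast hin
    push_cast at this
    linarith
  linarith

end Pool.Agent.K7.H98.ZR
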