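import Pool.Agent.K7.H98.ZR8

/-!
# Finite zero-range processes: occupation bounds
-/

set_option autoImplicit false

namespace Pool.Agent.K7.H98.ZR

open Finset Filter Topology MeasureTheory

variable {g : ℕ → ℝ} {N : ℕ} {lam : ℝ}

/-- the function `(1 - L)⁻¹ g0` -/
noncomputable def GG (g : ℕ → ℝ) (lam : ℝ) (η : Cfg) : ℝ := ⨆ k, It g lam (g0 g) k η

theorem It_le_g (H : Good g N lam) {η : Cfg} (hη : η.degree ≤ N) (k : ℕ) :
    It g lam (g0 g) k η ≤ g η.degree :=
  It_le H hη (H.nn _) (fun ζ hζ => H.mono (hζ ▸ apply_le_degree ζ 0)) k η rfl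

theorem tendsto_GG (H : Good g N lam) {η : Cfg} (hη : η.degree ≤ N) :
    Tendsto (fun k => It g lam (g0 g) k η) atTop (𝓝 (GG g lam η)) := by
  refine tendsto_atTop_ciSup (monotone_nat_of_le_succ fun k => ?_) ⟨g η.degree, ?_⟩
  · exact It_mono H hη (fun ζ _ => H.nn _) k η rfl
  · rintro _ ⟨k, rfl⟩
    exact It_le_g H hη k

theorem GG_nn (H : Good g N lam) {η : Cfg} (hη : η.degree ≤ N) : 0 ≤ GG g lam η :=
  ge_of_tendsto' (tendsto_GG H hη) fun k => It_nn H hη (fun _ _ => H.nn _) k η rfl

theorem GG_le (H : Good g N lam) {η : Cfg} (hη : η.degree ≤ N) : GG g lam η ≤ g η.degree :=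
  le_of_tendsto' (tendsto_GG H hη) fun k => It_le_g H hη k

/-- the resolvent equation -/
theorem GG_eq (H : Good g N lam) {η : Cfg} (hη : η.degree ≤ N) :
    gen g (GG g lam) η = GG g lam η - g0 g η := by
  have h1 : Tendsto (fun k => It g lam (g0 g) (k + 1) η) atTop (𝓝 (GG g lam η)) :=
    (tendsto_GG H hη).comp (tendsto_add_atTop_nat 1)
  have h2 : Tendsto (fun k => gen g (It g lam (g0 g) k) η) atTop (𝓝 (gen g (GG g lam) η)) := by
    unfold gen
    refine tendsto_finsetSum _ fun x _ => ?_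
    refine Tendsto.const_mul _ ?_
    refine Tendsto.sub (Tendsto.div_const (Tendsto.add ?_ ?_) _) (tendsto_GG H hη)
    · exact tendsto_GG H (by rw [degree_move]; exact hη)
    · exact tendsto_GG H (by rw [degree_move]; exact hη)
  have h3 : Tendsto (fun k => It g lam (g0 g) (k + 1) η) atTop
      (𝓝 ((g0 g η + lam * GG g lam η + gen g (GG g lam) η) / (1 + lam))) := by
    show Tendsto (fun k => (g0 g η + lam * It g lam (g0 g) k η + gen g (It g lam (g0 g) k) η) /
      (1 + lam)) atTop _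
    exact ((((tendsto_GG H hη).const_mul lam).const_add _).add h2).div_const _
  have h4 := tendsto_nhds_unique h1 h3
  have h5 : 1 + lam ≠ 0 := by linarith [H.lam_nn]
  rw [eq_div_iff h5] at h4
  linarith

/-- `X` is (in the weak sense of its one-time laws) a symmetric nearest neighbour zero-range process
with rate function `g` started from the finite configuration `ζ`: for every bounded `f`,
`t ↦ E f(X_t)` is differentiable on `[0,∞)` with derivative `E (L f)(X_t)` (Kolmogorov's forward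
equation). -/
structure IsZeroRange {Ω : Type*} [MeasurableSpace Ω] (P : Measure Ω) (g : ℕ → ℝ)
    (ζ : Cfg) (X : ℝ → Ω → Cfg) : Prop where
  meas : ∀ t, ∀ S : Set Cfg, MeasurableSet (X t ⁻¹' S)
  init : ∀ᵐ ω ∂P, X 0 ω = ζ
  forward : ∀ f : Cfg → ℝ, (∃ C, ∀ η, |f η| ≤ C) → ∀ t, 0 ≤ t →
    Integrable (fun ω => gen g f (X t ω)) P ∧
    HasDerivWithinAt (fun s => ∫ ω, f (X s ω) ∂P) (∫ ω, gen g f (X t ω) ∂P) (Set.Ici 0) t

section process

variable {Ω : Type*} [MeasurableSpace Ω] {P : Measure Ω} [IsProbabilityMeasure P] {ζ : Cfg}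
  {X : ℝ → Ω → Cfg}

omit [IsProbabilityMeasure P] in
theorem meas_comp (h : IsZeroRange P g ζ X) {β : Type*} [MeasurableSpace β] (f : Cfg → β) (t : ℝ) :
    Measurable fun ω => f (X t ω) := by
  intro S _
  exact h.meas t (f ⁻¹' S)

/-- the number of particles is conserved -/
theorem degree_ae (h : IsZeroRange P g ζ X) {t : ℝ} (ht : 0 ≤ t) :
    ∀ᵐ ω ∂P, (X t ω).degree = ζ.degree := by
  classical
  set f : Cfg → ℝ := fun η => if η.degree = ζ.degree then 1 else 0 with hf
  have hb : ∃ C, ∀ η, |f η| ≤ C := ⟨1, fun η => by rw [hf]; dsimp only; split_ifs <;> norm_num⟩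
  have hgen : ∀ η, gen g f η = 0 := by
    intro η
    unfold gen
    refine Finset.sum_eq_zero fun x _ => ?_
    rw [hf]
    simp only [degree_move]
    ring
  have hderiv : ∀ s ∈ Set.Ici (0 : ℝ), HasDerivWithinAt (fun s => ∫ ω, f (X s ω) ∂P) 0 (Set.Ici 0) s := by
    intro s hs
    have := (h.forward f hb s hs).2
    simp_rw [hgen] at this
    simpa using this
  have hconst : ∫ ω, f (X t ω) ∂P = ∫ ω, f (X 0 ω) ∂P := by
    have h1 := constant_of_derivWithin_zero (f := fun s => ∫ ω, f (X s ω) ∂P) (a := 0) (b := t)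
      (fun s hs => ((hderiv s hs.1).mono Set.Icc_subset_Ici_self).differentiableWithinAt)
      (fun s hs => by
        have h2 := (hderiv s hs.1).mono (show Set.Icc (0 : ℝ) t ⊆ Set.Ici 0 from fun _ h => h.1)
        exact h2.derivWithin (uniqueDiffOn_Icc (lt_of_le_of_lt hs.1 hs.2) s ⟨hs.1, hs.2.le⟩))
    exact h1 t ⟨ht, le_rfl⟩
  have h0 : ∫ ω, f (X 0 ω) ∂P = 1 := by
    have : ∀ᵐ ω ∂P, f (X 0 ω) = 1 := by
      filter_upwards [h.init] with ω hω
      rw [hω, hf]
      simp
    rw [integral_congr_ae this]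
    simp
  rw [h0] at hconst
  have hint : Integrable (fun ω => f (X t ω)) P := by
    refine Integrable.of_bound (meas_comp h f t).aestronglyMeasurable 1 ?_
    filter_upwards with ω
    rw [hf]
    dsimp only
    split_ifs <;> norm_num
  have h1 : ∫ ω, (1 - f (X t ω)) ∂P = 0 := by
    rw [integral_sub (integrable_const _) hint, hconst]
    simp
  have h2 : (fun ω => 1 - f (X t ω)) =ᵐ[P] 0 := by
    refine (integral_eq_zero_iff_of_nonneg ?_ ((integrable_const _).sub hint)).1 h1
    intro ω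
    show 0 ≤ 1 - f (X t ω)
    rw [hf]
    dsimp only
    split_ifs <;> norm_num
  filter_upwards [h2] with ω hω
  by_contra hne
  have : f (X t ω) = 0 := by
    rw [hf]
    exact if_neg hne
  simp only [this, Pi.zero_apply] at hω
  norm_num at hω

/-- restriction of a function to the sector -/
noncomputable def cut (n : ℕ) (f : Cfg → ℝ) (η : Cfg) : ℝ := if η.degree = n then f η else 0

theorem cut_of (n : ℕ) (f : Cfg → ℝ) {η : Cfg} (h : η.degree = n) : cut n f η = f η := if_pos h

theorem gen_cut (n : ℕ) (f : Cfg → ℝ) {η : Cfg} (h : η.degree = n) :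
    gen g (cut n f) η = gen g f η :=
  gen_congr (n := n) (fun _ hξ => cut_of n f hξ) h

/-- forward equation for functions which are bounded on the sector -/
theorem forward' (h : IsZeroRange P g ζ X) {f : Cfg → ℝ} {C : ℝ}
    (hf : ∀ η : Cfg, η.degree = ζ.degree → |f η| ≤ C) {t : ℝ} (ht : 0 ≤ t) :
    HasDerivWithinAt (fun s => ∫ ω, f (X s ω) ∂P) (∫ ω, gen g f (X t ω) ∂P) (Set.Ici 0) t := by
  have hb : ∃ C, ∀ η, |cut ζ.degree f η| ≤ C := by
    refine ⟨max C 0, fun η => ?_⟩
    unfold cut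
    split_ifs with h1
    · exact (hf η h1).trans (le_max_left _ _)
    · rw [abs_zero]
      exact le_max_right _ _
  have h1 := (h.forward _ hb t ht).2
  have h2 : ∫ ω, gen g (cut ζ.degree f) (X t ω) ∂P = ∫ ω, gen g f (X t ω) ∂P := by
    refine integral_congr_ae ?_
    filter_upwards [degree_ae h ht] with ω hω
    exact gen_cut _ _ hω
  rw [h2] at h1
  refine h1.congr (fun s hs => ?_) ?_
  · refine integral_congr_ae ?_
    filter_upwards [degree_ae h hs] with ω hω
    exact (cut_of _ _ hω).symm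
  · refine integral_congr_ae ?_
    filter_upwards [degree_ae h ht] with ω hω
    exact (cut_of _ _ hω).symm

theorem continuousOn' (h : IsZeroRange P g ζ X) {f : Cfg → ℝ} {C : ℝ}
    (hf : ∀ η : Cfg, η.degree = ζ.degree → |f η| ≤ C) :
    ContinuousOn (fun s => ∫ ω, f (X s ω) ∂P) (Set.Ici 0) := fun _ ht =>
  (forward' h hf ht).continuousWithinAt

theorem integrable' (h : IsZeroRange P g ζ X) {f : Cfg → ℝ} {C : ℝ}
    (hf : ∀ η : Cfg, η.degree = ζ.degree → |f η| ≤ C) {t : ℝ} (ht : 0 ≤ t) :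
    Integrable (fun ω => f (X t ω)) P := by
  refine Integrable.of_bound (meas_comp h f t).aestronglyMeasurable C ?_
  filter_upwards [degree_ae h ht] with ω hω
  exact hf _ hω

/-- discounted occupation bound -/
theorem occupation (hP : IsZeroRange P g ζ X) (H : Good g N lam) (hd : ζ.degree ≤ N) {t : ℝ}
    (ht : 0 ≤ t) : ∫ s in (0 : ℝ)..t, ∫ ω, g0 g (X s ω) ∂P ≤ Real.exp t * GG g lam ζ := by
  have hbG : ∀ η : Cfg, η.degree = ζ.degree → |GG g lam η| ≤ g ζ.degree := by
    intro η hη
    rw [abs_of_nonneg (GG_nn H (hη ▸ hd)), ← hη]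
    exact GG_le H (hη ▸ hd)
  have hb0 : ∀ η : Cfg, η.degree = ζ.degree → |g0 g η| ≤ g ζ.degree := by
    intro η hη
    unfold g0
    rw [abs_of_nonneg (H.nn _), ← hη]
    exact H.mono (apply_le_degree η 0)
  set a : ℝ → ℝ := fun s => ∫ ω, GG g lam (X s ω) ∂P with ha
  set b : ℝ → ℝ := fun s => ∫ ω, g0 g (X s ω) ∂P with hb
  have hda : ∀ s ∈ Set.Ici (0 : ℝ), HasDerivWithinAt a (a s - b s) (Set.Ici 0) s := by
    intro s hs
    have h1 := forward' hP hbG hs
    have h2 : ∫ ω, gen g (GG g lam) (X s ω) ∂P = a s - b s := by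
      rw [ha, hb]
      dsimp only
      rw [← integral_sub (integrable' hP hbG hs) (integrable' hP hb0 hs)]
      refine integral_congr_ae ?_
      filter_upwards [degree_ae hP hs] with ω hω
      exact GG_eq H (hω ▸ hd)
    rwa [h2] at h1
  have hcb : ContinuousOn b (Set.Ici 0) := continuousOn' hP hb0
  have hb_nn : ∀ s, 0 ≤ b s := fun s => integral_nonneg fun ω => H.nn _
  -- derivative of `- e^{-s} a s`
  have hder : ∀ s ∈ Set.Icc (0 : ℝ) t, HasDerivWithinAt (fun s => -(Real.exp (-s) * a s))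
      (Real.exp (-s) * b s) (Set.Icc 0 t) s := by
    intro s hs
    have h1 := (hda s hs.1).mono (show Set.Icc (0 : ℝ) t ⊆ Set.Ici 0 from fun _ h => h.1)
    have h2 : HasDerivWithinAt (fun s => Real.exp (-s)) (-Real.exp (-s)) (Set.Icc 0 t) s := by
      have := ((hasDerivAt_neg s).exp).hasDerivWithinAt (s := Set.Icc 0 t)
      refine this.congr_deriv ?_
      ring
    have h3 := (h2.mul h1).neg
    refine h3.congr_deriv ?_
    ring
  have hcont : ContinuousOn (fun s => Real.exp (-s) * b s) (Set.Icc 0 t) :=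
    ((Real.continuous_exp.comp continuous_neg).continuousOn).mul
      (hcb.mono Set.Icc_subset_Ici_self)
  have hftc : ∫ s in (0 : ℝ)..t, Real.exp (-s) * b s =
      -(Real.exp (-t) * a t) - -(Real.exp (-0) * a 0) := by
    refine intervalIntegral.integral_eq_sub_of_hasDerivAt_of_le
      (f := fun s => -(Real.exp (-s) * a s)) ht ?_ ?_ ?_
    · exact fun s hs => (hder s hs).continuousWithinAt
    · intro s hs
      exact (hder s ⟨hs.1.le, hs.2.le⟩).hasDerivAt (Icc_mem_nhds hs.1 hs.2)
    · exact (hcont.intervalIntegrable_of_Icc ht)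
  have ha0 : a 0 = GG g lam ζ := by
    rw [ha]
    dsimp only
    rw [integral_congr_ae (g := fun _ => GG g lam ζ)]
    · simp
    · filter_upwards [hP.init] with ω hω
      rw [hω]
  have hat : 0 ≤ a t := by
    refine integral_nonneg_of_ae ?_
    filter_upwards [degree_ae hP ht] with ω hω
    exact GG_nn H (hω ▸ hd)
  have hle : ∫ s in (0 : ℝ)..t, b s ≤ ∫ s in (0 : ℝ)..t, Real.exp t * (Real.exp (-s) * b s) := by
    refine intervalIntegral.integral_mono_on ht ?_ ?_ ?_
    · exact (hcb.mono Set.Icc_subset_Ici_self).intervalIntegrable_of_Icc ht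
    · exact (hcont.intervalIntegrable_of_Icc ht).const_mul _
    · intro s hs
      rw [← mul_assoc, ← Real.exp_add]
      refine le_mul_of_one_le_left (hb_nn s) ?_
      exact Real.one_le_exp (by linarith [hs.2])
  rw [intervalIntegral.integral_const_mul, hftc, ha0] at hle
  refine hle.trans ?_
  refine mul_le_mul_of_nonneg_left ?_ (Real.exp_pos _).le
  have : 0 ≤ Real.exp (-t) * a t := mul_nonneg (Real.exp_pos _).le hat
  rw [neg_zero, Real.exp_zero, one_mul]
  linarith

end process

end Pool.Agent.K7.H98.ZR
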